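import Pool.Agent.GEN.StmtsR

/-!
# Squad GEN, block F: the killed slopes and the shape of the Z statement
-/

set_option autoImplicit false

namespace Pool.Agent.GEN

open MvPolynomial Finset Pool.Agent.Helper6_Mono Pool.Agent.Helper30_Simp
  Pool.Agent.Helper30_Simp2

/-- `B` is an independent set of monomials of the face of the flat cell `(κ, N)`, spanning enough -/
structure FlatBase {σ : Type} [Fintype σ] (M : Finset (σ →₀ ℕ)) (κ : σ → ℕ) (N : ℕ)
    (B : Finset (σ →₀ ℕ)) : Prop where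
  pos : 0 < N
  ge : ∀ α ∈ M, N ≤ dot κ α
  sub : B ⊆ M
  ne : B.Nonempty
  eq : ∀ α ∈ B, dot κ α = N
  ind : ∀ t : B → ℤ, (∀ j, ∑ α, t α * (((α : σ →₀ ℕ) j : ℕ) : ℤ) = 0) → t = 0
  flat : ∀ v : σ → ℚ, (∀ i, κ i = 0 → v i = 0) → (∀ α ∈ B, ∑ i, v i * (α i : ℚ) = 0) →
    ∑ i, v i = 0

/-- `j` is a base direction of `A` in `B`, for the weights `κ` -/
def DirB {σ : Type} (B : Finset (σ →₀ ℕ)) (κ : σ → ℕ) (A : σ →₀ ℕ) (j : σ) : Prop :=
  κ j ≠ 0 ∧ A j = 1 ∧ ∀ β ∈ B, β ≠ A → β j = 0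

/-- the slope `x` is killed: every flat base of slope `x` contains a monomial with exactly one base
direction -/
def Killed {σ : Type} [Fintype σ] (M : Finset (σ →₀ ℕ)) (x : ℚ) : Prop :=
  ∀ (κ : σ → ℕ) (N : ℕ) (B : Finset (σ →₀ ℕ)), FlatBase M κ N B →
    ((∑ i, κ i : ℕ) : ℚ) = x * N → ∃ A ∈ B, ∃ j, DirB B κ A j ∧ ∀ l, DirB B κ A l → l = j

/-- the coefficients of `f` are algebraically independent over `ℚ` -/
def AlgIndCoeff {σ k : Type} [Field k] [Algebra k ℂ] (f : MvPolynomial σ k) : Prop :=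
  AlgebraicIndependent ℚ fun α : f.support => algebraMap k ℂ (f.coeff (α : σ →₀ ℕ))

/-- the shape of the theorem on the zeta function, for a property `KZ M x` of the slopes which are
removed (block Z proves it for suitable `KZ`) -/
def ZShape (KZ : ∀ (σ : Type) [Fintype σ], Finset (σ →₀ ℕ) → ℚ → Prop) : Prop :=
  ∀ (k : Type) [Field k] [CharZero k] (σ : Type) [Fintype σ] (R : Type 1) [CommRing R] (L : Rˣ)
    (χ : SInv k (fun _ : σ => (0 : QZ)) L) (f : MvPolynomial σ k), f ≠ 0 →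
    (AlgebraicIndependent ℚ fun α : f.support => f.coeff (α : σ →₀ ℕ)) →
    ∀ B : Set ℚ, 1 ∉ B → (∀ x ∈ B, KZ σ f.support x) →
    ∃ a : ℕ → R, a 0 = 0 ∧ RP L (steps ((slopes f.support ∪ {1}) \ B)) a ∧
      ∀ (m : ℕ) (hm : m ≠ 0) (hω : m • ((((1 : ℚ) / m : ℚ)) : QZ) = 0),
        a m = Li L ^ (m * Fintype.card σ) *
          χ.χ ((FibK k σ ((((1 : ℚ) / m : ℚ)) : QZ) m hω).app
            (Jet f Set.univ m ((((1 : ℚ) / m : ℚ)) : QZ)))

end Pool.Agent.GEN
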