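import Pool.Agent.GEN.StmtsT

/-!
# Squad GEN: the interface of the Zariski generic version
-/

set_option autoImplicit false

namespace Pool.Agent.GEN

open Finset Pool.Agent.Helper6_Mono Pool.Agent.Helper30_Simp Pool.Agent.Helper30_Simp2
  Pool.Agent.Helper8_CR

/-- the slope of every flat base of the support of `F` without a monomial with exactly one base
direction is minus a root of the Bernstein-Sato polynomial (conclusion of `RooStmt`) -/
def Roots {σ : Type} [Fintype σ] (F : MvPolynomial σ ℂ) : Prop :=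
  ∀ (κ : σ → ℕ) (N : ℕ) (B : Finset (σ →₀ ℕ)), 0 < N → (∀ α ∈ F.support, N ≤ dot κ α) →
    B ⊆ F.support → B.Nonempty → (∀ α ∈ B, dot κ α = N) →
    (∀ t : B → ℤ, (∀ j, ∑ α, t α * (((α : σ →₀ ℕ) j : ℕ) : ℤ) = 0) → t = 0) →
    (∀ v : σ → ℚ, (∀ i, κ i = 0 → v i = 0) → (∀ α ∈ B, ∑ i, v i * (α i : ℚ) = 0) →
      ∑ i, v i = 0) →
    (∀ A ∈ B, ∀ j, κ j ≠ 0 → A j = 1 → (∀ β ∈ B, β ≠ A → β j = 0) →
      ∃ l, l ≠ j ∧ κ l ≠ 0 ∧ A l = 1 ∧ ∀ β ∈ B, β ≠ A → β l = 0) →
    (bfun F).eval (-(((∑ i, κ i : ℕ) : ℂ) / (N : ℕ))) = 0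

/-- what the theorem needs of the coefficients of a complex polynomial -/
def GoodC {σ : Type} [Fintype σ] (F : MvPolynomial σ ℂ) : Prop := NDP F ∧ Roots F

/-- **Final row of the blocks U, V** (Zariski generic coefficients): for every finite set `M` of
exponents there is a nonzero polynomial `H` over `ℚ` in the coefficients such that all complex
polynomials with support `M` and `H (coefficients) ≠ 0` are good -/
def GncStmt : Prop :=
  ∀ (σ : Type) [Fintype σ] (M : Finset (σ →₀ ℕ)), ∃ H : MvPolynomial M ℚ, H ≠ 0 ∧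
    ∀ F : MvPolynomial σ ℂ, F.support = M →
      MvPolynomial.aeval (fun α : M => F.coeff (α : σ →₀ ℕ)) H ≠ 0 → GoodC F

end Pool.Agent.GEN
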