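import Pool.Agent.GEN.DefsZ
import Pool.Agent.GEN.DefsF

/-!
# Squad GEN, all supports: isolated weak stable sets at all flat points
-/

set_option autoImplicit false

namespace Pool.Agent.GEN

open Finset Pool.Agent.Helper6_Mono Pool.Agent.Helper30_Simp Pool.Agent.Helper30_Simp2

/-- `C` is a circuit on `I` with variables in `P`: a minimal weak stable set -/
def CircP {σ : Type} (I : Finset (σ →₀ ℕ)) (P : σ → Prop) (C : Finset σ) : Prop :=
  (∀ j ∈ C, P j) ∧ KS I C ∧ ∀ C' : Finset σ, C' ⊂ C → ¬ KS I C'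

open scoped Classical in
/-- at every flat point there is a weak stable set of variables of positive weight whose union with
every circuit is stable -/
def KIso {σ : Type} [Fintype σ] (M : Finset (σ →₀ ℕ)) (x : ℚ) : Prop :=
  ∀ (u : σ → ℕ) (N : ℕ), FlatPt M x u N → ∃ K : Finset σ, (∀ j ∈ K, u j ≠ 0) ∧
    KS (fce M u) K ∧ ∀ C : Finset σ, CircP (fce M u) (fun j => u j ≠ 0) C → Stab (fce M u) (K ∪ C)

/-- **Row KPI** (end of the combinatorial side; from the theorem (K'') of squad KTB): a killed
slope has isolated weak stable sets at all flat points -/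
def KpiStmt : Prop :=
  ∀ (σ : Type) [Fintype σ] (M : Finset (σ →₀ ℕ)) (x : ℚ), Killed M x → KIso M x

/-- **Row ZAI** (patching; end of the algebraic side): the operator kills the flat cones -/
def ZaiStmt : Prop :=
  ∀ (σ : Type) [Fintype σ] (M : Finset (σ →₀ ℕ)), M.Nonempty → ∀ x : ℚ, KIso M x →
    ∀ (P : Set (ℕ × ℕ)) (z : Finset (σ →₀ ℕ) → Finset σ → PowerSeries ℤ),
      KRel M PowerSeries.X z (fun _ => 0) →
      ∀ R : Finset (Wa M), Flat M x R → PZ M z * Xs M (PowerSeries ℤ) R ∈ H40.RI M P

end Pool.Agent.GEN
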