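import Pool.Agent.Helper30_Simp2.Stmts
import Pool.Agent.Helper30_Simp.Core1

/-!
# Squad GEN (polynomials with algebraically independent coefficients): definitions, root side

One variable `z` (or all the variables outside a set `a`) is inactive: only derivatives in the
active variables are used, and weight vectors are fixed at the inactive variables.
-/

set_option autoImplicit false

namespace Pool.Agent.GEN

open MvPolynomial Pool.Agent.Helper6_Mono Pool.Agent.Helper30_Simp Pool.Agent.Helper30_Simp2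

section geo

variable {σ : Type} [Fintype σ]

/-- `j` is an active base direction of `A` at `u` -/
def DirA (M : Finset (σ →₀ ℕ)) (a : Set σ) (u : σ → ℕ) (A : σ →₀ ℕ) (j : σ) : Prop :=
  j ∈ a ∧ Dir M u A j

/-- some monomial of the face of `u` has exactly one active base direction -/
def UB1A (M : Finset (σ →₀ ℕ)) (a : Set σ) (u : σ → ℕ) : Prop :=
  ∃ A ∈ face M u, ∃ j, DirA M a u A j ∧ ∀ l, DirA M a u A l → l = j

/-- the cell of `κ` is flat in the active directions -/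
def FlatA (M : Finset (σ →₀ ℕ)) (a : Set σ) (κ : σ → ℕ) : Prop :=
  ∀ v : σ → ℚ, (∀ i, κ i = 0 ∨ i ∉ a → v i = 0) →
    (∀ α ∈ face M κ, ∑ i, v i * (α i : ℚ) = 0) → ∑ i, v i = 0

/-- data of a flat cell which is not `UB₁` but all whose proper faces are `UB₁`, with active
variables `a` (compare `Helper30_Simp2.FD`, the case `a = univ`) -/
structure FDA (M : Finset (σ →₀ ℕ)) (a : Set σ) (κ : σ → ℕ) where
  N : ℕ
  hN : 0 < N
  ge : ∀ α ∈ M, N ≤ dot κ α
  ex : ∃ α ∈ M, dot κ α = N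
  flat : FlatA M a κ
  Ap : Finset (σ →₀ ℕ)
  j1 : (σ →₀ ℕ) → σ
  j2 : (σ →₀ ℕ) → σ
  ap : ∀ A ∈ Ap, A ∈ face M κ ∧ j1 A ≠ j2 A ∧ DirA M a κ A (j1 A) ∧ DirA M a κ A (j2 A)
  all : ∀ A ∈ face M κ, ∀ j, DirA M a κ A j → A ∈ Ap ∧ (j = j1 A ∨ j = j2 A)
  span : ∀ v : σ → ℚ, (∀ i, κ i = 0 ∨ i ∉ a → v i = 0) →
    (∀ α ∈ face M κ, ∑ i, v i * (α i : ℚ) = 0) →
    ∃ y : (σ →₀ ℕ) → ℚ, ∀ i, v i = ∑ A ∈ Ap, y A * dv (j1 A) (j2 A) i
  star : ∀ w : σ → ℝ, (∀ i, 0 ≤ w i) → (∀ i, κ i = 0 → w i = 0) →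
    (∀ i, i ∉ a → w i = (κ i : ℝ)) → (∀ β ∈ M, (N : ℝ) ≤ dot w β) →
    (∀ α ∈ face M κ, dot w α = N) →
    ((∃ i, κ i ≠ 0 ∧ w i = 0) ∨ ∃ β ∈ M, β ∉ face M κ ∧ dot w β = N) →
    ∃ A ∈ Ap, ¬ (FreeDir M N w A (j1 A) ↔ FreeDir M N w A (j2 A))

/-- the monomials without excess are independent at all points with the weights `κ` of the
inactive variables -/
def SimpA (M : Finset (σ →₀ ℕ)) (a : Set σ) (κ : σ → ℕ) (N : ℕ) : Prop :=
  ∀ u : σ → ℝ, (∀ i, 0 ≤ u i) → (∀ i, i ∉ a → u i = (κ i : ℝ)) → (∀ α ∈ M, (N : ℝ) ≤ dot u α) →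
    ∀ t : M → ℤ, (∀ j, ∑ α, t α * ((α : σ →₀ ℕ) j : ℤ) = 0) →
      (∀ α : M, (N : ℝ) < dot u (α : σ →₀ ℕ) → t α = 0) → t = 0

open scoped Classical in
/-- the multiplicities have the sum determined by the slope -/
def SumA (M : Finset (σ →₀ ℕ)) (a : Set σ) (κ : σ → ℕ) (N : ℕ) : Prop :=
  ∀ m : (σ →₀ ℕ) → ℂ, (∀ α, α ∉ face M κ → m α = 0) →
    (∀ j, κ j ≠ 0 → j ∈ a → ∑ α ∈ M, m α * (α j : ℂ) = -1) →
    (N : ℂ) * ∑ α ∈ M, m α = -∑ i, if i ∈ a then (κ i : ℂ) else 0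

end geo

/-! ## Relative functional equations -/

/-- the iterated partial derivative over an arbitrary ring -/
noncomputable def dWordR {σ A : Type} [CommRing A] (w : List σ) (p : MvPolynomial σ A) :
    MvPolynomial σ A :=
  w.foldr (fun i q => pderiv i q) p

/-- functional equation with the parameter `z` (no derivative in `z`): the left side is
`∑ be_e(s) z^e F^s`, with exponents `e ≤ d` -/
def RelBS {σ : Type} (F : MvPolynomial σ ℂ) (z : σ) (d : ℕ) (be : ℕ → Polynomial ℂ) : Prop :=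
  ∃ P : List (Polynomial (MvPolynomial σ ℂ) × List σ), (∀ aw ∈ P, z ∉ aw.2) ∧ ∀ n : ℕ,
    (∑ e ∈ Finset.range (d + 1), C ((be e).eval (n : ℂ)) * X z ^ e) * F ^ n =
      (P.map fun aw => aw.1.eval (n : MvPolynomial σ ℂ) * dWord aw.2 (F ^ (n + 1))).sum

/-- the lifted exponent: exponent `α` of the old variables, exponent `ω α` of the new variable -/
noncomputable def lft {σ : Type} (ω : (σ →₀ ℕ) → ℕ) (α : σ →₀ ℕ) : Option σ →₀ ℕ :=
  α.mapDomain some + Finsupp.single none (ω α)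

/-- the lifted polynomial `∑ c_α z^(ω α) x^α` -/
noncomputable def liftF {σ : Type} (ω : (σ →₀ ℕ) → ℕ) (f : MvPolynomial σ ℂ) :
    MvPolynomial (Option σ) ℂ :=
  ∑ α ∈ f.support, monomial (lft ω α) (f.coeff α)

/-- the lifted weight vector with weight `q` of the new variable -/
def wOpt {σ : Type} {R : Type} (u : σ → R) (q : R) : Option σ → R
  | none => q
  | some i => u i

/-- the set of the old variables -/
def actv (σ : Type) : Set (Option σ) := {i | i ≠ none}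

end Pool.Agent.GEN
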