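import Pool.Agent.GEN.DefsF

/-!
# Squad GEN, block U: Zariski general coefficients. Definitions

Symbols of differential operators with the parameter `s`: polynomials in the variables `none` (this
is `s`), `some (inl i)` (this is `x_i`), `some (inr i)` (this is the derivative `∂_i`); in the
monomials the derivatives are on the right.
-/

set_option autoImplicit false

namespace Pool.Agent.GEN

open MvPolynomial

/-- the variables of the symbols -/
abbrev SY (σ : Type) : Type := Option (σ ⊕ σ)

/-- the symbols over `A` -/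
abbrev Sm (σ A : Type) [CommRing A] : Type := MvPolynomial (SY σ) A

section

variable {σ A : Type} [CommRing A]

/-- the exponents of the variables `x_i` -/
noncomputable def xp (m : SY σ →₀ ℕ) : σ →₀ ℕ :=
  m.comapDomain (fun i => some (Sum.inl i)) fun _ _ _ _ h => Sum.inl_injective (Option.some_injective _ h)

/-- the exponents of the derivatives -/
noncomputable def dp (m : SY σ →₀ ℕ) : σ →₀ ℕ :=
  m.comapDomain (fun i => some (Sum.inr i)) fun _ _ _ _ h => Sum.inr_injective (Option.some_injective _ h)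

@[simp] theorem xp_apply (m : SY σ →₀ ℕ) (i : σ) : xp m i = m (some (Sum.inl i)) := rfl

@[simp] theorem dp_apply (m : SY σ →₀ ℕ) (i : σ) : dp m i = m (some (Sum.inr i)) := rfl

/-- the iterated derivative with exponents `β` -/
noncomputable def dE (β : σ →₀ ℕ) (w : MvPolynomial σ A) : MvPolynomial σ A :=
  dWordR (Finsupp.toMultiset β).toList w

/-- the symbol `p` as a differential operator with `s = l`, applied to `w` -/
noncomputable def act (l : A) (w : MvPolynomial σ A) : Sm σ A →ₗ[A] MvPolynomial σ A :=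
  (MvPolynomial.basisMonomials (SY σ) A).constr A fun m =>
    C (l ^ m none) * monomial (xp m) (1 : A) * dE (dp m) w

theorem act_monomial (l : A) (w : MvPolynomial σ A) (m : SY σ →₀ ℕ) (c : A) :
    act l w (monomial m c) = C c * (C (l ^ m none) * monomial (xp m) (1 : A) * dE (dp m) w) := by
  have h1 : (monomial m c : Sm σ A) = c • MvPolynomial.basisMonomials (SY σ) A m := by
    rw [MvPolynomial.coe_basisMonomials, MvPolynomial.smul_monomial, smul_eq_mul, mul_one]
  rw [h1, map_smul, act, Module.Basis.constr_basis, MvPolynomial.smul_eq_C_mul]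

/-- composition with `s`, `x_i`, `∂_i` from the left -/
noncomputable def Lop (y : SY σ) : Sm σ A →ₗ[A] Sm σ A :=
  match y with
  | none => LinearMap.mulLeft A (X none)
  | some (Sum.inl i) => LinearMap.mulLeft A (X (some (Sum.inl i)))
  | some (Sum.inr i) => LinearMap.mulLeft A (X (some (Sum.inr i)))
      + (pderiv (some (Sum.inl i))).toLinearMap

/-- the power `F ^ (n + c)` for large `n`, with an integer `c` -/
noncomputable def pw (F : MvPolynomial σ A) (c : ℤ) (n : ℕ) : MvPolynomial σ A :=
  F ^ ((n : ℤ) + c).toNat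

/-- the symbols which kill `F ^ (s + c)` -/
def UU (F : MvPolynomial σ A) (c : ℤ) : Submodule A (Sm σ A) where
  carrier := {p | ∃ n₀ : ℕ, ∀ n ≥ n₀, act (n : A) (pw F c n) p = 0}
  zero_mem' := ⟨0, fun n _ => map_zero _⟩
  add_mem' := by
    rintro p q ⟨a, ha⟩ ⟨b, hb⟩
    refine ⟨max a b, fun n hn => ?_⟩
    rw [map_add, ha n (le_trans (le_max_left _ _) hn), hb n (le_trans (le_max_right _ _) hn),
      add_zero]
  smul_mem' := by
    rintro c p ⟨a, ha⟩
    exact ⟨a, fun n hn => by rw [map_smul, ha n hn, smul_zero]⟩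

/-- the symbols `p` with `p F ^ (s + c) = r F ^ (s + c + 1)` for some symbol `r` -/
def JA (F : MvPolynomial σ A) (c : ℤ) : Submodule A (Sm σ A) where
  carrier := {p | ∃ (r : Sm σ A) (n₀ : ℕ), ∀ n ≥ n₀,
    act (n : A) (pw F c n) p = act (n : A) (pw F (c + 1) n) r}
  zero_mem' := ⟨0, 0, fun n _ => by rw [map_zero, map_zero]⟩
  add_mem' := by
    rintro p q ⟨r, a, ha⟩ ⟨r', b, hb⟩
    refine ⟨r + r', max a b, fun n hn => ?_⟩
    rw [map_add, map_add, ha n (le_trans (le_max_left _ _) hn),
      hb n (le_trans (le_max_right _ _) hn)]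
  smul_mem' := by
    rintro c p ⟨r, a, ha⟩
    exact ⟨c • r, a, fun n hn => by rw [map_smul, map_smul, ha n hn]⟩

/-- the symbols `p` with `p F ^ s = r F ^ (s + 1) + (s - s₀) q F ^ s` for some `r`, `q` -/
def JB (F : MvPolynomial σ A) (s₀ : A) : Submodule A (Sm σ A) where
  carrier := {p | ∃ (r q : Sm σ A) (n₀ : ℕ), ∀ n ≥ n₀,
    act (n : A) (F ^ n) p = act (n : A) (F ^ (n + 1)) r + ((n : A) - s₀) • act (n : A) (F ^ n) q}
  zero_mem' := ⟨0, 0, 0, fun n _ => by rw [map_zero, map_zero, smul_zero, add_zero]⟩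
  add_mem' := by
    rintro p q ⟨r, u, a, ha⟩ ⟨r', u', b, hb⟩
    refine ⟨r + r', u + u', max a b, fun n hn => ?_⟩
    rw [map_add, map_add, map_add, ha n (le_trans (le_max_left _ _) hn),
      hb n (le_trans (le_max_right _ _) hn), smul_add]
    abel
  smul_mem' := by
    rintro c p ⟨r, u, a, ha⟩
    refine ⟨c • r, c • u, a, fun n hn => ?_⟩
    rw [map_smul, map_smul, map_smul, ha n hn, smul_add, smul_comm]

/-- after every specialisation with `φ h ≠ 0` the semilinear maps on `J` to vector spaces extend to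
all polynomials -/
def ExtH {Y : Type} (J : Submodule A (MvPolynomial Y A)) (h : A) : Prop :=
  ∀ (K : Type) [Field K] (φ : A →+* K), φ h ≠ 0 → ∀ (W : Type) [AddCommGroup W] [Module K W]
    (g : J →ₛₗ[φ] W), ∃ g' : MvPolynomial Y A →ₛₗ[φ] W, ∀ j : J, g' (j : MvPolynomial Y A) = g j

/-- after every specialisation with `φ h ≠ 0` there is a semilinear functional which kills `J` and
has the value `1` at `1` -/
def NuH {Y : Type} (J : Submodule A (MvPolynomial Y A)) (h : A) : Prop :=
  ∀ (K : Type) [Field K] (φ : A →+* K), φ h ≠ 0 →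
    ∃ ν : MvPolynomial Y A →ₛₗ[φ] K, (∀ j ∈ J, ν j = 0) ∧ ν 1 = 1

/-- the span over `K` of the image of `U` -/
noncomputable def spn {K : Type} [Field K] (φ : A →+* K) (U : Submodule A (Sm σ A)) : Submodule K (Sm σ K) :=
  Submodule.span K (MvPolynomial.map φ '' (U : Set (Sm σ A)))

end

end Pool.Agent.GEN
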