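import Pool.Agent.Helper30_Simp2.Stmts
import Pool.Agent.Helper40_Simp2.Zg

/-!
# Squad GEN (polynomials with algebraically independent coefficients): definitions, zeta side
-/

set_option autoImplicit false

namespace Pool.Agent.GEN

open PowerSeries Finset Pool.Agent.Helper6_Mono Pool.Agent.Helper30_Simp
  Pool.Agent.Helper30_Simp2

section comb

variable {σ : Type}

/-- every exponent vector has at most one entry equal to `1` -/
def S1 (M : Finset (σ →₀ ℕ)) : Prop := ∀ α ∈ M, ∀ i j, α i = 1 → α j = 1 → i = j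

/-- `K` is stable on `I`: every monomial of `I` meets `K` at most once, with exponent `1`, and
every variable of `K` occurs in `I` -/
def Stab (I : Finset (σ →₀ ℕ)) (K : Finset σ) : Prop :=
  K.Nonempty ∧ (∀ α ∈ I, ∑ j ∈ K, α j ≤ 1) ∧ ∀ j ∈ K, ∃ α ∈ I, α j = 1

/-- the space of the exponents of the quotients of two monomials of `I` which contain the same
variable `j` of `K` -/
def VK (I : Finset (σ →₀ ℕ)) (K : Finset σ) : Submodule ℚ (σ → ℚ) :=
  Submodule.span ℚ {v | ∃ j ∈ K, ∃ α ∈ I, ∃ β ∈ I, α j = 1 ∧ β j = 1 ∧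
    v = fun i => (α i : ℚ) - (β i : ℚ)}

/-- `K` is stable and weak on `I` -/
def KS (I : Finset (σ →₀ ℕ)) (K : Finset σ) : Prop :=
  Stab I K ∧ Module.finrank ℚ (VK I K) < K.card

open scoped Classical in
/-- the monomials of `I` which contain no variable of `K` outside `K'` -/
noncomputable def keep (I : Finset (σ →₀ ℕ)) (K K' : Finset σ) : Finset (σ →₀ ℕ) :=
  I.filter fun α => ∀ j ∈ K, j ∉ K' → α j = 0

end comb

section geo

variable {σ : Type} [Fintype σ]

open scoped Classical in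
/-- the monomials on which `u` is minimal, as a finite set -/
noncomputable def fce (M : Finset (σ →₀ ℕ)) (u : σ → ℕ) : Finset (σ →₀ ℕ) :=
  M.filter fun α => α ∈ face M u

/-- `(u, N)` is a nonzero point of some flat closed cone for the slope `x` -/
def FlatPt (M : Finset (σ →₀ ℕ)) (x : ℚ) (u : σ → ℕ) (N : ℕ) : Prop :=
  u ≠ 0 ∧ ∃ S : Finset (Wa M), Flat M x S ∧ InK M S u N

/-- all flat cells for the slope `x` have a weak stable set of variables of positive weight -/
def KAll (M : Finset (σ →₀ ℕ)) (x : ℚ) : Prop :=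
  ∀ (u : σ → ℕ) (N : ℕ), FlatPt M x u N → ∃ K : Finset σ, (∀ j ∈ K, u j ≠ 0) ∧ KS (fce M u) K

/-- separated weak stable sets at finitely many points `w` which meet all the cones inside the
flat cone of `R`: the weights `θ` vanish on the stable sets and separate the points -/
def KRay (M : Finset (σ →₀ ℕ)) (x : ℚ) : Prop :=
  ∀ R : Finset (Wa M), Flat M x R →
    ∃ (W : Finset ((σ → ℕ) × ℕ)) (K : (σ → ℕ) × ℕ → Finset σ) (θ : σ → ℕ),
      (∀ w ∈ W, w.2 ≠ 0 ∧ InK M R w.1 w.2 ∧ (∀ j ∈ K w, w.1 j ≠ 0 ∧ θ j = 0) ∧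
        (∀ α : M, (α : σ →₀ ℕ) ∈ fce M w.1 ↔ slk M w.1 w.2 (Sum.inr α) = 0) ∧
        KS (fce M w.1) (K w)) ∧
      (∀ R' : Finset (Wa M), R ⊆ R' → (∃ u N, InK M R' u N ∧ (u ≠ 0 ∨ N ≠ 0)) →
        ∃ w ∈ W, InK M R' w.1 w.2) ∧
      ∀ w ∈ W, ∀ w' ∈ W, w ≠ w' →
        (∑ i, θ i * w.1 i) * w'.2 ≠ (∑ i, θ i * w'.1 i) * w.2

/-- the relations of the weak stable sets -/
def KRel {A : Type} [CommRing A] (M : Finset (σ →₀ ℕ)) (X : A)
    (z : Finset (σ →₀ ℕ) → Finset σ → A) (c : Finset σ → A) : Prop :=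
  ∀ (I : Finset (σ →₀ ℕ)) (J K : Finset σ), I ⊆ M → Disjoint K J → KS I K →
    ∑ K' ∈ K.powerset, (1 - X) ^ K'.card * X ^ (K.card - K'.card) * z (keep I K K') J = c J

/-- the operator of the function `z` on the cells -/
noncomputable def PZ {A : Type} [CommRing A] (M : Finset (σ →₀ ℕ))
    (z : Finset (σ →₀ ℕ) → Finset σ → A) : MvPolynomial (Wa M) A :=
  ∑ I ∈ M.powerset, ∑ J ∈ (univ : Finset σ).powerset, MvPolynomial.C (z I J) * cellP M A I J

end geo

section weights

/-- power series in `X` with coefficients polynomials in `Y` -/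
abbrev KY : Type := PowerSeries (Polynomial ℤ)

/-- the weight `X ^ a Y ^ b` -/
noncomputable def XY (a b : ℕ) : KY := PowerSeries.X ^ a * PowerSeries.C (Polynomial.X ^ b)

/-- the specialisation `Y = 1` -/
noncomputable def ev1 : KY →+* PowerSeries ℤ := PowerSeries.map (Polynomial.evalRingHom (1 : ℤ))

/-- constants in `Y` -/
noncomputable def inY : PowerSeries ℤ →+* KY := PowerSeries.map Polynomial.C

end weights

end Pool.Agent.GEN
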