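import Pool.Agent.GEN.StmtsZ
import Pool.Agent.GEN.DefsI

/-!
# Squad GEN, block PT: the patching theorem, all supports

PLAN. `R` is a flat set of walls, `F` the set of the tight sets `T` of the nonzero points of its cone,
`W T` the set of the stable sets `Q` of variables at `T` which contain a weak stable set. Modulo the
ideal of the `1 - X_ρ`, `ρ ∉ T`, the operator `P = PZ M z` lies in the ideal of the `f_j = Ev e_j - X`,
`j ∈ Q`, for every `Q ∈ W T` (row PFT), and these `f_j` are regular (RGA, RGB). If every `W T` is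
contractible by monotone maps (WCB: an isolated weak stable set) then `P` times `Xs R` lies in the
ideal (PAU): sections 1 to 4.

Section 1: alternating sums over lists. Section 2: cochains on sorted lists with values in
polynomials, exactness. Section 3: Koszul complexes. Section 4: the patching theorem. Section 5: the
application, which ends with `ZaiStmt` of `DefsI.lean`.
-/

set_option autoImplicit false

namespace Pool.Agent.GEN.PT

open Finset Pool.Agent.Helper6_Mono Pool.Agent.Helper30_Simp Pool.Agent.Helper30_Simp2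
  Pool.Agent.GEN
open scoped Classical

/-! ## 1. Lists -/

section lists

variable {E V : Type} [AddCommGroup V]

/-- the alternating sum of the values of `x` at the lists obtained from `l` by removing one entry -/
def dl (x : List E → V) (l : List E) : V :=
  ∑ i ∈ range l.length, (-1 : ℤ) ^ i • x (l.eraseIdx i)

/-- the prism operator of two maps -/
def hm (g h : E → E) (x : List E → V) (l : List E) : V :=
  ∑ i ∈ range l.length, (-1 : ℤ) ^ i • x ((l.take (i + 1)).map g ++ (l.drop i).map h)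

/-- the contraction given by maps `id ≤ g₁ ≥ g₂ ≤ g₃ ≥ κ` -/
def ctr (g₁ g₂ g₃ : E → E) (κ : E) (x : List E → V) (l : List E) : V :=
  x (κ :: l.map fun _ => κ) + hm (fun _ => κ) g₃ x l - hm g₂ g₃ x l + hm g₂ g₁ x l - hm id g₁ x l

end lists

/-- **Row DLX** (easy). PROOF. (a) `Finset.sum_range_succ'`, `List.eraseIdx_cons_zero`,
`List.eraseIdx_cons_succ`, `pow_succ`. (b) induction on `l` for all `x`, with (a):
`dl (dl x) (a :: l) = dl x l - dl (fun l' => dl x (a :: l')) l`, and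
`dl x (a :: l') = x l' - dl (x (a :: ·)) l'`, so (`dl` is additive in `x`) this is
`dl x l - dl x l + dl (dl (x (a :: ·))) l = 0`. (c) `List.length_map`, `List.eraseIdx_map`.
(d) `map_sum`, `map_zsmul`. -/
def DlxStmt : Prop :=
  ∀ (E V : Type) [AddCommGroup V],
    (∀ x : List E → V, dl x [] = 0) ∧
    (∀ (x : List E → V) a l, dl x (a :: l) = x l - dl (fun l' => x (a :: l')) l) ∧
    (∀ (x : List E → V) l, dl (dl x) l = 0) ∧
    (∀ (g : E → E) (x : List E → V) l, dl (fun l' => x (l'.map g)) l = dl x (l.map g)) ∧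
    ∀ (V' : Type) [AddCommGroup V'] (φ : V →+ V') (x : List E → V) l,
      φ (dl x l) = dl (fun l' => φ (x l')) l

/-- **Row HMX** (prism identity; easy, uses DLX). PROOF. (a) `Finset.sum_range_succ'`. (b) induction on
`l` for all `x`. Write `y = x (g a :: ·)`. By (a), DLX (a), (c) and additivity
`hm g h (dl x) (a :: l) = dl x (g a :: h a :: l.map h) - hm g h (fun l' => dl x (g a :: l')) l`
`= x (h a :: l.map h) - x (g a :: l.map h) + dl (x (g a :: h a :: ·)) (l.map h) - hm g h x l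
+ hm g h (dl y) l`, and `dl (hm g h x) (a :: l) = hm g h x l - dl (fun l' => hm g h x (a :: l')) l
= hm g h x l - dl (x (g a :: h a :: ·)) (l.map h) + dl (hm g h y) l`. The sum is
`x (h a :: l.map h) - x (g a :: l.map h) + (y (l.map h) - y (l.map g))`. (c) `map_sum`. -/
def HmxStmt : Prop :=
  ∀ (E V : Type) [AddCommGroup V] (g h : E → E),
    (∀ x : List E → V, hm g h x [] = 0) ∧
    (∀ (x : List E → V) a l, hm g h x (a :: l) =
      x (g a :: h a :: l.map h) - hm g h (fun l' => x (g a :: l')) l) ∧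
    (∀ (x : List E → V) l,
      dl (hm g h x) l + hm g h (dl x) l = x (l.map h) - x (l.map g)) ∧
    ∀ (V' : Type) [AddCommGroup V'] (φ : V →+ V') (x : List E → V) l,
      φ (hm g h x l) = hm g h (fun l' => φ (x l')) l

/-- **Row CTR** (contraction; easy/medium, uses DLX, HMX). PROOF. (a) For `N x l = x (κ :: l.map κ)`
(constant map): `dl (N x) l + N (dl x) l = x (l.map κ)` by DLX (a), (c). Add the prism identities of
HMX with signs; `l.map id = l`. (b) clear. (c) `ctr x l` is a combination of the values of `x` at the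
list `κ :: l.map κ` and at the lists `(l.take (i+1)).map g ++ (l.drop i).map h`, `i < l.length`, of
length `n + 1`. Their entries satisfy `P`. They are sorted (`List.pairwise_append`,
`List.pairwise_map`): two entries of the first part, or of the second part: monotonicity; `g b` and
`h c` with `b ∈ l.take (i+1)`, `c ∈ l.drop i`: `b = l[j]`, `c = l[j']`, `j ≤ i ≤ j'`, so `le b c` (or
`b = c`, reflexivity), `le (g b) (g c)`, `le (g c) (h c)`. For `n = 0` only `[κ]`. -/
def CtrStmt : Prop :=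
  ∀ (E : Type) (g₁ g₂ g₃ : E → E) (κ : E),
    (∀ (V : Type) [AddCommGroup V] (x : List E → V) l,
      dl (ctr g₁ g₂ g₃ κ x) l + ctr g₁ g₂ g₃ κ (dl x) l = x l) ∧
    (∀ (V V' : Type) [AddCommGroup V] [AddCommGroup V'] (φ : V →+ V') (x : List E → V) l,
      φ (ctr g₁ g₂ g₃ κ x l) = ctr g₁ g₂ g₃ κ (fun l' => φ (x l')) l) ∧
    ∀ (le : E → E → Prop) (P : E → Prop), (∀ a, P a → le a a) →
      (∀ a b c, P a → P b → P c → le a b → le b c → le a c) → P κ →
      (∀ a, P a → P (g₁ a) ∧ P (g₂ a) ∧ P (g₃ a) ∧ le a (g₁ a) ∧ le (g₂ a) (g₁ a) ∧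
        le (g₂ a) (g₃ a) ∧ le κ (g₃ a)) →
      (∀ a b, P a → P b → le a b → le (g₁ a) (g₁ b) ∧ le (g₂ a) (g₂ b) ∧ le (g₃ a) (g₃ b)) →
      ∀ (V : Type) [AddCommGroup V] (x : List E → V) (n : ℕ),
        (∀ l, l.length = n + 1 → l.Pairwise le → (∀ e ∈ l, P e) → x l = 0) →
        ∀ l, l.length = n → l.Pairwise le → (∀ e ∈ l, P e) → ctr g₁ g₂ g₃ κ x l = 0

/-! ## 2. Cochains with values in polynomials -/

section poly

variable {Λ D A : Type} [CommRing A]

/-- kill the variables outside `T` -/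
noncomputable def res (T : Finset Λ) : MvPolynomial Λ A →ₐ[A] MvPolynomial Λ A :=
  MvPolynomial.aeval fun ρ => if ρ ∈ T then MvPolynomial.X ρ else 0

variable [Fintype Λ]

/-- the intersection of the members of `F` which contain the support of `m` -/
noncomputable def clF (F : Finset (Finset Λ)) (m : Λ →₀ ℕ) : Finset Λ :=
  univ.filter fun ρ => ∀ T ∈ F, m.support ⊆ T → ρ ∈ T

/-- the part of `p` which consists of the monomials `m` with `clF F m = T` -/
noncomputable def prj (F : Finset (Finset Λ)) (T : Finset Λ) (p : MvPolynomial Λ A) :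
    MvPolynomial Λ A :=
  ∑ m ∈ p.support.filter fun m => clF F m = T, MvPolynomial.monomial m (p.coeff m)

/-- the order on the pairs `(T, Q)` -/
def le2 (e e' : Finset Λ × Finset D) : Prop := e'.1 ⊆ e.1 ∧ e.2 ⊆ e'.2

/-- sorted lists of pairs `(T, Q)`, `T ∈ F`, `Q ∈ W T` -/
def Gd (F : Finset (Finset Λ)) (W : Finset Λ → Finset (Finset D))
    (l : List (Finset Λ × Finset D)) : Prop :=
  l.Pairwise le2 ∧ ∀ e ∈ l, e.1 ∈ F ∧ e.2 ∈ W e.1

/-- the first component of the last entry of the list (`univ` for the empty list) -/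
noncomputable def lastT (l : List (Finset Λ × Finset D)) : Finset Λ :=
  (l.getLast?.map Prod.fst).getD univ

/-- the second component of the last entry of the list (`∅` for the empty list) -/
noncomputable def lastQ (l : List (Finset Λ × Finset D)) : Finset D :=
  (l.getLast?.map Prod.snd).getD ∅

/-- `F` is closed under intersections, `W` is monotone, every `W T` is contracted by monotone maps -/
structure Ctn (F : Finset (Finset Λ)) (W : Finset Λ → Finset (Finset D)) : Prop where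
  inter : ∀ T ∈ F, ∀ T' ∈ F, T ∩ T' ∈ F
  mono : ∀ T ∈ F, ∀ T' ∈ F, T' ⊆ T → W T ⊆ W T'
  con : ∀ T ∈ F, ∃ (a b : Finset D → Finset D) (κ : Finset D), κ ∈ W T ∧
    (∀ Q ∈ W T, a Q ∈ W T ∧ b Q ∈ W T ∧ a Q ⊆ Q ∧ a Q ⊆ b Q ∧ κ ⊆ b Q) ∧
    ∀ Q ∈ W T, ∀ Q' ∈ W T, Q ⊆ Q' → a Q ⊆ a Q' ∧ b Q ⊆ b Q'

end poly

/-- **Row PIP** (projections; easy). PROOF. (b) by linearity for `p = monomial m c`:
`res T (monomial m c) = c * ∏ (..)^(m ρ)`, which is `0` if some `ρ ∈ m.support` is not in `T`, and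
`monomial m c` otherwise. (a) from (b). (c) `MvPolynomial.coeff_sum`, `coeff_monomial`,
`mem_support_iff`. (d) `clF F m` is the intersection of the finite nonempty family of the
`T ∈ F` with `m.support ⊆ T`; `F` is closed under intersections (induction on the family). (e) if
`clF F m ∈ F` and no `T ∈ F` contained `m.support` then `clF F m = univ ∈ F` would contain it. So
some `T` does, and (d). (f) from (b): `m.support` is contained in no `T ∈ F`; the converse too. -/
def PipStmt : Prop :=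
  ∀ (Λ A : Type) [Fintype Λ] [CommRing A] (F : Finset (Finset Λ)),
    (∀ (T T' : Finset Λ) (p : MvPolynomial Λ A), res T (res T' p) = res (T ∩ T') p) ∧
    (∀ (T : Finset Λ) (p : MvPolynomial Λ A) m,
      (res T p).coeff m = if m.support ⊆ T then p.coeff m else 0) ∧
    (∀ (T : Finset Λ) (p : MvPolynomial Λ A) m,
      (prj F T p).coeff m = if clF F m = T then p.coeff m else 0) ∧
    ((∀ T ∈ F, ∀ T' ∈ F, T ∩ T' ∈ F) → ∀ m : Λ →₀ ℕ, ∀ T ∈ F, m.support ⊆ T →
      clF F m ∈ F ∧ clF F m ⊆ T ∧ m.support ⊆ clF F m) ∧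
    ((∀ T ∈ F, ∀ T' ∈ F, T ∩ T' ∈ F) → ∀ m : Λ →₀ ℕ, clF F m ∈ F → m.support ⊆ clF F m) ∧
    ∀ p : MvPolynomial Λ A, (∀ T ∈ F, res T p = 0) →
      ∀ m ∈ p.support, ∀ T ∈ F, ¬ m.support ⊆ T

/-- **Row ROW** (exactness of the rows; STRONG, uses DLX, CTR, PIP). `E = Finset Λ × Finset D`.
PROOF. For `T₀ ∈ F` take `a, b, κ` from `con` and put `S_(T₀) = ctr g₁ g₂ g₃ (T₀, κ)`,
`g₁ e = (T₀, e.2)`, `g₂ e = (T₀, a e.2)`, `g₃ e = (T₀, b e.2)`. With `le = le2` and
`P e = (T₀ ⊆ e.1 ∧ e.1 ∈ F ∧ e.2 ∈ W e.1)` the hypotheses of CTR (c) hold (`P (T₀, Q)` for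
`Q ∈ W T₀`; `e.2 ∈ W e.1 ⊆ W T₀` by `mono`). Put
`v l = ∑ T₀ ∈ F.filter (T₀ ⊆ lastT l), prj F T₀ (S_(T₀) w l)`. Its monomials `m` have
`clF F m = T₀ ⊆ lastT l`, so `m.support ⊆ lastT l` (PIP (e)) and `res (lastT l) (v l) = v l`.
Let `Gd l`, `l.length = n + 1`, `m` a monomial. If `m.support` is not contained in `T = lastT l`, then
the coefficient of `m` in `res T (dl v l)` and in `w l = res T (w l)` is `0`. Let `m.support ⊆ T`;
`T ∈ F` (`l` is not empty), so by PIP (d) `T₀ = clF F m ∈ F`, `T₀ ⊆ T`, `m.support ⊆ T₀`. For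
`i < n + 1` the list `l' = l.eraseIdx i` is good, `T ⊆ lastT l'` (the last entry of `l'` is the last one
of `l`, or the one before it, or `l' = []`), so `coeff m (v l') = coeff m (S_(T₀) w l')` (PIP (c)).
So `coeff m (dl v l) = coeff m (dl (S_(T₀) w) l) = coeff m (w l) - coeff m (S_(T₀) (dl w) l)` (CTR
(a), DLX (d)). By CTR (b) the last term is `S_(T₀) (fun l' => coeff m (dl w l')) l`, and this function
vanishes at the good lists `l'` of length `n + 2` with entries in `P`: `m.support ⊆ T₀ ⊆ lastT l'`, so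
`coeff m (dl w l') = coeff m (res (lastT l') (dl w l')) = 0`. By CTR (c) the last term is `0` (the
entries `e` of `l` satisfy `P`: `T₀ ⊆ T ⊆ e.1`, as `l` is sorted). -/
def RowStmt : Prop :=
  ∀ (Λ D A : Type) [Fintype Λ] [CommRing A] (F : Finset (Finset Λ))
    (W : Finset Λ → Finset (Finset D)), Ctn F W →
    ∀ (n : ℕ) (w : List (Finset Λ × Finset D) → MvPolynomial Λ A),
      (∀ l, l.length = n + 1 → Gd F W l → res (lastT l) (w l) = w l) →
      (∀ l, l.length = n + 2 → Gd F W l → res (lastT l) (dl w l) = 0) →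
      ∃ v : List (Finset Λ × Finset D) → MvPolynomial Λ A,
        (∀ l, l.length = n → Gd F W l → res (lastT l) (v l) = v l) ∧
        ∀ l, l.length = n + 1 → Gd F W l → res (lastT l) (dl v l) = w l

/-! ## 3. Koszul complexes -/

/-- the Koszul differential; `ν` numbers the elements of `D` -/
noncomputable def kd {D B : Type} [Fintype D] [CommRing B] (ν : D → ℕ) (f : D → B)
    (x : Finset D → B) (S : Finset D) : B :=
  ∑ j ∈ univ \ S, (-1) ^ (S.filter fun i => ν i < ν j).card * (f j * x (insert j S))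

/-- `x` is supported on the `p`-element subsets of `Q` -/
def Hg {D B : Type} [Zero B] (p : ℕ) (Q : Finset D) (x : Finset D → B) : Prop :=
  ∀ S, x S ≠ 0 → S.card = p ∧ S ⊆ Q

/-- **Row KD2** (the square of the Koszul differential is zero; easy/medium). PROOF. (a)
`kd (kd x) S` is the sum over the pairs `(j, i)`, `j ∉ S`, `i ∉ insert j S`, of
`± f j * f i * x (insert i (insert j S))` with the sign `(-1) ^ (N j + N' i)`, `N j` = number of
the elements of `S` before `j`, `N' i` = number of the elements of `insert j S` before `i`, which is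
`N i + 1` if `ν j < ν i`, and `N i` otherwise. Exchange of `i` and `j` changes the sign (exactly one of
`ν i < ν j`, `ν j < ν i` holds): `Finset.sum_involution` on the pairs `(j, i)`, `j ≠ i`, both not in
`S`. (b) `map_sum`. (c) `Finset.sum_add_distrib`, `Finset.mul_sum` etc. (d) a summand not
`0` has `x (insert j S) ≠ 0`, `j ∉ S`. -/
def Kd2Stmt : Prop :=
  ∀ (D B : Type) [Fintype D] [CommRing B] (ν : D → ℕ), Function.Injective ν →
    (∀ (f : D → B) x S, kd ν f (kd ν f x) S = 0) ∧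
    (∀ (B' : Type) [CommRing B'] (φ : B →+* B') (f : D → B) x S,
      φ (kd ν f x S) = kd ν (fun j => φ (f j)) (fun S' => φ (x S')) S) ∧
    (∀ (f : D → B) x y S, kd ν f (fun S' => x S' + y S') S = kd ν f x S + kd ν f y S) ∧
    ∀ (f : D → B) x p Q, Hg (p + 1) Q x → Hg p Q (kd ν f x)

/-- **Row KOS** (exactness of the Koszul complex of a regular sequence; STRONG, uses KD2). PROOF.
Induction on `|Q|`. `Q = ∅`: `x S ≠ 0` would give `S = ∅`, `|S| = p + 1`; so `x = 0`, `y = 0`.
Let `j₀ ∈ Q` have the largest `ν`, `Q' = Q.erase j₀`. For a function `x` supported on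
subsets of `Q` and `S ⊆ Q'` (other sets `S` not containing `j₀` and not inside `Q'` give `0`):
(1) `kd x S = kd a S + (-1) ^ |S| * f j₀ * b S`, (2) `kd x (insert j₀ S) = kd b S`, where
`a S = x S`, `b S = x (insert j₀ S)` for `S ⊆ Q'`, and `0` otherwise (`j₀` is not before any
`j ∈ Q'`, all elements of `S` are before `j₀`). Let `kd x = 0`, degree `p + 1`; then
`kd b = 0`, `b` has degree `p`. CLAIM: `b = kd c`, `c` of degree `p + 1` on subsets of `Q'`. If
`p ≥ 1` this is the induction hypothesis (the regularity hypothesis passes to `Q'`). If `p = 0`, (1)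
for `S = ∅` says `f j₀ * b ∅ = - ∑_(j ∈ Q') f j * a {j}` is in the ideal of the `f j`, `j ∈ Q'`; by
hypothesis so is `b ∅`, `b ∅ = ∑_(j ∈ Q') f j * c_j`, `c {j} = c_j`. Let `c' (insert j₀ S) = c S`
for `S ⊆ Q'`, `0` at the other sets, of degree `p + 2`. Then `kd c' (insert j₀ S) = b S`, so
`x' = x - kd c'` is supported on subsets of `Q'`, `kd x' = 0` (KD2), and the induction hypothesis gives
`x' = kd y'`. `y = y' + c'`. -/
def KosStmt : Prop :=
  ∀ (D B : Type) [Fintype D] [CommRing B] (ν : D → ℕ), Function.Injective ν →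
    ∀ (f : D → B) (Q : Finset D),
    (∀ Q' ⊆ Q, ∀ j ∈ Q, j ∉ Q' → ∀ g, f j * g ∈ Ideal.span (f '' (Q' : Set D)) →
      g ∈ Ideal.span (f '' (Q' : Set D))) →
    ∀ (p : ℕ) (x : Finset D → B), Hg (p + 1) Q x → (∀ S, kd ν f x S = 0) →
      ∃ y, Hg (p + 2) Q y ∧ ∀ S, kd ν f y S = x S

/-- the ideal of the `f j`, `j ∈ Q`, and of the variables outside `T` -/
noncomputable def JT {Λ D A : Type} [CommRing A] (f : D → MvPolynomial Λ A) (T : Finset Λ)
    (Q : Finset D) : Ideal (MvPolynomial Λ A) :=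
  Ideal.span (f '' (Q : Set D)) ⊔ RingHom.ker (res (A := A) T)

/-- the `f j`, `j ∈ Q`, are regular in every order modulo the variables outside `T` -/
def Rgl {Λ D A : Type} [CommRing A] (f : D → MvPolynomial Λ A) (T : Finset Λ) (Q : Finset D) :
    Prop :=
  ∀ Q' ⊆ Q, ∀ j ∈ Q, j ∉ Q' → ∀ g, f j * g ∈ JT f T Q' → g ∈ JT f T Q'

/-- **Row KOT** (uses PIP, KD2, KOS; medium). PROOF. (a) Let `B` be the quotient of `MvPolynomial Λ A`
by the kernel of `res T`, `π` the projection. `π g` is in the ideal of the `π (f j)`, `j ∈ Q'`, iff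
`g ∈ JT f T Q'`. Apply KOS to `π ∘ f` and `π ∘ x` (KD2 (b)) and get `ȳ`; lift `ȳ` to `y` (`0` where
`ȳ = 0`) and replace `y` by `res T ∘ y` (`res T` is idempotent, PIP (a), and
`y - res T y` is in the kernel). `π (kd y S) = π (x S)` means `res T (kd y S) = res T (x S)`. (b)
`P = ∑_(j ∈ Q) f j * c j + k`, `res T k = 0`: `y {j} = res T (c j)` for `j ∈ Q`, and `0` at the other
sets; `kd y ∅ = ∑ f j * y {j}`. -/
def KotStmt : Prop :=
  ∀ (Λ D A : Type) [Fintype Λ] [Fintype D] [CommRing A] (ν : D → ℕ), Function.Injective ν →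
    ∀ (f : D → MvPolynomial Λ A) (T : Finset Λ) (Q : Finset D),
    (Rgl f T Q → ∀ (p : ℕ) (x : Finset D → MvPolynomial Λ A), Hg (p + 1) Q x →
      (∀ S, res T (kd ν f x S) = 0) →
      ∃ y, Hg (p + 2) Q y ∧ (∀ S, res T (y S) = y S) ∧
        ∀ S, res T (kd ν f y S) = res T (x S)) ∧
    ∀ P ∈ JT f T Q, ∃ y : Finset D → MvPolynomial Λ A, Hg 1 Q y ∧ (∀ S, res T (y S) = y S) ∧
      res T (kd ν f y ∅) = res T P

/-! ## 4. The patching theorem -/

/-- **Row DBC** (double complex; STRONG, uses DLX, PIP, ROW, KD2, KOT). PROOF. Induction on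
`k`, `|D| < n + 1 + k`, for all `n`, `z`. `k = 0`: `|D| < n + 1`, so `y` in the first
hypothesis is `0` and `z l S = 0`: take `w = 0`. STEP. Choose `x l = y` from the first hypothesis for
the good lists of length `n + 1`, replaced by `res (lastT l) ∘ y` (`res T (kd (res T y)) =
res T (kd y)`). Put `x' l S = res (lastT l) (dl (fun l' => x l' S) l)`. For good `l` of length `n + 2`:
`Hg (n + 1) (lastQ l) (x' l)` (`lastQ (l.eraseIdx i) ⊆ lastQ l`), and
`res (lastT l) (kd (x' l) S) = res (lastT l) (dl (fun l' => z l' S) l) = 0` (`kd` is linear,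
`res (lastT l) (kd (x l') S) = res (lastT l) (res (lastT l') (kd (x l') S))` as
`lastT l ⊆ lastT l'` for `l' = l.eraseIdx i`, PIP (a)). So KOT (a) for `p = n` gives
`y'` with `Hg (n + 2) (lastQ l) y'`, `res (kd y') = x' l`. `x'` satisfies the second hypothesis for
`n + 1`: `res (lastT l) (dl (x' · S) l) = res (lastT l) (dl (dl (x · S)) l) = 0`. The induction hypothesis for
`n + 1`, `x'` gives `w'` (`|S| = n + 2`). For every `S` with `|S| = n + 2` ROW (for `n + 1`) gives
`v · S` on the lists of length `n + 1` with `res (dl v l) = w' l`; for the other `S` put `v · S = 0`.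
`w l S = x l S - res (lastT l) (kd (v l) S)`. Check: degree; reduced; `res (kd w) = z - res (kd (kd v)) = z` (KD2);
on good `l` of length `n + 2`: `res (dl w l) = x' l - res (kd (dl v l)) = x' l - res (kd (w' l)) = 0`. -/
def DbcStmt : Prop :=
  ∀ (Λ D A : Type) [Fintype Λ] [Fintype D] [CommRing A] (ν : D → ℕ), Function.Injective ν →
    ∀ (F : Finset (Finset Λ)) (W : Finset Λ → Finset (Finset D)) (f : D → MvPolynomial Λ A),
    Ctn F W → (∀ T ∈ F, ∀ Q ∈ W T, Rgl f T Q) →
    ∀ (n : ℕ) (z : List (Finset Λ × Finset D) → Finset D → MvPolynomial Λ A),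
      (∀ l, l.length = n + 1 → Gd F W l → ∃ y : Finset D → MvPolynomial Λ A,
        Hg (n + 1) (lastQ l) y ∧ ∀ S, res (lastT l) (kd ν f y S) = z l S) →
      (∀ l, l.length = n + 2 → Gd F W l → ∀ S, res (lastT l) (dl (fun l' => z l' S) l) = 0) →
      ∃ w : List (Finset Λ × Finset D) → Finset D → MvPolynomial Λ A,
        (∀ l, l.length = n + 1 → Gd F W l → (∀ S, w l S ≠ 0 → S.card = n + 1) ∧
          (∀ S, res (lastT l) (w l S) = w l S) ∧ ∀ S, res (lastT l) (kd ν f (w l) S) = z l S) ∧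
        ∀ l, l.length = n + 2 → Gd F W l → ∀ S, res (lastT l) (dl (fun l' => w l' S) l) = 0

/-- **Row PAT** (the patching theorem; medium, uses PIP, ROW, KOT, DBC). PROOF. `ν` = an injective
numbering of `D`. DBC for `n = 0`, `z l S = res (lastT l) P` if `S = ∅`, `0` otherwise. First
hypothesis: KOT (b) for `l = [(T, Q)]` (`kd y S = 0` for `S ≠ ∅`, degrees). Second: `l = [e, e']`,
`dl z l = z [e'] - z [e]`, `res (e'.1) (res (e.1) P) = res (e'.1) P` since `e'.1 ⊆ e.1`. So there is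
`w`. For every `j` ROW for `n = 0` and `w · {j}` gives `v j = v [] ∈ MvPolynomial` with
`res (e.1) (v j) = w [e] {j}` for all good `e` (`dl v [e] = v []`). `c j = v j`: for `T ∈ F` let
`e = (T, κ)`; `res T P = res T (kd (w [e]) ∅) = res T (∑_j f j * w [e] {j}) = res T (∑_j f j * c j)`. -/
def PatStmt : Prop :=
  ∀ (Λ D A : Type) [Fintype Λ] [Fintype D] [CommRing A] (F : Finset (Finset Λ))
    (W : Finset Λ → Finset (Finset D)) (f : D → MvPolynomial Λ A) (P : MvPolynomial Λ A),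
    Ctn F W → (∀ T ∈ F, ∀ Q ∈ W T, Rgl f T Q) → (∀ T ∈ F, ∀ Q ∈ W T, P ∈ JT f T Q) →
    ∃ c : D → MvPolynomial Λ A, ∀ T ∈ F, res T (P - ∑ j, f j * c j) = 0

/-- the ideal of the `f j`, `j ∈ Q`, and of the `1 - X_ρ`, `ρ ∉ T` -/
noncomputable def JX {Λ D A : Type} [CommRing A] (f : D → MvPolynomial Λ A) (T : Finset Λ)
    (Q : Finset D) : Ideal (MvPolynomial Λ A) :=
  Ideal.span (f '' (Q : Set D)) ⊔ Ideal.span {q | ∃ ρ, ρ ∉ T ∧ q = 1 - MvPolynomial.X ρ}

/-- **Row PAU** (the patching theorem in the original variables; medium, uses PIP, PAT). PROOF. Let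
`φ` be the automorphism `X_ρ ↦ 1 - X_ρ` of `MvPolynomial Λ A` (`φ ∘ φ = id`,
`MvPolynomial.aeval`). The kernel of `res T` is the ideal of the `X_ρ`, `ρ ∉ T` (a polynomial
with `res T p = 0` has no monomial supported in `T`, PIP (b)), so `φ` exchanges `JX f T Q` and
`JT (φ ∘ f) T Q`. PAT for `φ ∘ f`, `φ P` gives `c`. Let `q = φ P - ∑ φ (f j) * c j`. By PIP (f) no monomial of
`q` is supported in some `T ∈ F`. `P = ∑ f j * φ (c j) + φ q`, and `φ q` is a combination of the
products `∏ (1 - X_ρ) ^ (m ρ)`, `m ∈ q.support`, which are multiples of `∏_(ρ ∈ m.support) (1 - X_ρ)`. -/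
def PauStmt : Prop :=
  ∀ (Λ D A : Type) [Fintype Λ] [Fintype D] [CommRing A] (F : Finset (Finset Λ))
    (W : Finset Λ → Finset (Finset D)) (f : D → MvPolynomial Λ A) (P : MvPolynomial Λ A),
    Ctn F W →
    (∀ T ∈ F, ∀ Q ∈ W T, ∀ Q' ⊆ Q, ∀ j ∈ Q, j ∉ Q' → ∀ g, f j * g ∈ JX f T Q' →
      g ∈ JX f T Q') →
    (∀ T ∈ F, ∀ Q ∈ W T, P ∈ JX f T Q) →
    ∀ (a : Ideal (MvPolynomial Λ A)) (p₀ : MvPolynomial Λ A), (∀ j, f j * p₀ ∈ a) →
      (∀ S : Finset Λ, (∀ T ∈ F, ¬ S ⊆ T) → (∏ ρ ∈ S, (1 - MvPolynomial.X ρ)) * p₀ ∈ a) →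
      P * p₀ ∈ a

/-! ## 5. The application -/

/-- **Row RGA** (regularity of a monomial minus a constant; medium/STRONG). The polynomials of `G` do
not contain the variables of `s`. PROOF. `MvPolynomial Λ A` is the polynomial ring in the variables
of `s` over `B = MvPolynomial sᶜ A`; the ideal of `G` is generated by an ideal `𝔟` of `B`, the
quotient is `C[X_ρ, ρ ∈ s]`, `C = B / 𝔟` (`MvPolynomial.quotientEquivQuotientMvPolynomial`; or:
an element is in the ideal iff all its coefficients, as a polynomial in the `X_ρ`, `ρ ∈ s`, are in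
`𝔟`). In `C[X_ρ, ρ ∈ s]` let `(y - X) g = 0`, `y = ∏_(ρ ∈ s) X_ρ`, `X ∈ C` a constant; if `g ≠ 0` let
`g_d` be its homogeneous component of the largest degree `d`. The component of degree `d + |s|`,
`|s| ≥ 1`, of `(y - X) g` is `y g_d ≠ 0` (multiplication by a monomial is injective): a
contradiction. (Or by coefficients: `coeff (m + 1_s) ((y - X) g) = coeff m g - X coeff (m + 1_s) g`, so
`coeff m g = X coeff (m + 1_s) g = X² coeff (m + 2·1_s) g = … = 0`.) The second argument works directly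
in `MvPolynomial Λ A` modulo the ideal: no isomorphism is needed if one writes `g = ∑ X^m g_m`,
`m` supported in `s`, `g_m` without the variables of `s`. -/
def RgaStmt : Prop :=
  ∀ (Λ A : Type) [Fintype Λ] [CommRing A] (s : Finset Λ) (X : A) (G : Set (MvPolynomial Λ A)),
    s.Nonempty → (∀ p ∈ G, ∀ m ∈ p.support, ∀ ρ ∈ s, m ρ = 0) →
    ∀ g, ((∏ ρ ∈ s, MvPolynomial.X ρ) - MvPolynomial.C X) * g ∈ Ideal.span G →
      g ∈ Ideal.span G

/-- **Row RGB** (regularity of the `f j`; easy, uses RGA). `blk j` = pairwise disjoint nonempty blocks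
inside `T`. PROOF. Modulo the ideal of the `1 - X_ρ`, `ρ ∉ T`, `f i` may be replaced by
`y_i - X`, `y_i = ∏_(ρ ∈ blk i) X_ρ`. So `JX f T Q'` is generated by the `y_i - X`, `i ∈ Q'`, and the
`1 - X_ρ`, `ρ ∉ T`, which do not contain the variables of `s = blk j`; apply RGA. -/
def RgbStmt : Prop :=
  ∀ (Λ D A : Type) [Fintype Λ] [CommRing A] (T : Finset Λ) (Q : Finset D)
    (f : D → MvPolynomial Λ A) (blk : D → Finset Λ) (X : A),
    (∀ j ∈ Q, (blk j).Nonempty ∧ blk j ⊆ T) →
    (∀ i ∈ Q, ∀ j ∈ Q, i ≠ j → Disjoint (blk i) (blk j)) →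
    (∀ j ∈ Q, f j - ((∏ ρ ∈ blk j, MvPolynomial.X ρ) - MvPolynomial.C X) ∈
      Ideal.span {q | ∃ ρ, ρ ∉ T ∧ q = 1 - MvPolynomial.X ρ}) →
    ∀ Q' ⊆ Q, ∀ j ∈ Q, j ∉ Q' → ∀ g, f j * g ∈ JX f T Q' → g ∈ JX f T Q'

section app

variable {σ : Type} [Fintype σ]

/-- the monomials in `T` -/
noncomputable def monT (M : Finset (σ →₀ ℕ)) (T : Finset (Wa M)) : Finset (σ →₀ ℕ) :=
  M.filter fun α => ∃ h : α ∈ M, Sum.inr ⟨α, h⟩ ∈ T

/-- `Q` is stable on `I`, its variables satisfy `P`, and it contains a weak stable set -/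
def Wst (I : Finset (σ →₀ ℕ)) (P : σ → Prop) (Q : Finset σ) : Prop :=
  (∀ j ∈ Q, P j) ∧ Stab I Q ∧ ∃ K ⊆ Q, KS I K

/-- the stable sets at `T` which contain a weak stable set -/
noncomputable def wT (M : Finset (σ →₀ ℕ)) (T : Finset (Wa M)) : Finset (Finset σ) :=
  univ.filter fun Q => Wst (monT M T) (fun j => Sum.inl j ∉ T) Q

/-- the tight sets of the nonzero points of the cone of `R` -/
noncomputable def fR (M : Finset (σ →₀ ℕ)) (R : Finset (Wa M)) : Finset (Finset (Wa M)) :=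
  univ.filter fun T => ∃ u N, (u ≠ 0 ∨ N ≠ 0) ∧ InK M R u N ∧ ∀ ρ, ρ ∈ T ↔ slk M u N ρ = 0

end app

/-- **Row WCB** (contraction of the stable sets; medium). PROOF. `a Q` = the union of the circuits
(`CircP I P`) contained in `Q`, `b Q = a Q ∪ κ`. Monotonicity is clear. Let `Wst I P Q`. A
minimal `K ⊆ Q` with `KS I K` is a circuit, so `a Q` is not empty and contains a weak stable set.
`a Q ⊆ Q`, so the sums over `a Q` are `≤ 1`; every element occurs, since it lies in a circuit: `Wst (a Q)`.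
`b Q`: it contains `κ`; its elements occur. Sums: let `α ∈ I`. If `α i ≠ 0` for some `i ∈ κ`: for every
circuit `C ⊆ Q`, `∑_(κ ∪ C) α ≤ 1`, so `α i = 1` and `α j = 0` for all `j ∈ C`, `j ≠ i`, and for all
`j ∈ κ`, `j ≠ i` (`Stab I κ`); the sum over `b Q` is `1`. Otherwise the sum over `b Q` is at most
the sum over `a Q`, `≤ 1`. -/
def WcbStmt : Prop :=
  ∀ (σ : Type) [Fintype σ] (I : Finset (σ →₀ ℕ)) (P : σ → Prop) (κ : Finset σ),
    (∀ j ∈ κ, P j) → KS I κ → (∀ C, CircP I P C → Stab I (κ ∪ C)) →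
    ∃ a b : Finset σ → Finset σ,
      (∀ Q, Wst I P Q → Wst I P (a Q) ∧ Wst I P (b Q) ∧ a Q ⊆ Q ∧ a Q ⊆ b Q ∧ κ ⊆ b Q) ∧
      ∀ Q Q' : Finset σ, Q ⊆ Q' → a Q ⊆ a Q' ∧ b Q ⊆ b Q'

/-- **Row FCT** (geometry of the flat cone; medium, uses WCB). PROOF. `inter`: the sum of two points
of the cone (`H73.inK_add`, `H73.slk_add` in `Helper73_Simp2/Zalg.lean`) has the intersection of
the tight sets as tight set. `mono`: let `Q ∈ wT M T`, `T' ⊆ T`; `monT M T' ⊆ monT M T`; a variable
`j ∈ Q` has `inl j ∉ T'`; the sums are `≤ 1`; `j` occurs in `monT M T'`: let `(u, N)` be the point of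
`T'`, `u j ≠ 0`; if `α j = 0` for all `α ∈ monT M T'`, then `(u + e_j, N)` is in the cone of
`R ⊆ T'` (the monomial walls of `R` are in `monT M T'`, the coordinate walls of `R` are not `j`), so
`|u| + 1 = x N = |u|`: a contradiction to `Flat`. `α j ≤ 1` by the sums. So `Stab`, also for the
weak stable `K ⊆ Q`, and `VK` is smaller (`Submodule.finrank_mono`). `con`: let `(u, N)` be the point
of `T`. `u ≠ 0` since `M` is not empty (`u = 0` gives `N = 0`). It is a flat point (`S = R`).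
`fce M u = monT M T` by `H73.face_iff`. `KIso` and WCB with `P j = (u j ≠ 0) = (inl j ∉ T)`. (b) if
`S ⊆ T` for no `T ∈ fR M R`, the cone of `R ∪ S` is `0` (the tight set of a nonzero point of it would
be in `fR M R` and contain `S`). -/
def FctStmt : Prop :=
  ∀ (σ : Type) [Fintype σ] (M : Finset (σ →₀ ℕ)), M.Nonempty → ∀ (x : ℚ) (R : Finset (Wa M)),
    Flat M x R → KIso M x →
    Ctn (fR M R) (wT M) ∧
    ∀ S : Finset (Wa M), (∀ T ∈ fR M R, ¬ S ⊆ T) → ∀ u N, InK M (R ∪ S) u N → u = 0 ∧ N = 0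

/-- **Row EVB** (the `f j` at `T`; easy/medium). PROOF. Part (2) of the proof of row LCK
(`Helper92_GEN/LCK.lean`). `blk j` = the `inr α`, `α ∈ monT M T`, `α j = 1`. Modulo the
`1 - X_ρ`, `ρ ∉ T`: `Ev M A e_j = X_(inl j) * ∏_α X_(inr α) ^ (α j)`, `X_(inl j) = 1`,
`X_(inr α) = 1` for `α ∉ monT M T`, and `α j ≤ 1` for the others. Nonempty: `j` occurs;
disjoint: sums `≤ 1`. -/
def EvbStmt : Prop :=
  ∀ (σ : Type) [Fintype σ] (M : Finset (σ →₀ ℕ)) (A : Type) [CommRing A] (X : A)
    (T : Finset (Wa M)) (Q : Finset σ), (∀ j ∈ Q, Sum.inl j ∉ T) → Stab (monT M T) Q →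
    ∃ blk : σ → Finset (Wa M), (∀ j ∈ Q, (blk j).Nonempty ∧ blk j ⊆ T) ∧
      (∀ i ∈ Q, ∀ j ∈ Q, i ≠ j → Disjoint (blk i) (blk j)) ∧
      ∀ j ∈ Q, (Ev M A (fun i => if i = j then 1 else 0) - MvPolynomial.C X) -
          ((∏ ρ ∈ blk j, MvPolynomial.X ρ) - MvPolynomial.C X) ∈
        Ideal.span {q | ∃ ρ, ρ ∉ T ∧ q = 1 - MvPolynomial.X ρ}

/-- **Row PFT** (the product formula at `T`; medium, adaptation of row LCK, `Helper92_GEN/LCK.lean`;
uses PrdStmt of block Z). PROOF. (2), (3), (4) of the proof of LCK with the ideal `b`: there `b` was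
the ideal of the `p` with `q * p * Xs R ∈ a`, but only the two properties used here as hypotheses are
needed (`1 - X_ρ ∈ b` for `ρ` with slack `≠ 0`, i.e. `ρ ∉ T`; `Ev e_j - C X ∈ b`). -/
def PftStmt : Prop :=
  ∀ (σ : Type) [Fintype σ] (M : Finset (σ →₀ ℕ)) (A : Type) [CommRing A] (X : A),
    IsUnit (1 - X) → ∀ (T : Finset (Wa M)) (K : Finset σ) (b : Ideal (MvPolynomial (Wa M) A)),
    (∀ j ∈ K, Sum.inl j ∉ T) → KS (monT M T) K →
    (∀ ρ, ρ ∉ T → 1 - MvPolynomial.X ρ ∈ b) →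
    (∀ j ∈ K, Ev M A (fun i => if i = j then 1 else 0) - MvPolynomial.C X ∈ b) →
    ∀ z : Finset (σ →₀ ℕ) → Finset σ → A, KRel M X z (fun _ => 0) → PZ M z ∈ b

/-! **Row ZAI** (last row; medium, uses PAU, RGB, FCT, EVB, PFT; statement `ZaiStmt` of
`Pool/Agent/GEN/DefsI.lean`). PROOF. PAU with `Λ = Wa M`, `D = σ`, `A = ℤ⟦X⟧`, `F = fR M R`,
`W = wT M`, `f j = Ev M _ e_j - C X`, `P = PZ M z`, `a = H40.RI M P'`, `p₀ = Xs M _ R`. `Ctn`: FCT.
Regularity: EVB and RGB. `P ∈ JX f T Q`: PFT with `b = JX f T Q` for the weak stable `K ⊆ Q`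
(`1 - X` is a unit in `ℤ⟦X⟧`). `f j * p₀ ∈ a`: `H40.Ev_mem` for `u = e_j` (`∑ i, e_j i = 1`).
`(∏_(ρ ∈ S) (1 - X_ρ)) * Xs R` is a multiple of `Xs (R ∪ S)` (`H73.Xs_mul`), which is in `a` by
`H40.Xs_mem` and FCT (b). -/

end Pool.Agent.GEN.PT
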