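import Pool.Agent.GEN.DefsR

/-!
# Squad GEN, block R: roots of the Bernstein-Sato polynomial for polynomials with algebraically
independent coefficients

PLAN. `f = ∑ c_α x^α` with `c_α` algebraically independent over `ℚ`, `(κ, N)` a flat cell of the
Newton polyhedron, `B` an independent subset of its face which is not `UB₁` and still flat. We show
`b_f (- |κ| / N) = 0`.
(1) `GLB`, `DSA`, `DSB`: a functional equation with `b(s₀) ≠ 0`, `s₀ = - |κ| / N`, gives a relative
functional equation `RelBS (liftF ω f) none d be` with some `be_e(s₀) ≠ 0`, for all weights `ω`.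
(2) `GWA`, `GWB`: choose `ω = 0` on `B`, `ω > 0` generic outside `B`; for every large `K` the
lifted weight `κ' = (K κ, 1)`, `N' = K N` has the face `B`, is flat in the old variables, not `UB₁`
there, and `SimpA`, `SumA` hold on its whole slice.
(3) `RAT`, `STR`: a minimal cell `FDA` in the closure of the cell of `κ'`.
(4) `BDA`, `ERA`, `CHN`, `COR`: the functional of SIMP2 with one inactive variable.
-/

set_option autoImplicit false

namespace Pool.Agent.GEN

open MvPolynomial Finset Pool.Agent.Helper6_Mono Pool.Agent.Helper30_Simp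
  Pool.Agent.Helper30_Simp2

/-- **Row RAT** (integral points in real cells, keeping given natural coordinates).
PROOF. As `Helper40_Simp2/Ratpt.lean` (`ratpt`), with `exists_pos_map` of that file: a `ℚ`-linear
(additive) map `φ : ℝ → ℚ` with `φ(x) > 0` for the finitely many positive reals `1`, `w i ≠ 0`,
`dot w β - N ≠ 0`. Then `φ(n) = n φ(1)` for natural `n`, so `w i = n` gives `φ(w i) = n φ(1)`, and
`φ(dot w β) = dot (φ ∘ w) β`, `φ(N) = N φ(1)`. Multiply by a common denominator `m > 0` of all the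
numbers `φ(w i)` and `φ(1)`: `w' i = m φ(w i)`, `q = m φ(1)`. -/
def RatStmt : Prop :=
  ∀ (σ : Type) [Fintype σ] (M : Finset (σ →₀ ℕ)) (w : σ → ℝ) (N : ℕ), 0 < N → (∀ i, 0 ≤ w i) →
    (∀ β ∈ M, (N : ℝ) ≤ dot w β) → ∃ (q : ℕ) (w' : σ → ℕ), 0 < q ∧ (∀ i, w' i = 0 ↔ w i = 0) ∧
      (∀ (i : σ) (n : ℕ), w i = n → w' i = q * n) ∧
      ∀ β ∈ M, q * N ≤ dot w' β ∧ (dot w' β = q * N ↔ dot w β = N)

/-- **Row STR** (the structure of a minimal flat cell; uses RAT). STRONG, copy of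
`Helper40_Simp2/Str.lean` (842 lines) with active variables.
PROOF. Consider all triples `(q, w, N')` with `0 < q`, `N' = q N₀`, `w i = q κ₀ i` for `i ∉ a`,
`w i = 0` if `κ₀ i = 0`, `N' ≤ dot w β` on `M`, `dot w α = N'` on `face M κ₀`, and `¬ UB1A M a w`;
`(1, κ₀, N₀)` is one. Choose one, `(q, κ, N)`, with the largest number of tight walls
(`act M κ N` of `Str.lean`). It is flat: if `v` is supported on `{κ i ≠ 0} ∩ a` and orthogonal to
`face M κ ⊇ face M κ₀` then it is supported on `{κ₀ i ≠ 0} ∩ a` and orthogonal to `face M κ₀`, so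
`∑ v i = 0` by flatness of `κ₀`. Similarly `v = κ - q κ₀` is supported on the active variables with
`κ₀ i ≠ 0` and orthogonal to `face M κ₀`, hence `∑ κ i = q ∑ κ₀ i`. By maximality every
point `w` of the slice of `κ` (`w i = q' κ i` off `a`, `N' = q' N`, ...) with an additional tight
wall is `UB1A` (field `max` of the structure `Good`, now with `q'`); with RAT this gives
`Good.real`: at a real point `w` of the slice (`w i = κ i` off `a`) with an additional tight wall
there are `A ∈ face M κ` and `j` with `DirA M a κ A j`, `FreeDir M N w A j`, and `j` is the only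
such direction of `A` (the monomial `A` lies in `face M κ`: otherwise the unit vector `e_j`, `j`
active, contradicts flatness). The compactness of the slice, the main step `Good.main`, `Good.two`
and the final construction of `Ap`, `j1`, `j2` are then word for word as in `Str.lean`: all vectors
`v` used there are supported on `{κ i ≠ 0} ∩ a`, the vectors `e_(j') - e_j` are differences of active
directions, and the inactive coordinates of all points stay equal to `κ i`. -/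
def StrStmtA : Prop :=
  ∀ (σ : Type) [Fintype σ] (M : Finset (σ →₀ ℕ)) (a : Set σ) (κ₀ : σ → ℕ) (N₀ : ℕ), 0 < N₀ →
    (∀ α ∈ M, N₀ ≤ dot κ₀ α) → (∃ α ∈ M, dot κ₀ α = N₀) → FlatA M a κ₀ → ¬ UB1A M a κ₀ →
    ∃ (q : ℕ) (κ : σ → ℕ) (D : FDA M a κ), 0 < q ∧ D.N = q * N₀ ∧
      (∀ i, i ∉ a → κ i = q * κ₀ i) ∧ (∀ i, κ₀ i = 0 → κ i = 0) ∧
      (∀ α ∈ face M κ₀, α ∈ face M κ) ∧ ∑ i, κ i = q * ∑ i, κ₀ i

/-- **Row BDA** (rational section and generic multiplicities, active variables). Copy of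
`Helper66_Simp2/BData2.lean`. PROOF. Only the finite set `face M κ` and the set
`D = {κ j ≠ 0} ∩ a` of coordinates matter: work with the restrictions of the `α ∈ face M κ` to
`D`. By duality flatness says that `1_D` is a combination of them. `m` = generic point of the
affine space of the solutions, `lam` = a section of the map (coefficients) ↦ (combination). -/
def BDataStmtA : Prop :=
  ∀ (σ : Type) [Fintype σ] (M : Finset (σ →₀ ℕ)) (a : Set σ) (κ : σ → ℕ), FlatA M a κ →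
    ∃ (m : (σ →₀ ℕ) → ℂ) (lam : (σ →₀ ℕ) → σ → ℚ),
      (∀ α, α ∉ face M κ → m α = 0 ∧ ∀ j, lam α j = 0) ∧
      (∀ α j, (κ j = 0 ∨ j ∉ a) → lam α j = 0) ∧
      (∀ j, κ j ≠ 0 → j ∈ a → ∑ α ∈ M, m α * (α j : ℂ) = -1) ∧
      (∀ β ∈ face M κ, ∀ j, κ j ≠ 0 → j ∈ a →
        ∑ α ∈ M, (∑ i, lam α i * (β i : ℚ)) * (α j : ℚ) = (β j : ℚ)) ∧
      (∀ α ∈ face M κ, (∃ n : ℤ, m α = n) → (∑ j, lam α j * (α j : ℚ) = 1) ∧
        ∀ β ∈ face M κ, β ≠ α → ∑ j, lam α j * (β j : ℚ) = 0)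

/-- **Row ERA** (chains over an algebra, relative version). Copy of `Helper42_Simp/ERoot.lean`:
the equation is global (`h = 1`), the polynomial `b` is replaced by
`∑ C (be_e(s)) X_z^e` (in `Polynomial (MvPolynomial σ ℂ)`), and only `d i`, `i ≠ z`, occurs since
the words avoid `z`. PROOF. For `f = 0`, `psi 0 = act 0 (psi 1) = 0`. Else, for every word `w`
avoiding `z` of length `≤ K` there is `Q_w ∈ ℂ[x][s]` with `∂^w f^(n+K) = Q_w(n) f^n` and
`d^w (act f^K ...)` accordingly (`exists_pw`), so both sides of the functional equation, multiplied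
by a power of `f`, are polynomials in `n` with coefficients in `ℂ[x]` times `f^n`; equality for all
`n` is an equality in `ℂ[x][s]` (`eq_of_natP`), hence holds with `s` acting on the chain
(`local_mem`): `∑ be_e(s) act(z^e) psi 0 = ∑ a(s) d^w (act f psi 0) ∈ N`. -/
def ERootStmtA : Prop :=
  ∀ (σ : Type) [Finite σ] (E B : Type) [CommRing E] [Algebra ℂ E] [AddCommGroup B]
    [Module ℂ B] [Module E B] [IsScalarTower ℂ E B] (f : MvPolynomial σ ℂ) (s : E) (z : σ)
    (act : MvPolynomial σ ℂ →ₐ[ℂ] Module.End E B) (d : σ → Module.End E B)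
    (leibX : ∀ i, i ≠ z → ∀ j b, d i (act (X j) b)
      = act (pderiv i (X j)) b + act (X j) (d i b))
    (psi : ℕ → B) (mul_psi : ∀ n, act f (psi (n + 1)) = psi n)
    (d_psi : ∀ i, i ≠ z → ∀ n : ℕ, d i (psi n)
      = (s - (n : E)) • act (pderiv i f) (psi (n + 1)))
    (N : Submodule E B) (hact : ∀ i, ∀ b ∈ N, act (X i) b ∈ N)
    (hd : ∀ i, i ≠ z → ∀ b ∈ N, d i b ∈ N) (h0 : act f (psi 0) ∈ N)
    (dd : ℕ) (be : ℕ → Polynomial ℂ) (hb : RelBS f z dd be),
    ∑ e ∈ range (dd + 1), (Polynomial.aeval s (be e)) • act (X z ^ e) (psi 0) ∈ N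

/-- **Row CHN** (uses ERA). Copy of `chain_root` at the end of `Helper30_Simp/Core1.lean` (the
lemmas `psi_mul`, `psi_d`, `leibF` of that file are used as they are), with the relative equation:
`psi l = c_l • psiF f φ l`, `c_(l+1) (s - l) = c_l`. -/
def ChainStmtA : Prop :=
  ∀ (σ : Type) [Fintype σ] (E : Type) [CommRing E] [Algebra ℂ E] (f : MvPolynomial σ ℂ) (z : σ)
    (θ : (σ →₀ ℕ) → E) (φ : (σ →₀ ℕ) → ℤ → E),
    (∀ α ∈ f.support, ∀ t : ℤ, φ α (t + 1) = (θ α - (t : E)) * φ α t) →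
    (∀ l w, {t | t ∈ idx f l w ∧ cf f φ t ≠ 0}.Finite) →
    (∀ l : ℕ, IsUnit (∑ α ∈ f.support, θ α - (l : E))) →
    ∀ n : σ → E, (∀ j, n j = ∑ α ∈ f.support, θ α * ((α j : ℕ) : E)) →
    ∀ N : Submodule E ((σ → ℤ) → E), (∀ j, ∀ F ∈ N, actF σ E (X j) F ∈ N) →
    (∀ j, j ≠ z → ∀ F ∈ N, dF n j F ∈ N) → psiF f φ (-1) ∈ N →
    ∀ (d : ℕ) (be : ℕ → Polynomial ℂ), RelBS f z d be →
    ∑ e ∈ range (d + 1), (Polynomial.aeval (∑ α ∈ f.support, θ α) (be e)) •
      actF σ E (X z ^ e) (psiF f φ 0) ∈ N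

open scoped Classical in
/-- **Row TRN** (truncated inverse). `I` is an ideal with `I^k = 0`, `c : ℕ → E`, `c e₀` is a unit
and `c e ∈ I` for `e < e₀`. PROOF. In `E[X]` put `p = ∑_(e ≤ d) c e X^e = n + X^e₀ U` with
`n = ∑_(e < e₀) c e X^e` and `U = ∑_(e₀ ≤ e ≤ d) c e X^(e - e₀)`, `U(0) = c e₀`. All coefficients of
`n ^ k` lie in `I ^ k = 0`. `v = ∑_(i < k) (-n)^i (X^e₀ U)^(k-1-i)`, then
`p v = (X^e₀ U)^k - (-n)^k = X^(k e₀) U^k` (`Commute.mul_geom_sum₂` or induction). -/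
def TrnStmt : Prop :=
  ∀ (E : Type) [CommRing E] (I : Ideal E) (k : ℕ), I ^ k = ⊥ → ∀ (d : ℕ) (c : ℕ → E) (e₀ : ℕ),
    e₀ ≤ d → IsUnit (c e₀) → (∀ e < e₀, c e ∈ I) →
    ∃ v U : Polynomial E, IsUnit (U.coeff 0) ∧
      (∑ e ∈ range (d + 1), Polynomial.C (c e) * Polynomial.X ^ e) * v
        = Polynomial.X ^ (k * e₀) * U

/-- **Row COR** (uses ALG2 = `Alg2Stmt` (landed), BDA, CHN, TRN). Adaptation of
`Helper30_Simp2/CoreA.lean`, `CoreB.lean`, `CoreC.lean`; `a = {i | i ≠ z}`.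
PROOF. Everything is as there with the following changes. Walls: `Jf = {κ j ≠ 0, j ≠ z}` and the
monomials outside the face. Points: `uu` is `κ` at all `j ∉ Jf` (`lam = 0` there), so all points of
the polytope have `u z = κ z`; `Fc` gets the condition `u z = κ z`. `indepR` is `SimpA`. `bounded`:
the vector `v` is supported on `Jf`. `starW`: the point `uu 0 0 y` satisfies the hypotheses of
`star`. `lv_orth`, `sum_lv`, `nv_eq` only for `j ∈ Jf`. Sum of the multiplicities: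
`N ∑ m = - ∑_(i ≠ z) κ i` is `SumA`, so `s₀ := ∑ m` is the number of the statement, and it is not a
natural number because some `κ j`, `j ≠ z`, is not zero. NEW:
`N0 = {F | ∀ w, - N < κ z * w z → (∏_(j ∈ Aw w) X_j) F w = 0}`; it is closed under `X_j` (all `j`;
`w z` does not decrease) and `dF n j`, `j ≠ z` (`w z` does not change). `psi (-1) ∈ N0`: a nonzero
term has a point `u` with `∑ u j w j = - N + ∑ t (dot u α - N) ≤ - N` and
`∑_(j ≠ z) u j w j ≥ 0`, so `κ z w z ≤ - N`. `psi 0` vanishes at the points `w = e` at `z`, `0`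
elsewhere, for `e > 0`: a nonzero term has `κ z e = 0 + ∑ t (dot u α - N) ≤ 0`.
END. Let `be e (s₀) ≠ 0` for some `e ≤ d`, take the smallest, `e₀`. Let `I` be the ideal of `E`
generated by the variables `Xw`; `I ^ k = 0` for `k = card P + card A + 1` (third family of
generators of `nf2`), `k ≤ card (support) + 1` since `Pq` and `Aq` are disjoint subsets of the
support. `∑ θ = s₀ + ν`, `ν ∈ I`, so `c e = aeval (s₀ + ν) (be e)` is a unit for `e = e₀` and in
`I` for `e < e₀`. CHN and the closure under the powers of `X_z` give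
`∑_e (coefficients of p v) X_z^e psi 0 ∈ N0`, with TRN: `X_z^(k e₀) U(X_z) psi 0 ∈ N0`. Evaluate at
`w z = - k e₀`, `w = 0` elsewhere (allowed: `k e₀ κ z ≤ (card + 1) d κ z < N`): the terms
`U_i psi 0 (i at z)`, `i > 0`, vanish, so `U_0 psi 0 (0) = 0` (no `j ≠ z` has `w j < 0`), but
`psi 0 (0) ≠ 0`. Contradiction. -/
def CorStmt : Prop :=
  ∀ (σ : Type) [Fintype σ] [DecidableEq σ] (F : MvPolynomial σ ℂ) (z : σ) (κ : σ → ℕ)
    (D : FDA F.support {i | i ≠ z} κ), κ z ≠ 0 → (∃ j, j ≠ z ∧ κ j ≠ 0) →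
    SimpA F.support {i | i ≠ z} κ D.N → SumA F.support {i | i ≠ z} κ D.N →
    ∀ (d : ℕ) (be : ℕ → Polynomial ℂ), (F.support.card + 1) * d * κ z < D.N →
    RelBS F z d be →
    ∀ e ≤ d, (be e).eval (-((∑ i ∈ univ.erase z, (κ i : ℂ)) / (D.N : ℕ))) = 0

/-- **Row GLB** (local functional equations are global). PROOF. For fixed `b` the set of the
`h ∈ ℂ[x]` for which there is a list `P` with `C (b n) h f^n = ∑ a(n) ∂^w f^(n+1)` for all `n` is
an ideal (concatenate lists; multiply all `a` by the polynomial). By hypothesis it is not contained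
in any ideal of a point, so it contains `1` (`Ideal.exists_le_maximal`,
`MvPolynomial.isMaximal_iff_eq_vanishingIdeal_singleton`, see the end of
`Helper42_Simp/ERoot.lean`). -/
def GlbStmt : Prop :=
  ∀ (σ : Type) [Finite σ] (f : MvPolynomial σ ℂ) (b : Polynomial ℂ), LocalBS f b →
    ∃ P : List (Polynomial (MvPolynomial σ ℂ) × List σ), ∀ n : ℕ,
      C (b.eval (n : ℂ)) * f ^ n =
        (P.map fun aw => aw.1.eval (n : MvPolynomial σ ℂ) * dWord aw.2 (f ^ (n + 1))).sum

/-- **Row DSA** (descent to a domain). `A` is a domain containing `ℚ`, contained in `ℂ`.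
PROOF. Let `K ⊆ ℂ` be the fraction field of `A` (`Algebra.adjoin`/`IsFractionRing`, or
`FractionRing A` with its embedding in `ℂ`). `b(s₀) ≠ 0`, so there is a `K`-linear map
`π : ℂ → K` with `π (b(s₀)) ≠ 0` (`Module.exists_dual...` / extend a basis of `ℂ` over `K`). Apply
`π` to all coefficients (`Finsupp.mapRange` on `MvPolynomial σ ℂ` and on
`Polynomial (MvPolynomial σ ℂ)`); this map `π'` on `ℂ[x]` is linear over `K[x]`, commutes with
`p ↦ p.eval n` and, since `f ∈ K[x]` and hence all `∂^w f^(n+1) ∈ K[x]`, it maps the functional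
equation to one over `K` with `b' = π b`, `b'(s₀) = π (b(s₀)) ≠ 0` (`s₀ ∈ ℚ`). Multiply by a common
denominator of the finitely many coefficients (`IsLocalization.exist_integer_multiples`). -/
def DsaStmt : Prop :=
  ∀ (σ : Type) [Finite σ] (A : Type) [CommRing A] [IsDomain A] [Algebra ℚ A] [Algebra A ℂ]
    (hinj : Function.Injective (algebraMap A ℂ)) (fA : MvPolynomial σ A) (b : Polynomial ℂ)
    (P : List (Polynomial (MvPolynomial σ ℂ) × List σ)),
    (∀ n : ℕ, C (b.eval (n : ℂ)) * (map (algebraMap A ℂ) fA) ^ n =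
      (P.map fun aw => aw.1.eval (n : MvPolynomial σ ℂ) *
        dWord aw.2 ((map (algebraMap A ℂ) fA) ^ (n + 1))).sum) →
    ∀ s₀ : ℚ, b.eval (s₀ : ℂ) ≠ 0 →
    ∃ (bA : Polynomial A) (PA : List (Polynomial (MvPolynomial σ A) × List σ)),
      bA.eval (algebraMap ℚ A s₀) ≠ 0 ∧ ∀ n : ℕ, C (bA.eval (n : A)) * fA ^ n =
        (PA.map fun aw => aw.1.eval (n : MvPolynomial σ A) * dWordR aw.2 (fA ^ (n + 1))).sum

/-- **Row DSB** (uses DSA, GLB). PROOF. `A = MvPolynomial f.support ℚ` with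
`A → ℂ`, `X_α ↦ c_α` (injective by hypothesis; `Algebra A ℂ` as a local instance from
`(aeval c).toRingHom.toAlgebra`), `fA = ∑ monomial α (X_α)`. GLB and DSA give `bA`, `PA`. Let
`ψ : A → ℂ[z]` (`Polynomial ℂ`), `X_α ↦ c_α z^(ω α)`; it is injective because `z ↦ 1` gives
`A → ℂ`. The ring homomorphism `Ψ : MvPolynomial σ A → MvPolynomial (Option σ) ℂ`, `X_i ↦ X (some i)`,
coefficients by `ψ` and `z ↦ X none`, maps `fA` to `liftF ω f` and intertwines `pderiv i` with
`pderiv (some i)` (check on `C` and `X`: `MvPolynomial.induction_on`), so it maps the equation to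
`Ψ(C (bA n)) F^n = ∑ Ψ(a)(n) ∂^(some w) F^(n+1)`. Write the image of `bA` in `(ℂ[z])[s]` as
`∑_e z^e be_e(s)`, `d` = the largest exponent; `ψ (bA(s₀)) ≠ 0` has a nonzero coefficient, which is
`be_e(s₀)`. -/
def DsbStmt : Prop :=
  ∀ (σ : Type) [Finite σ] (f : MvPolynomial σ ℂ),
    AlgebraicIndependent ℚ (fun α : f.support => f.coeff (α : σ →₀ ℕ)) →
    ∀ b : Polynomial ℂ, LocalBS f b → ∀ s₀ : ℚ, b.eval (s₀ : ℂ) ≠ 0 →
    ∀ ω : (σ →₀ ℕ) → ℕ, ∃ (d : ℕ) (be : ℕ → Polynomial ℂ), RelBS (liftF ω f) none d be ∧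
      ∃ e ≤ d, (be e).eval (s₀ : ℂ) ≠ 0

/-- **Row GWA** (generic weights). `S` is a finite set of integral vectors, none of them supported
in `B`. PROOF. Induction or: enumerate `M \ B` injectively by `i : M \ B → ℕ` and put
`ω α = T ^ (i α + 1)` for a natural `T` larger than twice all `|ν α|` (plus 2): the sum
`∑ ω α ν α` is dominated by the term with the largest `i α` among the `ν α ≠ 0`. Or: a nonzero
polynomial in `T` has finitely many roots (`Polynomial`), choose `T` outside the roots of the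
product. -/
def GwaStmt : Prop :=
  ∀ (ι : Type) [Fintype ι] [DecidableEq ι] (B : Finset ι) (S : Finset (ι → ℤ)),
    (∀ ν ∈ S, ∃ α, α ∉ B ∧ ν α ≠ 0) →
    ∃ ω : ι → ℕ, (∀ α, ω α = 0 ↔ α ∈ B) ∧ ∀ ν ∈ S, ∑ α, (ω α : ℤ) * ν α ≠ 0

/-- **Row GWB** (uses GWA). `M` the support, `(κ, N)` a point of the Newton fan, `B` an independent
subset of the face of `κ`.
PROOF. For every `T ⊆ M` for which there is a nonzero `ν : M → ℤ` supported in `T` with
`∑ ν α = 0` and `∑ ν α α = 0` choose one; it is not supported in `B` since `B` is independent. GWA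
gives `ω : (σ →₀ ℕ) → ℕ` (zero outside `M`), zero on `M` exactly at `B`, with `∑ ω ν ≠ 0` for the
chosen `ν`. For every `T ⊆ M` and `D ⊆ σ` for which there is `ν : M → ℤ` supported in `T` with
`∑ ν α (α j) = 0` for `j ∈ D` and `∑ ν α ≠ 0` choose one, and let `K₀ N` be larger than all
`|∑ ω ν|`. Let `K ≥ K₀`, `κ' = wOpt (K κ) 1`, `N' = K N`, `M' = (liftF ω f).support` = image of `M`
under `lft ω`; `dot (wOpt u q) (lft ω α) = dot u α + q ω α`.
(a) `face M' κ' = lft ω '' B`, all conditions on `κ'` are clear; flat and not `UB1A` since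
`Dir M' κ' (lft ω A) (some j)` says `κ j ≠ 0`, `A j = 1`, `β j = 0` for the other `β ∈ B`.
(b) `q > 0`, `κ''` a natural weight with `κ'' none = q`, `N'' = q N'`. SimpA: let `u ≥ 0`,
`u none = q`, `dot u ≥ N''` on `M'`, `t : M' → ℤ` with `∑ t α' = 0` (all coordinates), supported on
the tight set `T`. `0 = ∑ t (dot u α') = N'' ∑ t`, so `∑ t = 0`; if `t ≠ 0` then `T` has a chosen
`ν`, and `0 = ∑ ν (dot u (lft α)) - N'' ∑ ν = q ∑ ν ω ≠ 0`, contradiction (`ν` is orthogonal to the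
old coordinates and has sum zero).
(c) SumA: let `face M κ'' ⊇ lft B`, `κ'' (some i) = 0` if `κ i = 0` and
`∑_i κ''(some i) = q K ∑ κ i`. Let `m` be as in SumA, `λ` rational on `B` with
`∑_B λ b = - 1` on `{κ ≠ 0}` (flatness of `B`, `∑_B λ = - |κ| / N` by pairing with `κ`). `m - λ`
is orthogonal to the coordinates `j ∈ D = {κ''(some j) ≠ 0}` and supported on the tight set `T` of
`κ''`; if some such vector (complex, hence also some integral one, because the conditions are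
linear with rational coefficients) had nonzero sum, the chosen `ν` for `(T, D)` would give
`0 = ∑ ν (dot κ'' (lft α) ) - q ∑ ν ω = N'' ∑ ν - q ∑ ν ω`, so
`K N ≤ |K N ∑ ν| = |∑ ν ω| < K₀ N`, contradiction. Hence `∑ m = ∑ λ = - |κ| / N` and
`N'' ∑ m = - q K |κ| = - ∑_i κ''(some i)`. -/
def GwbStmt : Prop :=
  ∀ (σ : Type) [Fintype σ] (f : MvPolynomial σ ℂ) (κ : σ → ℕ) (N : ℕ) (B : Finset (σ →₀ ℕ)),
    0 < N → (∀ α ∈ f.support, N ≤ dot κ α) → B ⊆ f.support → B.Nonempty →
    (∀ α ∈ B, dot κ α = N) →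
    (∀ t : B → ℤ, (∀ j, ∑ α, t α * (((α : σ →₀ ℕ) j : ℕ) : ℤ) = 0) → t = 0) →
    (∀ v : σ → ℚ, (∀ i, κ i = 0 → v i = 0) → (∀ α ∈ B, ∑ i, v i * (α i : ℚ) = 0) →
      ∑ i, v i = 0) →
    (∀ A ∈ B, ∀ j, κ j ≠ 0 → A j = 1 → (∀ β ∈ B, β ≠ A → β j = 0) →
      ∃ l, l ≠ j ∧ κ l ≠ 0 ∧ A l = 1 ∧ ∀ β ∈ B, β ≠ A → β l = 0) →
    ∃ ω : (σ →₀ ℕ) → ℕ, ∃ K₀ : ℕ, ∀ K ≥ K₀,
      (∀ α ∈ (liftF ω f).support, K * N ≤ dot (wOpt (fun i => K * κ i) 1) α) ∧
      (∃ α ∈ (liftF ω f).support, dot (wOpt (fun i => K * κ i) 1) α = K * N) ∧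
      FlatA (liftF ω f).support (actv σ) (wOpt (fun i => K * κ i) 1) ∧
      ¬ UB1A (liftF ω f).support (actv σ) (wOpt (fun i => K * κ i) 1) ∧
      (liftF ω f).support.card = f.support.card ∧
      ∀ (q : ℕ) (κ' : Option σ → ℕ), 0 < q → κ' none = q →
        (∀ i, κ i = 0 → κ' (some i) = 0) → ∑ i, κ' (some i) = q * (K * ∑ i, κ i) →
        (∀ α ∈ (liftF ω f).support, q * (K * N) ≤ dot κ' α) →
        (∀ α ∈ face (liftF ω f).support (wOpt (fun i => K * κ i) 1),
          α ∈ face (liftF ω f).support κ') →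
        (∀ α ∈ face (liftF ω f).support κ', dot κ' α = q * (K * N)) →
        SimpA (liftF ω f).support (actv σ) κ' (q * (K * N)) ∧
        SumA (liftF ω f).support (actv σ) κ' (q * (K * N))

/-- **Row ROO** (the root side; uses STR, COR, DSB, GWB). PROOF. Suppose `b_f(s₀) ≠ 0`,
`s₀ = - |κ| / N`. Some `b` with `LocalBS f b` has `b(s₀) ≠ 0` (`bfun` generates the ideal, see the
end of `Helper30_Simp2/CoreC.lean`). GWB gives `ω`, `K₀`; DSB gives `d`, `be`. Take `K ≥ K₀`,
`K ≥ 1` with `(card support + 1) d < K N`. STR for `M' = (liftF ω f).support`,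
`a = actv (Option σ)`, `κ₀ = wOpt (K κ) 1`, `N₀ = K N` gives `q`, `κ'`, `D`, with `κ' none = q`,
`∑_i κ' (some i) = q K |κ|` (the sum over all variables is `q (K |κ| + 1)`), and on
`face M' κ'` the value is `D.N = q K N` (field `ex`). GWB gives SimpA, SumA. COR for `z = none`
(`actv` is `{i | i ≠ none}`) gives `be_e (s₀) = 0` for all `e ≤ d`:
`∑_(i ≠ none) κ' i / D.N = |κ| / N`; the hypothesis `∃ j ≠ none, κ' j ≠ 0` holds because
`|κ| ≠ 0` (`N > 0`, `B` nonempty, so `dot κ α = N ≠ 0`). Contradiction. -/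
def RooStmt : Prop :=
  ∀ (σ : Type) [Fintype σ] (f : MvPolynomial σ ℂ) (κ : σ → ℕ) (N : ℕ) (B : Finset (σ →₀ ℕ)),
    AlgebraicIndependent ℚ (fun α : f.support => f.coeff (α : σ →₀ ℕ)) →
    0 < N → (∀ α ∈ f.support, N ≤ dot κ α) → B ⊆ f.support → B.Nonempty →
    (∀ α ∈ B, dot κ α = N) →
    (∀ t : B → ℤ, (∀ j, ∑ α, t α * (((α : σ →₀ ℕ) j : ℕ) : ℤ) = 0) → t = 0) →
    (∀ v : σ → ℚ, (∀ i, κ i = 0 → v i = 0) → (∀ α ∈ B, ∑ i, v i * (α i : ℚ) = 0) →
      ∑ i, v i = 0) →
    (∀ A ∈ B, ∀ j, κ j ≠ 0 → A j = 1 → (∀ β ∈ B, β ≠ A → β j = 0) →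
      ∃ l, l ≠ j ∧ κ l ≠ 0 ∧ A l = 1 ∧ ∀ β ∈ B, β ≠ A → β l = 0) →
    (bfun f).eval (-(((∑ i, κ i : ℕ) : ℂ) / (N : ℕ))) = 0

end Pool.Agent.GEN
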