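import Pool.Agent.GEN.StmtsZ
import Pool.Agent.Helper63_Simp2.Cls
import Pool.Agent.Helper63_Simp2.Zuni

/-!
# Squad GEN, block ZC: classes, universal solutions, end of the zeta side

PLAN. `f` has algebraically independent coefficients, `K` is stable and weak on `I`,
`part f I = f₀ + ∑_(j ∈ K) x_j g_j`. Since `K` is weak the `g_j` have no common zero in the torus
(`EMP`), so the space of the points `x` with `part f I (x) = e`, `x_j ∈ 𝔸¹` for `j ∈ K` and the
other coordinates in the torus, is a bundle of affine spaces of dimension `|K| - 1` over the torus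
(`AFK`). Its decomposition by the sets `{j ∈ K : x_j ≠ 0}` (`STK`) gives the relation `CLK`
between the classes of the hypersurfaces `part f (keep I K K') = e`, `K' ⊆ K`. One chosen
relation for every `I` defines universal polynomials (`REC`, `USO`); that the other relations
follow from the chosen ones is the statement `Conf` (`CNS` for `S1`), which gives `UNR`.
-/

set_option autoImplicit false
set_option linter.unusedVariables false
set_option linter.unusedSectionVars false

namespace Pool.Agent.GEN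

open PowerSeries Finset Pool.Agent.Helper6_Mono Pool.Agent.Helper30_Simp
  Pool.Agent.Helper30_Simp.H32 Pool.Agent.Helper30_Simp2 Pool.Agent.Helper30_Simp2.H63

/-! ## Algebraically independent coefficients -/

/-- **Row TRD** (transcendence degree). PROOF. `s` contains a transcendence basis `s'` of
`E = ℚ(s)` over `ℚ` (`exists_isTranscendenceBasis_subset` and relatives); the relative algebraic
closure `E'` of `E` in `F` is algebraic over `E`, so `s'` is a transcendence basis of `E'`; the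
`c i` are algebraically independent elements of `E'`, so their number is at most
`Algebra.trdeg ℚ E' = |s'| ≤ |κ|`. (Or use the matroid of algebraic independence.) -/
def TrdStmt : Prop :=
  ∀ (F : Type) [Field F] [CharZero F] (ι κ : Type) [Fintype ι] [Fintype κ] (c : ι → F)
    (s : κ → F), AlgebraicIndependent ℚ c →
    (∀ i, IsAlgebraic (IntermediateField.adjoin ℚ (Set.range s)) (c i)) →
    Fintype.card ι ≤ Fintype.card κ

section gj

variable {k : Type} [Field k] {σ : Type}

open scoped Classical in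
/-- the value of the cofactor `g_j` of the variable `j` in the monomials of `I` which contain `j`
with exponent `1` -/
noncomputable def gjv {S : Type} [CommRing S] [Algebra k S] (f : MvPolynomial σ k)
    (I : Finset (σ →₀ ℕ)) (j : σ) (x : σ → S) : S :=
  ∑ α ∈ I.filter (fun α => α j = 1), cof α (f.coeff α) j x

end gj

/-- **Row EMP** (uses TRD). The `g_j`, `j ∈ K`, have no common zero in the torus. (`cof A a j x`
is `a * ∏_(i ≠ j) x_i ^ A_i`, see `Helper63_Simp2/Cls.lean`.)
PROOF. Let `𝔪` be a maximal ideal of `S`; replace `S` by the field `F = S / 𝔪` (an extension of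
`k`; `gjv` commutes with algebra maps). For `α ∈ I` with `α j = 1`, `j ∈ K`, we have `α i = 0` for
`i ∈ K`, `i ≠ j` (stability), so `x^(α ∖ j) := ∏_(i ≠ j) x_i ^ α_i ∈ Fˣ`. For `j ∈ K` choose
`β_j ∈ I` with `β_j j = 1`, put `u(α) = x^(α ∖ j) / x^(β_j ∖ j) = ∏_(i ∉ K) x_i ^ (α i - β_j i)`.
The vectors `α - β_j` span `VK I K`, of dimension `r < |K|`; choose a basis `v_1, …, v_r` among
them, with values `u_1, …, u_r`. For every other `α` there are integers `m ≠ 0`, `n_d` with
`m (α - β_j) = ∑ n_d v_d`, so `u(α)^m = ∏ u_d^(n_d)`: `u(α)` is algebraic over `ℚ(u_1, …, u_r)`.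
Let `T` be the set of the `α ∈ I` with `α j = 1` for some `j ∈ K`. The equation `g_j(x) = 0`
divided by `x^(β_j ∖ j)` says `c_(β_j) = - ∑_(α ≠ β_j) c_α u(α)`. So all `c_α`, `α ∈ T`, are
algebraic over `ℚ(u_1, …, u_r, c_α (α ∈ T, α ≠ β_j))`, generated by `r + |T| - |K| < |T|`
elements; contradiction to TRD (the `c_α`, `α ∈ T`, are algebraically independent in `F`). -/
def EmpStmt : Prop :=
  ∀ (k : Type) [Field k] [CharZero k] (σ : Type) [Fintype σ] (f : MvPolynomial σ k),
    AlgebraicIndependent ℚ (fun α : f.support => f.coeff (α : σ →₀ ℕ)) →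
    ∀ (I : Finset (σ →₀ ℕ)) (K : Finset σ), I ⊆ f.support → KS I K →
    ∀ (S : Type) [CommRing S] [Nontrivial S] [Algebra k S] (x : σ → S),
      (∀ i, i ∉ K → (∃ α ∈ I, α i ≠ 0) → IsUnit (x i)) → ¬ ∀ j ∈ K, gjv f I j x = 0

/-- **Row DEX** (derivations with prescribed values). PROOF. Let `E` be the field
`ℚ(c i : i ≠ i₀)`; `c i₀` is transcendental over `E`. `K₁ = E(c i₀)` is the fraction field of the
polynomial ring `E[c i₀]`; let `φ : K₁ → F[ε]` (`TrivSqZeroExt F F` or `DualNumber F`) be the ring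
homomorphism `E`-linear with `c i₀ ↦ c i₀ + ε` (an element of `F[ε]` with nonzero real part is a
unit, so `φ` extends from `E[c i₀]` to the fraction field). `F / K₁` is formally smooth:
characteristic `0`, take a transcendence basis of `F` over `K₁` and
`Algebra.FormallySmooth.of_algebraicIndependent_of_isSeparable`. With `F[ε]` as a `K₁`-algebra by
`φ`, the identity of `F = F[ε]/(ε)` lifts to a `K₁`-algebra homomorphism `F → F[ε]`,
`a ↦ a + ε D(a)` (`Algebra.FormallySmooth.lift`, `(ε)² = 0`), and `D` is the derivation.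
Alternative: `MvPolynomial.pderiv` on `ℚ[c]`, extended to a transcendence basis, the fraction field
and the algebraic extension. -/
def DexStmt : Prop :=
  ∀ (F : Type) [Field F] [CharZero F] (ι : Type) (c : ι → F), AlgebraicIndependent ℚ c →
    ∀ i₀ : ι, ∃ D : F → F, (∀ a b, D (a + b) = D a + D b) ∧
      (∀ a b, D (a * b) = a * D b + b * D a) ∧ D (c i₀) = 1 ∧ ∀ i, i ≠ i₀ → D (c i) = 0

/-- **Row SMO** (uses DEX). PROOF. It suffices that `∏ X_i` lies in every prime ideal `P` which
contains `g = part f I` and its derivatives (`Ideal.radical_eq_sInf`). Let `F` be the fraction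
field of `k[x] / P`, `x̄_i` the images of the variables; `F` is an extension of `k`,
`g(x̄) = 0` and `(∂_j g)(x̄) = 0`. Choose `β ∈ I`; DEX for the images `c_α` in `F` of the
coefficients gives `D : F → F` with `D c_β = 1`, `D c_α = 0` for the other `α ∈ f.support`. Apply
`D` to `0 = g(x̄) = ∑_(α ∈ I) c_α x̄^α`: `0 = x̄^β + ∑_j (∂_j g)(x̄) D(x̄_j) = x̄^β`. So some
`x̄_i = 0` (if `β = 0` this is `1 = 0`, a contradiction), i.e. `X_i ∈ P`, and `∏ X_i ∈ P`. -/
def SmoStmt : Prop :=
  ∀ (k : Type) [Field k] [CharZero k] (σ : Type) [Fintype σ] (f : MvPolynomial σ k),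
    AlgebraicIndependent ℚ (fun α : f.support => f.coeff (α : σ →₀ ℕ)) →
    ∀ I : Finset (σ →₀ ℕ), I ⊆ f.support → I.Nonempty → TorusSmooth (part f I)

/-! ## The bundle of affine spaces -/

/-- **Row DCA** (algebra of the decomposition). PROOF. Every `α ∈ I` has `α j = 0` for all
`j ∈ K`, or `α j = 1` for exactly one `j ∈ K` and `0` for the others; `aeval_mon` of
`Helper63_Simp2/Cls.lean` for the monomials, `Finset.sum_filter`, `Finset.sum_comm'`. Second:
the cofactors do not contain variables of `K` (`cof_congr`). Third: the monomials which are not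
kept contain a variable with value `0`. Fourth: as `aeval_tw_supp`; each cofactor has the weight
`∑_(i ≠ j) α i • ν i = - ν j`. -/
def DcaStmt : Prop :=
  ∀ (k : Type) [Field k] (σ : Type) [Fintype σ] (f : MvPolynomial σ k)
    (I : Finset (σ →₀ ℕ)) (K : Finset σ), Stab I K →
    ∀ (S : Type) [CommRing S] [Algebra k S],
    (∀ x : σ → S, MvPolynomial.aeval x (part f I)
      = MvPolynomial.aeval x (part f (keep I K ∅)) + ∑ j ∈ K, x j * gjv f I j x) ∧
    (∀ x y : σ → S, (∀ i, i ∉ K → x i = y i) →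
      MvPolynomial.aeval x (part f (keep I K ∅)) = MvPolynomial.aeval y (part f (keep I K ∅)) ∧
      ∀ j ∈ K, gjv f I j x = gjv f I j y) ∧
    (∀ (x : σ → S) (K' : Finset σ), K' ⊆ K → (∀ j ∈ K, j ∉ K' → x j = 0) →
      MvPolynomial.aeval x (part f I) = MvPolynomial.aeval x (part f (keep I K K'))) ∧
    ∀ (S' : Type) [CommRing S'] [Algebra k S'] (W : Type) [AddCommGroup W] (ν : σ → W),
      (∀ α ∈ I, Finsupp.weight ν α = 0) → ∀ (φ : S →ₐ[k] S') (c : Chr W S') (x : σ → S),
      ∀ j ∈ K, gjv f I j (fun i => chr c (ν i) * φ (x i)) = chr c (-(ν j)) * φ (gjv f I j x)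

/-- the exponent of `𝕃 - 1` in front of the class of `keep I K K'` -/
noncomputable def gex {σ : Type} [Fintype σ] (I : Finset (σ →₀ ℕ)) (J K K' : Finset σ) : ℕ :=
  dd I J - K.card + K'.card - dd (keep I K K') J

open scoped Classical in
/-- **Row DCB** (combinatorics of `keep`). PROOF. (1) the variables of `keep I K K'` outside `J`
together with those of `K ∖ K'` are variables of `I` outside `J` (the latter occur since `K` is
contained in the occurring variables, and are no variables of `keep`). (2), (3) unfold.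
(4) a monomial with a variable `j ∈ K ∖ K'` is not kept. (5) for `α ∈ I` with `α j = 1`, `j ∈ K`,
all `α i`, `i ∈ D ∖ K`, vanish because `∑_(i ∈ D) α i ≤ 1`; so `α` is kept, and `VK` of the
smaller set is contained in `VK I K` (equal, in fact); `Submodule.finrank_mono`. -/
def DcbStmt : Prop :=
  ∀ (σ : Type) [Fintype σ] (I : Finset (σ →₀ ℕ)) (J : Finset σ),
    (∀ K K' : Finset σ, (∀ j ∈ K, ∃ α ∈ I, α j ≠ 0) → Disjoint K J → K' ⊆ K →
      dd (keep I K K') J + K.card ≤ dd I J + K'.card ∧ K.card ≤ dd I J) ∧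
    (∀ K K' : Finset σ, keep I K K' ⊆ I ∧ keep I K K = I) ∧
    (∀ D K A B : Finset σ, K ⊆ D → A ⊆ K → B ⊆ D \ K →
      keep (keep I (D \ K) B) K A = keep I D (A ∪ B)) ∧
    (∀ K K' : Finset σ, (∀ j ∈ K, ∃ α ∈ I, α j ≠ 0) → K' ⊆ K → K' ≠ K →
      (keep I K K').card < I.card) ∧
    ∀ D K B : Finset σ, Stab I D → K ⊆ D → KS I K → B ⊆ D \ K → KS (keep I (D \ K) B) K

section bundle

variable {k : Type} [Field k] {σ : Type} [Fintype σ]

/-- the constants `0` and `1` -/
def eB (b : Bool) (S : Type) [CommRing S] : S := if b then 1 else 0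

theorem eB_map {b : Bool} {S S' : Type} [CommRing S] [Algebra k S] [CommRing S'] [Algebra k S']
    (φ : S →ₐ[k] S') : φ (eB b S) = eB b S' := by
  unfold eB
  split_ifs
  · exact map_one φ
  · exact map_zero φ

/-- the points with `g(x) = e` whose coordinates in `U` outside `K` are invertible -/
@[reducible] noncomputable def TE {g : MvPolynomial σ k} (V : TS QZ g) (hμ : V.μ = 0) (b : Bool)
    (K : Finset σ) : OverS k σ QZ :=
  V.A.sub (fun S _ _ x => (∀ i, (i ∈ V.U → i ∉ K → IsUnit (x i)) ∧ (i ∉ V.U → x i = 0)) ∧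
      MvPolynomial.aeval x g = eB b S)
    (fun {S S'} _ _ _ _ φ c x hx => ⟨fun i => ⟨fun h h' => (chr_isUnit c _).mul
        (((hx.1 i).1 h h').map φ), fun h => by
        show chr c (V.ν i) * φ (x i) = 0
        rw [(hx.1 i).2 h, map_zero, mul_zero]⟩, by
      show MvPolynomial.aeval (fun i => chr c (V.ν i) * φ (x i)) g = eB b S'
      rw [aeval_twist V, hx.2, hμ, chr_zero, one_mul, eB_map]⟩)

/-- restriction of the weights to a subset of the monomials -/
@[reducible] noncomputable def resT {f : MvPolynomial σ k} {I I' : Finset (σ →₀ ℕ)}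
    (V : TS QZ (part f I)) (h : I' ⊆ I) : TS QZ (part f I') where
  ν := V.ν
  μ := V.μ
  hg α hα := by
    classical
    refine V.hg α ?_
    have h1 : α ∈ I' := mem_of_mem_part_support hα
    rw [MvPolynomial.mem_support_iff] at hα ⊢
    have h2 : ∀ I'' : Finset (σ →₀ ℕ), α ∈ I'' →
        MvPolynomial.coeff α (part f I'') = MvPolynomial.coeff α f := by
      intro I'' h3
      unfold part
      rw [MvPolynomial.coeff_sum, Finset.sum_eq_single α]
      · rw [MvPolynomial.coeff_monomial, if_pos rfl]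
      · intro β _ hβ
        rw [MvPolynomial.coeff_monomial, if_neg hβ]
      · intro h4
        exact absurd h3 h4
    rw [h2 I (h h1)]
    rwa [h2 I' h1] at hα
  U := by classical exact univ \ freeV I' V.J
  J := V.J
  hJ := V.hJ

end bundle

/-- **Row STK** (strata; uses DCA, DCB). PROOF. `TE V hμ b ∅` is isomorphic to `TT0 V`, `TT1 V`
(`OIso.mk'` with the identity), so it is of finite type; `TE V hμ b K` is of finite type (closed in
an affine space with some coordinates invertible: `FT.closed`, `FT.unit`, as in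
`Helper51_Simp/FTS.lean`). `SInv.torus` (`Helper6_Mono/Sup.lean`) with the coordinate functions
`x_j`, `j ∈ K`, and `T = K` decomposes `TE V hμ b K` into the strata with `x_j` invertible for
`j ∈ K'` and `x_j = 0` for `j ∈ K ∖ K'`. On the stratum `part f I (x) = part f (keep I K K') (x)`
(DCA), so the stratum is `TE` (with `∅` for `K`) of the polynomial `part f (keep I K K')`, with the
weights of `V` and with `U' = U ∖ (K ∖ K')`. The coordinates in `U'` which are not in
`univ \ freeV (keep I K K') J` do not occur and are not in `J`; their number is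
`gex I J K K'`; remove them with `split_all` (`Helper39_Simp/Ytt.lean`, hypothesis `SplitStmt` =
`Helper30_Simp.H39.split Helper30_Simp.H51.fts`) as in `elim_cl` of `Helper63_Simp2/Cls.lean`. -/
def StkStmt : Prop :=
  ∀ (k : Type) [Field k] (σ : Type) [Fintype σ] (R : Type 1) [CommRing R] (L : Rˣ)
    (χ : SInv k (fun _ : σ => (0 : QZ)) L) (f : MvPolynomial σ k) (I : Finset (σ →₀ ℕ))
    (J K : Finset σ) (hI : I ⊆ f.support) (hJ : Disjoint K J) (hK : Stab I K) (b : Bool)
    (V : TS QZ (part f I)) (hμ : V.μ = 0) (hU : ∀ i, i ∈ V.U ↔ i ∉ freeV I J) (hVJ : V.J = J)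
    (hkeep : ∀ K' : Finset σ, keep I K K' ⊆ I),
    FT (TE V hμ b K).F ∧
    χ.χ (TE V hμ b K) = ∑ K' ∈ K.powerset, ((L : R) - 1) ^ gex I J K K' *
      χ.χ (TE (resT V (hkeep K')) hμ b ∅)

/-- **Row AFK** (the bundle; uses DCA, STK for the finiteness). PROOF. Enumerate `K` by
`Fin |K|`. The functions `g_j` (`j ∈ K`) are natural functions on `X = TE V hμ b K` of weight
`- ν j` (DCA). `SInv.stair` decomposes `X` into the pieces `X_j` = [`g_i = 0` for the `i` before
`j`, `g_j` invertible] and the piece where all `g_j` vanish, which is empty by hypothesis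
(`SInv.empty`, `Helper6_Mono/Van.lean`; the coordinates `i ∉ K` which occur are in `U` outside `K`,
hence invertible). Let `T` be the torus: the points `x` with `x_i = 0` for `i ∈ K` and `i ∉ U`,
`x_i` invertible for `i ∈ U ∖ K` (no equation), with the same weights. On `X_j` the equation
`f₀ + ∑ x_i g_i = e` is solved by `x_j = (e - f₀ - ∑_(i ≠ j) x_i g_i) / g_j` (weight
`0 - (- ν j)`), so `X_j ≅ T_j × 𝔸^(K ∖ j)`, `T_j` = the piece of the staircase of `T` for the
same functions, and `χ(X_j) = 𝕃^(|K| - 1) χ(T_j)` (`SInv.times_pi`). The staircase of `T` has an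
empty last piece too, so `∑ χ(T_j) = χ(T)`, and `χ(T) = (𝕃 - 1)^(dd I J - |K|) χ(TT0 (V0 f ∅ J))`
as in `torus_cl` (`Helper63_Simp2/Cls.lean`): the coordinates of `T` which are invertible and not in
`J` are the `dd I J` variables of `I` outside `J` except those of `K`. -/
def AfkStmt : Prop :=
  ∀ (k : Type) [Field k] (σ : Type) [Fintype σ] (R : Type 1) [CommRing R] (L : Rˣ)
    (χ : SInv k (fun _ : σ => (0 : QZ)) L) (f : MvPolynomial σ k) (I : Finset (σ →₀ ℕ))
    (J K : Finset σ) (hI : I ⊆ f.support) (hJ : Disjoint K J) (hK : Stab I K) (b : Bool)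
    (V : TS QZ (part f I)) (hμ : V.μ = 0) (hU : ∀ i, i ∈ V.U ↔ i ∉ freeV I J) (hVJ : V.J = J),
    (∀ (S : Type) [CommRing S] [Nontrivial S] [Algebra k S] (x : σ → S),
      (∀ i, i ∉ K → (∃ α ∈ I, α i ≠ 0) → IsUnit (x i)) → ¬ ∀ j ∈ K, gjv f I j x = 0) →
    χ.χ (TE V hμ b K) = ((L : R) - 1) ^ (dd I J - K.card) * (L : R) ^ (K.card - 1) *
      χ.χ (TT0 (V0 f ∅ J))

/-- **Row CLK** (the relations of the classes; uses EMP, STK, AFK). PROOF. STK and AFK for
`V = V0 f I J`, `b = false` and for `V = VQ f I J w`, `b = true`. `TE V hμ false ∅ ≅ TT0 V`,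
`TE V hμ true ∅ ≅ TT1 V hμ`, and `resT (V0 f I J) _ = V0 f I' J`, `resT (VQ f I J w _ _) _ =
VQ f I' J w _ _` (definitionally up to proofs). For the second part `Y1w_eq`
(`Helper63_Simp2/Zuni.lean`, hypothesis `ClsStmt` = `H63.cls ...`, see `Helper30_Simp2/Assembly`)
identifies the classes with `Y1w χ f J I'` for all subsets `I'` of `I`, including the empty one. -/
def ClkStmt : Prop :=
  ∀ (k : Type) [Field k] [CharZero k] (σ : Type) [Fintype σ] (R : Type 1) [CommRing R] (L : Rˣ)
    (χ : SInv k (fun _ : σ => (0 : QZ)) L) (f : MvPolynomial σ k),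
    AlgebraicIndependent ℚ (fun α : f.support => f.coeff (α : σ →₀ ℕ)) →
    ∀ (I : Finset (σ →₀ ℕ)) (J K : Finset σ), I ⊆ f.support → Disjoint K J → KS I K →
    (∑ K' ∈ K.powerset, ((L : R) - 1) ^ gex I J K K' * χ.χ (TT0 (V0 f (keep I K K') J))
      = ((L : R) - 1) ^ (dd I J - K.card) * (L : R) ^ (K.card - 1) * χ.χ (TT0 (V0 f ∅ J))) ∧
    ((∃ w : σ → ℚ, (∀ α ∈ I, ∑ i, w i * (α i : ℚ) = 1) ∧ ∀ i ∈ J, w i = 0) →
      ∑ K' ∈ K.powerset, ((L : R) - 1) ^ gex I J K K' * Y1w χ f J (keep I K K')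
      = ((L : R) - 1) ^ (dd I J - K.card) * (L : R) ^ (K.card - 1) * χ.χ (TT0 (V0 f ∅ J)))

/-! ## Universal solutions -/

section uni

variable {σ : Type} [Fintype σ]

/-- some set of variables outside `J` is stable and weak -/
def Red (I : Finset (σ →₀ ℕ)) (J : Finset σ) : Prop := ∃ K : Finset σ, Disjoint K J ∧ KS I K

open scoped Classical in
/-- a chosen weak stable set of variables outside `J` (empty if there is none) -/
noncomputable def Kc (I : Finset (σ →₀ ℕ)) (J : Finset σ) : Finset σ :=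
  if h : Red I J then h.choose else ∅

theorem Kc_spec {I : Finset (σ →₀ ℕ)} {J : Finset σ} (h : Red I J) :
    Disjoint (Kc I J) J ∧ KS I (Kc I J) := by
  unfold Kc
  rw [dif_pos h]
  exact h.choose_spec

theorem Kc_neg {I : Finset (σ →₀ ℕ)} {J : Finset σ} (h : ¬ Red I J) : Kc I J = ∅ := by
  unfold Kc
  rw [dif_neg h]

open scoped Classical in
/-- the universal polynomials in `Y = 𝕃 - 1`: the coefficient of the class of the torus (index
`none`) and of the class of the irreducible set `I₁` (index `some I₁`) in the class of `I` -/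
def IsP (M : Finset (σ →₀ ℕ)) (J : Finset σ)
    (P : Finset (σ →₀ ℕ) → Option (Finset (σ →₀ ℕ)) → Polynomial ℤ) : Prop :=
  ∀ I ⊆ M, ∀ l, ∑ K' ∈ (Kc I J).powerset,
      Polynomial.X ^ gex I J (Kc I J) K' * P (keep I (Kc I J) K') l
    = if Red I J then (if l = none then
        Polynomial.X ^ (dd I J - (Kc I J).card) * (Polynomial.X + 1) ^ ((Kc I J).card - 1)
        else 0) else if l = some I then 1 else 0

/-- the relations of the weak stable sets for one `J` -/
def KRelJ {A : Type} [CommRing A] (M : Finset (σ →₀ ℕ)) (X : A) (J : Finset σ)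
    (z : Finset (σ →₀ ℕ) → A) (c : A) : Prop :=
  ∀ (I : Finset (σ →₀ ℕ)) (K : Finset σ), I ⊆ M → Disjoint K J → KS I K →
    ∑ K' ∈ K.powerset, (1 - X) ^ K'.card * X ^ (K.card - K'.card) * z (keep I K K') = c

/-- the relations of the chosen weak stable sets imply all relations -/
def Conf (M : Finset (σ →₀ ℕ)) (J : Finset σ) : Prop :=
  ∀ (z : Finset (σ →₀ ℕ) → ℤ⟦X⟧) (c : ℤ⟦X⟧),
    (∀ I ⊆ M, Red I J → ∑ K' ∈ (Kc I J).powerset,
      (1 - X) ^ K'.card * X ^ ((Kc I J).card - K'.card) * z (keep I (Kc I J) K') = c) →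
    KRelJ M (X : ℤ⟦X⟧) J z c

/-- `t ^ d * p (1 / t)` for a polynomial `p` of degree `≤ d` -/
noncomputable def nrm {A : Type} [CommRing A] (t : A) (d : ℕ) (p : Polynomial ℤ) : A :=
  ∑ e ∈ range (d + 1), ((p.coeff e : ℤ) : A) * t ^ (d - e)

/-- the polynomial in `X = 𝕃⁻¹` which represents `𝕃 ^ (-n) p (𝕃 - 1)` -/
noncomputable def ZX (n : ℕ) (p : Polynomial ℤ) : Polynomial ℤ :=
  ∑ e ∈ range (n + 1), Polynomial.C (p.coeff e) * pe Polynomial.X n e

/-- the value of an integral polynomial -/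
noncomputable def evI {R : Type*} [CommRing R] (y : R) (p : Polynomial ℤ) : R :=
  Polynomial.eval₂ (Int.castRingHom R) y p

end uni

/-- **Row REC** (existence and first properties of the universal polynomials; uses DCB).
PROOF. `D = Kc I J`. For `K' = D` we have `keep I D K' = I` and
`gex = dd I J - |D| + |D| - dd I J = 0`, for the other `K'` the set `keep I D K'` has fewer elements
than `I` (DCB (4); the variables of a stable set occur). So the equation of `IsP` defines `P I l` by
recursion on `I.card` (`WellFounded.fix`, or functions on the sets with `≤ n` elements by induction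
on `n`). Degrees: `P I l = RHS - ∑_(K' ≠ D) Y^gex P (keep ..) l`, by induction each summand has
degree `≤ gex + dd (keep ..) J = dd I J - |D| + |K'| ≤ dd I J` (DCB (1)), and `RHS` has degree
`≤ dd I J - |D| + |D| - 1`, or `0`. `Red ∅ J` is false (a stable set is nonempty and its variables
occur), `Kc ∅ J = ∅`, so `P ∅ l = if l = some ∅ then 1 else 0`. -/
def RecStmt : Prop :=
  ∀ (σ : Type) [Fintype σ] (M : Finset (σ →₀ ℕ)) (J : Finset σ),
    (∃ P, IsP M J P) ∧ ∀ P, IsP M J P →
      (∀ I ⊆ M, ∀ l, (P I l).natDegree ≤ dd I J) ∧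
      P ∅ (some ∅) = 1 ∧ (∀ l, l ≠ some ∅ → P ∅ l = 0)

open scoped Classical in
/-- **Row USO** (solution property; uses DCB). `Sp` is a property of sets of monomials which
passes to subsets. PROOF. `W := Z`. Induction on `I.card`. If `Red I J`, `D = Kc I J`: the relation
for `(I, D)` is `Z I = y^(dd I J - |D|) (y + 1)^(|D| - 1) τ - ∑_(K' ≠ D) y^gex Z (keep I D K')`
(`gex = 0` and `keep = I` for `K' = D`), insert the induction hypotheses for the `keep I D K'` and
compare with the equation of `IsP` evaluated at `y` (`evI` is additive and multiplicative) for all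
`l`. If not `Red I J`, `D = ∅` and the equation of `IsP` says `P I l = [l = some I]`. -/
def UsoStmt : Prop :=
  ∀ (σ : Type) [Fintype σ] (M : Finset (σ →₀ ℕ)) (J : Finset σ),
    ∀ P, IsP M J P → ∀ (R : Type 1) [CommRing R] (y τ : R) (Sp : Finset (σ →₀ ℕ) → Prop)
    (hSp : ∀ I I', I' ⊆ I → Sp I → Sp I') (Z : Finset (σ →₀ ℕ) → R),
    (∀ (I : Finset (σ →₀ ℕ)) (K : Finset σ), I ⊆ M → Sp I → Disjoint K J → KS I K →
      ∑ K' ∈ K.powerset, y ^ gex I J K K' * Z (keep I K K')
        = y ^ (dd I J - K.card) * (y + 1) ^ (K.card - 1) * τ) →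
    ∀ I ⊆ M, Sp I →
      Z I = evI y (P I none) * τ + ∑ I₁ ∈ M.powerset, evI y (P I (some I₁)) * Z I₁

/-- **Row CNS** (confluence for `S1`; uses DCB). PROOF. Write
`ρ(I, K) = ∑_(K' ⊆ K) (1 - X)^|K'| X^(|K| - |K'|) z (keep I K K')`. Claim `ρ(I, K) = c` for `KS I K`,
`K` disjoint from `J`, by induction on `I.card`. Let `K₂ = Kc I J`, `D = K ∪ K₂`; `D` is stable on
`I` (every monomial of `I` has at most one entry `1`, and its entries at the elements of `D` are
`≤ 1`). For `L ∈ {K, K₂}`: every `K' ⊆ D` is `A ∪ B`, `A ⊆ L`, `B ⊆ D ∖ L`, and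
`keep I D K' = keep I_B L A`, `I_B = keep I (D ∖ L) B`, with `KS I_B L` (DCB (3), (5)), so
`ρ(I, D) = ∑_(B ⊆ D ∖ L) (1 - X)^|B| X^(|D ∖ L| - |B|) ρ(I_B, L)`. For `B ≠ D ∖ L` the set `I_B` is
smaller (DCB (4)), `ρ(I_B, L) = c`, and `I_(D ∖ L) = I`; with
`∑_B (1 - X)^|B| X^(|D ∖ L| - |B|) = 1` (`Finset.prod_add` or `Finset.sum_pow_mul_eq_add_pow`)
we get `ρ(I, D) - c = (1 - X)^|D ∖ L| (ρ(I, L) - c)`. This is zero for `L = K₂` by hypothesis, so
`(1 - X)^|D ∖ K| (ρ(I, K) - c) = 0`, and `1 - X` is no zero divisor of `ℤ⟦X⟧`. -/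
def CnsStmt : Prop :=
  ∀ (σ : Type) [Fintype σ] (M : Finset (σ →₀ ℕ)), S1 M → ∀ J : Finset σ, Conf M J

open scoped Classical in
/-- **Row UNR** (normalised relations; uses DCB, REC). PROOF. Put `N I = nrm t (dd I J) (P I l)`,
`t = X q`, so `(1 - X) t = X` and `(1 - X)(1 + t) = 1`. For a polynomial `p` of degree `≤ d` and
`e' ≤ e`: `nrm t (d + e) (Y^e' p) = t^(e - e') nrm t d p`, and `nrm t d` is additive. By `Conf` it
is enough to prove the relation of `D = Kc I J` for `Red I J`. Apply `nrm t (dd I J)` to the equation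
of `IsP`: `∑_(K' ⊆ D) t^(|D| - |K'|) N (keep I D K') = [l = none] t (1 + t)^(|D| - 1)`
(`gex + dd (keep ..) J = dd I J - |D| + |K'|`, DCB (1), degrees by REC;
`nrm t dd (Y^(dd - |D|) (Y + 1)^(|D| - 1)) = t (1 + t)^(|D| - 1)`, e.g. by
`nrm t d p = t^d p(1/t)` in a field or by induction on `|D|`); multiply by `(1 - X)^|D|`. -/
def UnrStmt : Prop :=
  ∀ (σ : Type) [Fintype σ] (M : Finset (σ →₀ ℕ)) (J : Finset σ), Conf M J →
    ∀ P, IsP M J P → ∀ (q : ℤ⟦X⟧), (1 - X) * q = 1 → ∀ l,
      KRelJ M (X : ℤ⟦X⟧) J (fun I => nrm (X * q) (dd I J) (P I l)) (if l = none then X else 0)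

/-- **Row TRF** (transfer to the generating functions). PROOF. First: linearity and `pe_cs`
(`Helper63_Simp2/Zuni.lean`) with `n = nJ J`, `s = dd I J - e` (`card_free`):
`pe X n e * cs X M I J l l = (1 - X)^n (X q)^(dd I J - e) gfc`; the coefficients `p.coeff e`,
`e > dd I J`, vanish. Second: `pe_Li`, `evL_X`, `Polynomial.eval₂_eq_sum_range'`. -/
def TrfStmt : Prop :=
  ∀ (σ : Type) [Fintype σ] (M : Finset (σ →₀ ℕ)) (J : Finset σ) (p : Polynomial ℤ),
    (∀ (q : ℤ⟦X⟧), (1 - X) * q = 1 → ∀ I : Finset (σ →₀ ℕ), I.Nonempty →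
      p.natDegree ≤ dd I J → ∀ l : ℕ,
      (ZX (nJ J) p : ℤ⟦X⟧) * cs X M I J l l
        = (1 - X) ^ nJ J * nrm (X * q) (dd I J) p * gfc M I J l) ∧
    ∀ (R : Type 1) [CommRing R] (L : Rˣ), p.natDegree ≤ nJ J →
      (L : R) ^ nJ J * evL L (ZX (nJ J) p) = evI ((L : R) - 1) p

/-- **Row SEQ** (sequences; uses ZskStmt = row ZSK). PROOF. Copy of `seqZ` and `good_seq`
(`Helper63_Simp2/Zuni.lean`); `GcdStmt` is the landed theorem `H36.gcd`
(`Helper36_Simp2/Gcd.lean`). For `x ∈ B` with `KRay M x` use `ZskStmt`; for `x ∈ B` with `AllUB M x`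
use the landed `ZScStmt` (`H28.zsc (H73.zalg H7.ext2) H40.zg`), its hypothesis for `Val M I J A j` is
the relation of `KRelJ` for `insert A I` and `K = {j}`: `KS (insert A I) {j}` (`VK` is spanned by
`A - A = 0`), `keep (insert A I) {j} ∅ = I`, `keep (insert A I) {j} {j} = insert A I`. For
`J' ≠ J` all functions and `c` are zero. -/
def SeqStmt : Prop :=
  ∀ (σ : Type) [Fintype σ] (M : Finset (σ →₀ ℕ)), M.Nonempty → ∀ B : Set ℚ, 1 ∉ B →
    (∀ x ∈ B, KRay M x ∨ AllUB M x) → B.Nonempty → ∀ (R : Type 1) [CommRing R] (L : Rˣ)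
    (J : Finset σ) (c : ℤ⟦X⟧) (y1 y0 : Finset (σ →₀ ℕ) → ℤ⟦X⟧), y1 ∅ = 0 → y0 ∅ = c →
    KRelJ M X J y1 (X * c) → KRelJ M X J y0 (X * c) →
    ∀ (D : ℤ⟦X⟧) (z1 z0 : Finset (σ →₀ ℕ) → Polynomial ℤ),
    (∀ I : Finset (σ →₀ ℕ), I ⊆ M → I.Nonempty → ∀ l,
      (z1 I : ℤ⟦X⟧) * cs X M I J l l = D * y1 I * gfc M I J l) →
    (∀ I : Finset (σ →₀ ℕ), I ⊆ M → I.Nonempty → ∀ l,
      (z0 I : ℤ⟦X⟧) * cs X M I J l l = D * y0 I * gfc M I J l) →
    Good L M B J (fun I => evL L (z1 I)) (fun I => evL L (z0 I))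

open scoped Classical in
/-- **Row GDA** (all coefficient functions; uses REC, UNR, TRF, SEQ). PROOF. As `good_all`
(`Helper63_Simp2/Zuni.lean`). With `n = nJ J`, `D = (1 - X)^n`, `y l I = nrm (X q) (dd I J) (P I l)`,
`z l I = ZX n (P I l)` (TRF; degrees by REC, `dd I J ≤ n` by `card_free`):
(a) `c = 1`, `y1 = y none`, `y0 = y none + y (some ∅)` (`y1 ∅ = 0`, `y0 ∅ = 1`; the relation of
`y (some ∅)` has right hand side `0`): coefficient functions `evI (P I none)` and
`evI (P I none) + evI (P I (some ∅))`, times `L^n`, times `τ`;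
(b) for `I₁ ≠ ∅`: `c = 0`, `(y1, y0) = (y (some I₁), 0)` and `(0, y (some I₁))`, times `W1 I₁`,
`W0 I₁`. Add up with `Good.add`, `Good.smul`, `Good.sum`, `Good.congr`. -/
def GdaStmt : Prop :=
  ∀ (σ : Type) [Fintype σ] (M : Finset (σ →₀ ℕ)), M.Nonempty → ∀ B : Set ℚ, 1 ∉ B →
    (∀ x ∈ B, KRay M x ∨ AllUB M x) → B.Nonempty → ∀ (R : Type 1) [CommRing R] (L : Rˣ)
    (J : Finset σ), Conf M J →
    ∀ (P : Finset (σ →₀ ℕ) → Option (Finset (σ →₀ ℕ)) → Polynomial ℤ), IsP M J P →
    ∀ (τ : R) (W1 W0 : Finset (σ →₀ ℕ) → R), W1 ∅ = 0 → W0 ∅ = τ →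
    Good L M B J
      (fun I => evI ((L : R) - 1) (P I none) * τ +
        ∑ I₁ ∈ M.powerset, evI ((L : R) - 1) (P I (some I₁)) * W1 I₁)
      (fun I => evI ((L : R) - 1) (P I none) * τ +
        ∑ I₁ ∈ M.powerset, evI ((L : R) - 1) (P I (some I₁)) * W0 I₁)

/-- **Row ZFK** (end of the zeta side; uses SMO, CLK, REC, USO, GDA). PROOF. Copy of `zuni`
(`Helper63_Simp2/Zuni.lean`) and of `H15.key`, `H15.zfin` (`Helper15_Simp/Zfin.lean`), where the
only use of `Simplicial`, `Nondeg` is `TorusSmooth (part f I)` for the cells (`NdegStmt`), now SMO.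
For `B = ∅` copy `H15.zfin`. Otherwise, for every `J`, take `P` with `IsP f.support J P` (REC); USO
with `y = L - 1`, `τ = χ(TT0 (V0 f ∅ J))` for `Z = χ(TT0 (V0 f · J))`, `Sp = True`, and for
`Z = Y1w χ f J`, `Sp I = ∃ w, (∀ α ∈ I, ∑ w i * α i = 1) ∧ ∀ i ∈ J, w i = 0` (CLK;
`(L - 1) + 1 = L`), with `W0 = Z0`, `W0 ∅ = τ`, `W1 = Z1`, `W1 ∅ = Y1w χ f J ∅ = 0` (`Y1w_empty`).
Then GDA and the end of the proof of `zuni`. All other modules are landed theorems, see
`Helper30_Simp2/Assembly.lean` and `Helper30_Simp/Assembly.lean`. -/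
def ZfinKStmt : Prop :=
  ∀ (k : Type) [Field k] [CharZero k] (σ : Type) [Fintype σ] (R : Type 1) [CommRing R] (L : Rˣ)
    (χ : SInv k (fun _ : σ => (0 : QZ)) L) (f : MvPolynomial σ k), f ≠ 0 →
    AlgebraicIndependent ℚ (fun α : f.support => f.coeff (α : σ →₀ ℕ)) →
    (∀ J, Conf f.support J) →
    ∀ B : Set ℚ, 1 ∉ B → (∀ x ∈ B, KRay f.support x ∨ AllUB f.support x) →
    ∃ a : ℕ → R, a 0 = 0 ∧ RP L (steps ((slopes f.support ∪ {1}) \ B)) a ∧
      ∀ (m : ℕ) (hm : m ≠ 0) (hω : m • ((((1 : ℚ) / m : ℚ)) : QZ) = 0),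
        a m = Li L ^ (m * Fintype.card σ) *
          χ.χ ((FibK k σ ((((1 : ℚ) / m : ℚ)) : QZ) m hω).app
            (Jet f Set.univ m ((((1 : ℚ) / m : ℚ)) : QZ)))

end Pool.Agent.GEN
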