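import Pool.Agent.GEN.DefsF
import Pool.Agent.GEN.StmtsZC
import Pool.Agent.Helper8_CR.Defs

/-!
# Squad GEN, block T: coefficients which are independent after rescaling; stabilizations
-/

set_option autoImplicit false
set_option linter.unusedVariables false
set_option linter.unusedSectionVars false

namespace Pool.Agent.GEN

open Finset Pool.Agent.Helper6_Mono Pool.Agent.Helper30_Simp Pool.Agent.Helper30_Simp2
  Pool.Agent.Helper8_CR

section defs

variable {σ k : Type} [Field k]

/-- after rescaling the variables and multiplication with a constant the coefficients of `G` are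
algebraically independent over `ℚ` -/
def TorInd [Algebra k ℂ] (G : MvPolynomial σ k) : Prop :=
  ∃ (a : ℂ) (t : σ → ℂ), AlgebraicIndependent ℚ fun α : G.support =>
    a * ((α : σ →₀ ℕ).prod fun i n => t i ^ n) * algebraMap k ℂ (G.coeff (α : σ →₀ ℕ))

/-- all nonempty partial sums of the terms of `f` are smooth in the torus -/
def NDP [Fintype σ] (f : MvPolynomial σ k) : Prop :=
  ∀ I : Finset (σ →₀ ℕ), I ⊆ f.support → I.Nonempty → TorusSmooth (part f I)

end defs

/-- **Row BSM** (Bernstein-Sato polynomial of a constant multiple; easy, no hypotheses).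
PROOF. `LocalBS (C c * f) b ↔ LocalBS f b`: replace every pair `(a, w)` of the list `P` by
`(Polynomial.C (C c⁻¹) * a, w)`: `dWord w (C c * p) = C c * dWord w p`, and
`c⁻¹ * c ^ (n + 1) = c ^ n`. The converse with `c⁻¹`. So the two sets of polynomials in the
definition of `bfun` are equal. -/
def BsmStmt : Prop :=
  ∀ (σ : Type) (c : ℂ), c ≠ 0 → ∀ f : MvPolynomial σ ℂ, bfun (MvPolynomial.C c * f) = bfun f

/-- **Row SCL** (normal form of `TorInd`; easy, no hypotheses).
PROOF. Let `a`, `t` be as in `TorInd G`. If `G = 0` take `a = 1` and all `t i = 1`. Otherwise `a ≠ 0`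
and `t i ≠ 0` for all `i` which occur in a monomial of `G` (the members of an algebraically
independent family are not zero, `AlgebraicIndependent.ne_zero`); replace the other `t i` by `1`.
`Φ` is `aeval (fun i => C (t i) * X i)` with inverse `aeval (fun i => C (t i)⁻¹ * X i)`
(`MvPolynomial.algEquivOfAEval...` or `AlgEquiv.ofAlgHom`). The coefficient of `α` in
`C a * Φ F` is `a * α.prod (fun i n => t i ^ n) * F.coeff α` (write `F` as the sum of its monomials,
`Φ (monomial α c) = monomial α (α.prod (fun i n => t i ^ n) * c)`). The support of the map of `G`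
to `ℂ` is the support of `G` (`MvPolynomial.support_map_of_injective`), so the support of
`C a * Φ (map G)` is the one of `G` too, and its family of coefficients is the family of `TorInd`
up to the identification of the index types (`AlgebraicIndependent.comp`, or rewrite). -/
def SclStmt : Prop :=
  ∀ (k : Type) [Field k] [Algebra k ℂ] (σ : Type) (G : MvPolynomial σ k), TorInd G →
    ∃ (a : ℂ) (t : σ → ℂ) (Φ : MvPolynomial σ ℂ ≃ₐ[ℂ] MvPolynomial σ ℂ), a ≠ 0 ∧
      (∀ i, t i ≠ 0) ∧ (∀ i, Φ (MvPolynomial.X i) = MvPolynomial.C (t i) * MvPolynomial.X i) ∧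
      (MvPolynomial.C a * Φ (MvPolynomial.map (algebraMap k ℂ) G)).support = G.support ∧
      AlgebraicIndependent ℚ fun α :
        (MvPolynomial.C a * Φ (MvPolynomial.map (algebraMap k ℂ) G)).support =>
          (MvPolynomial.C a * Φ (MvPolynomial.map (algebraMap k ℂ) G)).coeff (α : σ →₀ ℕ)

/-- **Row TSI** (smoothness in the torus is invariant under rescaling; easy, no hypotheses).
PROOF. `∂_j (Φ g) = C (t j) * Φ (∂_j g)` (check on monomials or with `MvPolynomial.induction_on`).
So the ideal of `C a * Φ g` is the image under `Φ` of the ideal of `g` (generators up to units), and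
`Φ (∏ X i) = C (∏ t i) * ∏ X i`. Apply `Φ.symm` to `(∏ X i) ^ n ∈` ideal. -/
def TsiStmt : Prop :=
  ∀ (σ : Type) [Fintype σ] (a : ℂ) (t : σ → ℂ) (Φ : MvPolynomial σ ℂ ≃ₐ[ℂ] MvPolynomial σ ℂ),
    a ≠ 0 → (∀ i, t i ≠ 0) →
    (∀ i, Φ (MvPolynomial.X i) = MvPolynomial.C (t i) * MvPolynomial.X i) →
    ∀ g : MvPolynomial σ ℂ, TorusSmooth (MvPolynomial.C a * Φ g) → TorusSmooth g

/-- **Row TSD** (smoothness in the torus descends; easy, no hypotheses).
PROOF. Let `ρ : K → k` be `k`-linear with `ρ 1 = 1` (`k` is a field:
`LinearMap.exists_leftInverse_of_injective` for `Algebra.linearMap k K`). Let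
`R : MvPolynomial σ K → MvPolynomial σ k` be `ρ` applied to the coefficients
(`coeff α (R q) = ρ (coeff α q)`). For `p` over `k` we have `R (map p * q) = p * R q` (compare the
coefficients, `MvPolynomial.coeff_mul`) and `R (map p) = p`. If `map p = ∑ q_i * map g_i` then
`p = R (map p) = ∑ R q_i * g_i`. Apply this to `p = (∏ X i) ^ n` and the generators
`g`, `∂_j g` of the ideal (`map` commutes with `pderiv`; `Ideal.span` membership as a finite
combination: `Submodule.span_induction` with the statement `R q ∈ Ideal.span …` for all elements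
`q` of the extended ideal multiplied with anything, or `Finsupp.mem_ideal_span_range_iff_exists_finsupp`). -/
def TsdStmt : Prop :=
  ∀ (k K : Type) [Field k] [Field K] [Algebra k K] (σ : Type) [Fintype σ]
    (g : MvPolynomial σ k), TorusSmooth (MvPolynomial.map (algebraMap k K) g) → TorusSmooth g

/-- **Row NDT** (uses SmoStmt, SclStmt, TsiStmt, TsdStmt; easy).
PROOF. SCL gives `a`, `Φ`, `F = C a * Φ (map G)` with algebraically independent coefficients and
`F.support = G.support`. For `I ⊆ G.support` nonempty `part F I` is smooth in the torus (SMO for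
`k = ℂ`), and `part F I = C a * Φ (part (map G) I)` (linearity; `Φ (monomial α c)` is a multiple of
`monomial α`), `part (map G) I = map (part G I)`. TSI and TSD. -/
def NdtStmt : Prop :=
  ∀ (k : Type) [Field k] [CharZero k] [Algebra k ℂ] (σ : Type) [Fintype σ]
    (G : MvPolynomial σ k), TorInd G → NDP G

/-- **Row EMN** (the cofactors of a weak stable set have no common zero in the torus; medium, no
hypotheses). (`gjv f I j x = ∑_(α ∈ I, α j = 1) c_α ∏_(i ≠ j) x_i ^ α_i`.)
PROOF. Let `𝔪` be a maximal ideal of `S`; replace `S` by the field `F = S / 𝔪`, `x` by its image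
(units stay units, `gjv` commutes with algebra maps). Suppose that all `gjv f I j x = 0`, `j ∈ K`.
For `i ∉ K` which does not occur in `I` replace `x i` by `1` (nothing changes: no cofactor depends
on it), so `x i ≠ 0` for all `i ∉ K`. For `α ∈ I`, `j ∈ K`, `α j = 1` put
`m(α) = c_α ∏_(i ≠ j) x_i ^ α_i`; all `α i`, `i ∈ K`, `i ≠ j`, vanish (stability), so
`m(α) = c_α ∏_(i ∉ K) x_i ^ α_i`. So `∑_(α ∈ I, α j = 1) m(α) = 0` for `j ∈ K`.
For `j ∈ K` let `D_j : σ → F`, `D_j i = ∑_(α ∈ I, α j = 1) α_i m(α)` for `i ∉ K` and `D_j i = 0` for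
`i ∈ K`. With `β_j ∈ I`, `β_j j = 1`, we have
`D_j = ∑_(α ∈ I, α j = 1) m(α) (α - β_j)` (for `i ∈ K` both sides are `0`: `α i = β_j i` for `i ∈ K`;
for `i ∉ K` the difference is `β_j i * ∑ m(α) = 0`). So the `D_j` lie in the `F`-span of the images of
the vectors `α - β_j` of `VK I K`, of dimension at most `finrank ℚ (VK I K) < |K|` (the image of
a `ℚ`-basis of `VK I K` spans; `F` has characteristic `0`). Hence there is
`y : σ → F`, not zero on `K`, with `∑_(j ∈ K) y j • D_j = 0`
(`exists_nontrivial_relation_of_finrank_lt_card` or a linear dependence argument). Let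
`K' = {j ∈ K : y j ≠ 0} ≠ ∅`, `I' = {α ∈ I : ∃ j ∈ K', α j = 1} ≠ ∅`, `g = part f I'` and let `x'` be
`x` outside `K`, `y j` for `j ∈ K'`, `1` for `j ∈ K \ K'`. Then `g(x') = ∑_(j ∈ K') y j * 0 = 0`,
`(∂_j g)(x') = gjv f I j x = 0` for `j ∈ K'`, `(∂_j g)(x') = 0` for `j ∈ K \ K'` (does not occur in
`I'`), and for `i ∉ K` `x'_i (∂_i g)(x') = ∑_(j ∈ K') y j D_j i = 0`, so `(∂_i g)(x') = 0`. All
`x'_i ≠ 0`. But `TorusSmooth g` says that a power of `∏ X i` is in the ideal of `g` and its
derivatives: evaluate at `x'` (`MvPolynomial.aeval x'` kills the generators), contradiction. -/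
def EmnStmt : Prop :=
  ∀ (k : Type) [Field k] [CharZero k] (σ : Type) [Fintype σ] (f : MvPolynomial σ k), NDP f →
    ∀ (I : Finset (σ →₀ ℕ)) (K : Finset σ), I ⊆ f.support → KS I K →
    ∀ (S : Type) [CommRing S] [Nontrivial S] [Algebra k S] (x : σ → S),
      (∀ i, i ∉ K → (∃ α ∈ I, α i ≠ 0) → IsUnit (x i)) → ¬ ∀ j ∈ K, gjv f I j x = 0

/-- **Row TEX** (new independent numbers; easy, no hypotheses). PROOF. Induction on `s` (`Fin s` or
`Option`): for a finite (countable) algebraically independent family `c` the ring `ℚ[c]` is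
countable, so the set of the complex numbers which are algebraic over it is countable
(`Algebraic.countable`), and `ℂ` is not countable; a transcendental element extends the family
(`AlgebraicIndependent.option_iff` or `algebraicIndependent_adjoin…`, `.sumElim`). -/
def TexStmt : Prop :=
  ∀ (ι : Type) [Finite ι] (c : ι → ℂ), AlgebraicIndependent ℚ c → ∀ s : ℕ,
    ∃ d : Fin s → ℂ, AlgebraicIndependent ℚ (Sum.elim c d)

/-- **Row STB** (stabilization; uses TexStmt; easy). PROOF. Let `a`, `t` be as in `TorInd G`; if
`G = 0` we may take `a = 1`, otherwise `a ≠ 0`. TEX gives `d` with `Sum.elim c d` algebraically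
independent, `c` the family of `TorInd G`. For `stab G s` take the same `a`, `t' (inl i) = t i`,
`t' (inr (inl j)) = d j / a`, `t' (inr (inr j)) = 1`. The support of `stab G s` is contained in the
union of the `α ⊕ 0`, `α ∈ G.support`, and the `e_(u_j) + e_(v_j)`; the coefficients are
`G.coeff α` and `1` (the two kinds of exponents are different), so the rescaled coefficients are
`c α` and `a * (d j / a) * 1 * 1 = d j`. Use `AlgebraicIndependent.comp` for the injective map from
the support of `stab G s` to `G.support ⊕ Fin s`. -/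
def StbStmt : Prop :=
  ∀ (k : Type) [Field k] [Algebra k ℂ] (σ : Type) (G : MvPolynomial σ k) (s : ℕ),
    TorInd G → TorInd (stab G s)

end Pool.Agent.GEN
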