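import Pool.Agent.GEN.StmtsR

/-!
# Squad GEN, block V: the strong generic statement on the root side

`fgen M = ∑ X_α x^α` is the polynomial with indeterminate coefficients and support `M`. We show:
for root data `(κ, N, B)` of `M`, `s₀ = - |κ| / N`, there is no relation
`a f^s = (s - s₀) Q f^s + P f^(s+1)` with `a ≠ 0` in `A = ℚ[X_α]` and differential operators `P`,
`Q` over `A` (row ROV). This says that `s - s₀` is not surjective on `D[s] f^s / D[s] f^(s+1)` over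
the generic point (without using the existence of the Bernstein-Sato polynomial), and is what the
specialisation argument for Zariski general coefficients needs.
All rows are variants of landed rows: ERV of `Helper48_GEN/ERA.lean`, CHV of
`Helper28_GEN/CHN.lean`, COV of `Helper88_GEN/COR.lean`, SBV of `Helper47_GEN/DSB.lean`, ROV of
`Helper6_GEN/ROO.lean`.
-/

set_option autoImplicit false
set_option linter.unusedVariables false

namespace Pool.Agent.GEN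

open MvPolynomial Finset Pool.Agent.Helper6_Mono Pool.Agent.Helper30_Simp
  Pool.Agent.Helper30_Simp2

/-- the value at `s = n` of the operator `∑ a(x, s) ∂^w` on the polynomial `g` -/
noncomputable def opR {σ A : Type} [CommRing A]
    (P : List (Polynomial (MvPolynomial σ A) × List σ)) (n : ℕ) (g : MvPolynomial σ A) :
    MvPolynomial σ A :=
  (P.map fun aw => aw.1.eval (n : MvPolynomial σ A) * dWordR aw.2 g).sum

/-- `(∑_e a_e z^e) F^s = (s - s₀) Q F^s + P F^(s+1)` with operators `P`, `Q` without derivatives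
in `z` -/
def RelQ {σ : Type} (F : MvPolynomial σ ℂ) (z : σ) (s₀ : ℂ) (d : ℕ) (a : ℕ → ℂ) : Prop :=
  ∃ P Q : List (Polynomial (MvPolynomial σ ℂ) × List σ), (∀ aw ∈ P, z ∉ aw.2) ∧
    (∀ aw ∈ Q, z ∉ aw.2) ∧ ∀ n : ℕ,
    (∑ e ∈ Finset.range (d + 1), C (a e) * X z ^ e) * F ^ n =
      C ((n : ℂ) - s₀) * opR Q n (F ^ n) + opR P n (F ^ (n + 1))

/-- the polynomial with indeterminate coefficients and support `M` -/
noncomputable def fgen {σ : Type} (M : Finset (σ →₀ ℕ)) : MvPolynomial σ (MvPolynomial M ℚ) :=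
  ∑ α : M, monomial (α : σ →₀ ℕ) (X α)

/-- **Row ERV** (chains over an algebra). Variant of `Helper48_GEN/ERA.lean`.
PROOF. `T = ∑_((q, w) ∈ Q) ∑_k s^k • (act (q.coeff k) ∘ d^w)`, `d^w` the composition of the
`d i`, `i ∈ w` (in the order of `dWordR`). `T` preserves every `N'` which is closed under the
`act (X i)` (hence under all `act p`) and the `d i`, `i ≠ z`. It commutes with `act (X z)`: `act` is
an algebra homomorphism and `d i (act (X z) b) = act (pderiv i (X z)) b + act (X z) (d i b)` with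
`pderiv i (X z) = 0` for `i ≠ z`. The functional equation: as in ERA, for every word `w` avoiding
`z` of length `≤ K` there is `Q_w ∈ ℂ[x][s]` with `∂^w f^n f^K = Q_w(n) f^n` for all `n` and
correspondingly `act f^K (d^w (psi 0)) = act (Q_w(s)) (psi 0)`; more precisely
`d^w (psi 0) = act (Q_w(s)) (psi K)` (`psi n` stands for `f^(s - n)`), and the same with `f^(n+1)`
and `act f (psi 0)`. So the equation for all `n`, written as an equality of polynomials in `n` with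
coefficients in `ℂ[x]`, holds for the chain (for `f = 0` all `psi n` vanish):
`∑ a_e act(z^e) psi 0 = (s - s₀) T psi 0 + ∑_((a, w) ∈ P) a(s) d^w (act f (psi 0))`, and the last sum
lies in `N`. -/
def ErvStmt : Prop :=
  ∀ (σ : Type) [Finite σ] (E B : Type) [CommRing E] [Algebra ℂ E] [AddCommGroup B]
    [Module ℂ B] [Module E B] [IsScalarTower ℂ E B] (f : MvPolynomial σ ℂ) (s : E) (z : σ)
    (act : MvPolynomial σ ℂ →ₐ[ℂ] Module.End E B) (d : σ → Module.End E B)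
    (leibX : ∀ i, i ≠ z → ∀ j b, d i (act (X j) b)
      = act (pderiv i (X j)) b + act (X j) (d i b))
    (psi : ℕ → B) (mul_psi : ∀ n, act f (psi (n + 1)) = psi n)
    (d_psi : ∀ i, i ≠ z → ∀ n : ℕ, d i (psi n)
      = (s - (n : E)) • act (pderiv i f) (psi (n + 1)))
    (N : Submodule E B) (hact : ∀ i, ∀ b ∈ N, act (X i) b ∈ N)
    (hd : ∀ i, i ≠ z → ∀ b ∈ N, d i b ∈ N) (h0 : act f (psi 0) ∈ N)
    (s₀ : ℂ) (dd : ℕ) (a : ℕ → ℂ) (ha : RelQ f z s₀ dd a),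
    ∃ T : Module.End E B,
      (∀ N' : Submodule E B, (∀ i, ∀ b ∈ N', act (X i) b ∈ N') →
        (∀ i, i ≠ z → ∀ b ∈ N', d i b ∈ N') → ∀ b ∈ N', T b ∈ N') ∧
      (∀ b, T (act (X z) b) = act (X z) (T b)) ∧
      (∑ e ∈ range (dd + 1), (algebraMap ℂ E (a e)) • act (X z ^ e) (psi 0)) -
        (s - algebraMap ℂ E s₀) • T (psi 0) ∈ N

/-- **Row CHV** (uses ERV). Copy of `Helper28_GEN/CHN.lean` (`chn`), with ERV in place of ERA. -/
def ChvStmt : Prop :=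
  ∀ (σ : Type) [Fintype σ] (E : Type) [CommRing E] [Algebra ℂ E] (f : MvPolynomial σ ℂ) (z : σ)
    (θ : (σ →₀ ℕ) → E) (φ : (σ →₀ ℕ) → ℤ → E),
    (∀ α ∈ f.support, ∀ t : ℤ, φ α (t + 1) = (θ α - (t : E)) * φ α t) →
    (∀ l w, {t | t ∈ idx f l w ∧ cf f φ t ≠ 0}.Finite) →
    (∀ l : ℕ, IsUnit (∑ α ∈ f.support, θ α - (l : E))) →
    ∀ n : σ → E, (∀ j, n j = ∑ α ∈ f.support, θ α * ((α j : ℕ) : E)) →
    ∀ N : Submodule E ((σ → ℤ) → E), (∀ j, ∀ F ∈ N, actF σ E (X j) F ∈ N) →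
    (∀ j, j ≠ z → ∀ F ∈ N, dF n j F ∈ N) → psiF f φ (-1) ∈ N →
    ∀ (s₀ : ℂ) (d : ℕ) (a : ℕ → ℂ), RelQ f z s₀ d a →
    ∃ T : Module.End E ((σ → ℤ) → E),
      (∀ N' : Submodule E ((σ → ℤ) → E), (∀ j, ∀ F ∈ N', actF σ E (X j) F ∈ N') →
        (∀ j, j ≠ z → ∀ F ∈ N', dF n j F ∈ N') → ∀ F ∈ N', T F ∈ N') ∧
      (∀ F, T (actF σ E (X z) F) = actF σ E (X z) (T F)) ∧
      (∑ e ∈ range (d + 1), (algebraMap ℂ E (a e)) • actF σ E (X z ^ e) (psiF f φ 0)) -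
        (∑ α ∈ f.support, θ α - algebraMap ℂ E s₀) • T (psiF f φ 0) ∈ N

/-- **Row COV** (uses ALG2 = `Alg2Stmt` (landed), BDA = `BDataStmtA`, CHV). Variant of
`Helper88_GEN/COR.lean` (theorems `root` and `cor` at the end; everything else of that file, of
`Base.lean` and of `CoreC.lean` is used unchanged, in particular `N0`, `N0_act`, `N0_d`,
`psi_neg_mem`, `psi_zero`, `psi_pos`, `card_le`, `Iv_pow`).
PROOF. Suppose `a e ≠ 0` for some `e ≤ d`, `e₀` the smallest. `s₀ = ∑ m α`,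
`∑ θ α - s₀ = ν` with `ν ^ k = 0`, `k = card Pq + card Aq + 1`. CHV for `N = N0` gives `T`. Put
`Z = actF (X z)`, `p = ∑_(e ≤ d) a_e Z^e` (an endomorphism, `E`-linear), `ψ = psiF f φ 0`;
`p ψ - ν T ψ ∈ N0`. CLAIM: `p^j ψ - ν^j T^j ψ ∈ N0` for all `j`, by induction:
`p^(j+1) ψ - ν^(j+1) T^(j+1) ψ = p (p^j ψ - ν^j T^j ψ) + ν^j T^j (p ψ - ν T ψ)` because `p` commutes with
`T` (it is a polynomial in `Z` with coefficients in `E`); `N0` is closed under `p` and `T`. For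
`j = k`: `p^k ψ ∈ N0`. As polynomials in `Z`, `p = Z^e₀ U₁(Z)`, `U₁(0) = a e₀`, so
`p^k = Z^(k e₀) U(Z)` with `U = U₁^k`, `U(0) = (a e₀)^k ≠ 0` a unit. The end is as in `root`:
evaluate `Z^(k e₀) U(Z) ψ ∈ N0` at the point `w z = - k e₀`, `w = 0` elsewhere. -/
def CovStmt : Prop :=
  ∀ (σ : Type) [Fintype σ] [DecidableEq σ] (F : MvPolynomial σ ℂ) (z : σ) (κ : σ → ℕ)
    (D : FDA F.support {i | i ≠ z} κ), κ z ≠ 0 → (∃ j, j ≠ z ∧ κ j ≠ 0) →
    SimpA F.support {i | i ≠ z} κ D.N → SumA F.support {i | i ≠ z} κ D.N →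
    ∀ (d : ℕ) (a : ℕ → ℂ), (F.support.card + 1) * d * κ z < D.N →
    RelQ F z (-((∑ i ∈ univ.erase z, (κ i : ℂ)) / (D.N : ℕ))) d a →
    ∀ e ≤ d, a e = 0

/-- **Row SBV** (substitution). Variant of `Helper47_GEN/DSB.lean` (whose lemmas on `Psi`, `jz` can be
used: they hold for every `ψ : A →+* Polynomial ℂ`).
PROOF. The polynomial `a * ∏ X α` is not zero, so there is a point `c : M → ℂ` where it does not
vanish (`ℂ` is an infinite field, `ℚ → ℂ` is injective: `MvPolynomial.funext` for the image in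
`MvPolynomial M ℂ`). `f = ∑ monomial α (c α)` has support `M`. For `ω` let
`ψ : MvPolynomial M ℚ → ℂ[z]`, `X α ↦ c α z^(ω α)`; `ψ a ≠ 0` because its value at `z = 1` is
`a(c) ≠ 0`. `Psi ψ` maps `fgen M` to `liftF ω f` and intertwines `pderiv i` with `pderiv (some i)`, so
it maps the relation to the one of `RelQ` with `b e = (ψ a).coeff e`, `d = (ψ a).natDegree`. -/
def SbvStmt : Prop :=
  ∀ (σ : Type) [Fintype σ] (M : Finset (σ →₀ ℕ)) (s₀ : ℚ) (a : MvPolynomial M ℚ)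
    (P Q : List (Polynomial (MvPolynomial σ (MvPolynomial M ℚ)) × List σ)), a ≠ 0 →
    (∀ n : ℕ, C a * fgen M ^ n =
      C ((n : MvPolynomial M ℚ) - algebraMap ℚ (MvPolynomial M ℚ) s₀) * opR Q n (fgen M ^ n) +
        opR P n (fgen M ^ (n + 1))) →
    ∃ f : MvPolynomial σ ℂ, f.support = M ∧ ∀ ω : (σ →₀ ℕ) → ℕ, ∃ (d : ℕ) (b : ℕ → ℂ),
      RelQ (liftF ω f) none (s₀ : ℂ) d b ∧ ∃ e ≤ d, b e ≠ 0

/-- **Row ROV** (uses STR, COV, SBV, GWB). Variant of `Helper6_GEN/ROO.lean`.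
PROOF. If `a ≠ 0` take `f` from SBV; GWB for `f` (support `M`) gives `ω`, `K₀`; SBV gives `d`, `b`.
The rest is as in ROO, with COV in place of COR: all `b e`, `e ≤ d`, vanish. Contradiction. -/
def RovStmt : Prop :=
  ∀ (σ : Type) [Fintype σ] (M : Finset (σ →₀ ℕ)) (κ : σ → ℕ) (N : ℕ) (B : Finset (σ →₀ ℕ)),
    0 < N → (∀ α ∈ M, N ≤ dot κ α) → B ⊆ M → B.Nonempty →
    (∀ α ∈ B, dot κ α = N) →
    (∀ t : B → ℤ, (∀ j, ∑ α, t α * (((α : σ →₀ ℕ) j : ℕ) : ℤ) = 0) → t = 0) →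
    (∀ v : σ → ℚ, (∀ i, κ i = 0 → v i = 0) → (∀ α ∈ B, ∑ i, v i * (α i : ℚ) = 0) →
      ∑ i, v i = 0) →
    (∀ A ∈ B, ∀ j, κ j ≠ 0 → A j = 1 → (∀ β ∈ B, β ≠ A → β j = 0) →
      ∃ l, l ≠ j ∧ κ l ≠ 0 ∧ A l = 1 ∧ ∀ β ∈ B, β ≠ A → β l = 0) →
    ∀ (s₀ : ℚ), s₀ = -(((∑ i, κ i : ℕ) : ℚ) / (N : ℕ)) →
    ∀ (a : MvPolynomial M ℚ) (P Q : List (Polynomial (MvPolynomial σ (MvPolynomial M ℚ)) × List σ)),
    (∀ n : ℕ, C a * fgen M ^ n =
      C ((n : MvPolynomial M ℚ) - algebraMap ℚ (MvPolynomial M ℚ) s₀) * opR Q n (fgen M ^ n) +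
        opR P n (fgen M ^ (n + 1))) → a = 0

/-- **Row XTV** (from large `n` to all `n`). PROOF. For every word `w` and `K ≥ |w|` there is
`W ∈ A[x][s]` with `f^K * dWordR w (f^n) = W(n) * f^n` for all `n` (induction on `w`: apply
`f * pderiv i` to `W(n) f^n`, `f * pderiv i (W(n) f^n) = (f * pderiv i (W(n)) + n W(n) pderiv i f) f^n`
and `f^(K+1) * pderiv i g = f * pderiv i (f^K g) - K (pderiv i f) f^K g`; compare `exists_pw` in
`Helper42_Simp/ERoot.lean` and `Helper48_GEN/ERA.lean`); the same for `f^(n+1) = f * f^n`. So for a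
large `K` the difference of the two sides, multiplied by `f^K`, is `W(n) f^n` for all `n`, for some
polynomial `W` in `s` with coefficients in the domain `A[x]` of characteristic zero. `W(n) = 0` for
all large `n`, so `W = 0`, and the difference vanishes for all `n` (cancel `f^K`). -/
def XtvStmt : Prop :=
  ∀ (σ : Type) [Finite σ] (A : Type) [CommRing A] [IsDomain A] [CharZero A]
    (f : MvPolynomial σ A), f ≠ 0 → ∀ (a s₀ : A)
    (P Q : List (Polynomial (MvPolynomial σ A) × List σ)),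
    (∃ n₀ : ℕ, ∀ n ≥ n₀, C a * f ^ n =
      C ((n : A) - s₀) * opR Q n (f ^ n) + opR P n (f ^ (n + 1))) →
    ∀ n : ℕ, C a * f ^ n = C ((n : A) - s₀) * opR Q n (f ^ n) + opR P n (f ^ (n + 1))

/-- **Row RVL** (uses ROV, XTV): ROV for the relations which hold for all large `n`. PROOF.
`fgen M ≠ 0` since `M` is not empty (its coefficient at `α ∈ M` is `X α`). -/
def RvlStmt : Prop :=
  ∀ (σ : Type) [Fintype σ] (M : Finset (σ →₀ ℕ)) (κ : σ → ℕ) (N : ℕ) (B : Finset (σ →₀ ℕ)),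
    0 < N → (∀ α ∈ M, N ≤ dot κ α) → B ⊆ M → B.Nonempty →
    (∀ α ∈ B, dot κ α = N) →
    (∀ t : B → ℤ, (∀ j, ∑ α, t α * (((α : σ →₀ ℕ) j : ℕ) : ℤ) = 0) → t = 0) →
    (∀ v : σ → ℚ, (∀ i, κ i = 0 → v i = 0) → (∀ α ∈ B, ∑ i, v i * (α i : ℚ) = 0) →
      ∑ i, v i = 0) →
    (∀ A ∈ B, ∀ j, κ j ≠ 0 → A j = 1 → (∀ β ∈ B, β ≠ A → β j = 0) →
      ∃ l, l ≠ j ∧ κ l ≠ 0 ∧ A l = 1 ∧ ∀ β ∈ B, β ≠ A → β l = 0) →
    ∀ (s₀ : ℚ), s₀ = -(((∑ i, κ i : ℕ) : ℚ) / (N : ℕ)) →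
    ∀ (a : MvPolynomial M ℚ) (P Q : List (Polynomial (MvPolynomial σ (MvPolynomial M ℚ)) × List σ)),
    (∃ n₀ : ℕ, ∀ n ≥ n₀, C a * fgen M ^ n =
      C ((n : MvPolynomial M ℚ) - algebraMap ℚ (MvPolynomial M ℚ) s₀) * opR Q n (fgen M ^ n) +
        opR P n (fgen M ^ (n + 1))) → a = 0

end Pool.Agent.GEN
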