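import Pool.Agent.GEN.DefsU
import Pool.Agent.GEN.StmtsV
import Pool.Agent.GEN.DefsG

/-!
# Squad GEN, block U: Zariski general coefficients

For every finite set `M` of exponents there is a nonzero polynomial `H` over `ℚ` in the
coefficients such that all complex polynomials with support `M` and `H (coefficients) ≠ 0` have the
same properties as the ones with algebraically independent coefficients (`GncStmt`).

ROOT SIDE. `A = ℚ[X_α : α ∈ M]`, `f = fgen M`. A Groebner basis argument with symbols (rows GRB,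
EXH) replaces the Weyl algebra. `act n w p` is the value of the operator with symbol `p` at `s = n`
on `w`. The kernel `UU (map φ f) 0` of the symbols killing `(φ f) ^ s` is spanned by the image of the
kernel over `A` (KER), because `J(c) = {p : p f^(s+c) ∈ D[s] f^(s+c+1)}` has a complement after the
localisation in one `h ∈ A` which works for all `c ∈ ℤ` at the same time (shift of `s`). Then a
functional equation for `φ f` with `b(s₀) ≠ 0` is impossible since `1` is not in the span of the
image of `JB f s₀` (RVL of block V) (SEM).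
ZETA SIDE. Smoothness in the torus spreads out (SPO, NPO).
All rows with hypotheses can be started at once.
-/

set_option autoImplicit false
set_option linter.unusedVariables false

namespace Pool.Agent.GEN

open MvPolynomial Finset Pool.Agent.Helper6_Mono Pool.Agent.Helper30_Simp
  Pool.Agent.Helper30_Simp2

/-- **Row GRB** (Groebner lemma; no hypotheses; medium). `A` is a domain, `L y` (`y ∈ Y`) are
`A`-linear maps with `L y p = X y * p + (terms of degree ≤ deg p)`, `J` is closed under them.
PROOF. Choose a linear order on the finite set `Y` and let `m = MonomialOrder.degLex`. For `p ≠ 0`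
the degree (leading exponent) of `L y p` is `m.degree p + single y 1` and the leading coefficients of
`L y p` and `p` are equal: `degree_mul`, `degree_X`, and the total degree of the other terms is at
most `p.totalDegree = (m.degree p).degree` (`degree_degLexDegree`), smaller than the degree of
`m.degree p + single y 1` (`degree_add_of_lt`). Let `E = {m.degree p : p ∈ J, p ≠ 0}`, closed under
addition of every `β` (iterate). There is a finite `G ⊆ J \ {0}` such that every element of `E` is
`≥ m.degree g` for some `g ∈ G` (Dickson: the monomial ideal of `ℚ[Y]` generated by the monomials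
with exponents in `E` is finitely generated, or `Set.IsPWO` of `Y →₀ ℕ`). Put `B = Eᶜ`,
`h = ∏_(g ∈ G) leadingCoeff g ≠ 0`.
(1) by well founded induction on the degree `α` of `p` (`m.toSyn` is well founded): if `p = 0` clear.
If `α ∉ E`, apply the induction to `p' = p - leadingTerm p` (or `p' = 0`):
`h^e p' = j + q`, `h^e p = j + (q + h^e leadingTerm p)`. If `α ∈ E`, `α = m.degree g + β`, `g ∈ G`, let
`g' ∈ J` be obtained from `g` by applying the `L y` (`β y` times), `m.degree g' = α`,
`leadingCoeff g' = leadingCoeff g`, `h = h' * leadingCoeff g`; then `h p - c h' g'`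
(`c = leadingCoeff p`) is `0` or has smaller degree; induction.
(2) `q ∈ J`, `q ≠ 0` supported in `B`: `m.degree q ∈ E ∩ B`. (3) If `0 ∈ E` then some `p ∈ J`, `p ≠ 0`,
has degree `0`, so `p = C a`, `a ≠ 0`. -/
def GrbStmt : Prop :=
  ∀ (Y A : Type) [Finite Y] [CommRing A] [IsDomain A]
    (L : Y → MvPolynomial Y A →ₗ[A] MvPolynomial Y A)
    (hL : ∀ y p, (L y p - X y * p).totalDegree ≤ p.totalDegree)
    (J : Submodule A (MvPolynomial Y A)) (hJ : ∀ y, ∀ p ∈ J, L y p ∈ J),
    ∃ (h : A) (B : Set (Y →₀ ℕ)), h ≠ 0 ∧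
      (∀ p : MvPolynomial Y A, ∃ (e : ℕ) (j q : MvPolynomial Y A), j ∈ J ∧
        (∀ m ∈ q.support, m ∈ B) ∧ C (h ^ e) * p = j + q) ∧
      (∀ q ∈ J, (∀ m ∈ q.support, m ∈ B) → q = 0) ∧
      ((∀ a : A, C a ∈ J → a = 0) → (0 : Y →₀ ℕ) ∈ B)

/-- **Row EXH** (uses GRB; easy). PROOF. `h`, `B` from GRB. Let `φ : A → K`, `φ h ≠ 0`. For a
semilinear `g : J → W` and a semilinear `g₀ : MvPolynomial Y A → W` put
`g' p = (φ h ^ e)⁻¹ • (g j + g₀ q)` for a decomposition `C (h ^ e) * p = j + q` of GRB. It does not
depend on the decomposition: for two of them `h^e' • j - h^e • j' = h^e • q' - h^e' • q` lies in `J` and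
is supported in `B`, so it is zero. Hence `g'` is semilinear (decompositions can be added, after
multiplication with powers of `h`, and multiplied with elements of `A`), `g' = g` on `J`
(decomposition `e = 0`, `q = 0`), and `g' = g₀` on the polynomials supported in `B`. For `ExtH` take
`g₀ = 0`. For `NuH` take `g = 0` and `g₀ = φ ∘ coeff 0`; `g' 1 = 1` because `0 ∈ B`. -/
def ExhStmt : Prop :=
  ∀ (Y A : Type) [Finite Y] [CommRing A] [IsDomain A]
    (L : Y → MvPolynomial Y A →ₗ[A] MvPolynomial Y A)
    (hL : ∀ y p, (L y p - X y * p).totalDegree ≤ p.totalDegree)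
    (J : Submodule A (MvPolynomial Y A)) (hJ : ∀ y, ∀ p ∈ J, L y p ∈ J),
    ∃ h : A, h ≠ 0 ∧ ExtH J h ∧ ((∀ a : A, C a ∈ J → a = 0) → NuH J h)

/-- **Row SYC** (calculus of symbols; no hypotheses; easy). PROOF. `act l w` is linear, so take
`p = monomial m c` and use `act_monomial`; `X y * monomial m c = monomial (m + single y 1) c`.
`dWordR` does not change if the word is permuted (the `pderiv i` commute), so
`dE (β + single i 1) w = pderiv i (dE β w)`; `pderiv i` of a product; `pderiv (some (inl i))` of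
`monomial m c` is `monomial (m - single _ 1) (c * m _)`, whose `xp` is `xp m - single i 1`, whose `dp`
and value at `none` are the ones of `m`. The difference `Lop y p - X y * p` is `0` or a
derivative of `p`, whose total degree is at most the one of `p` (coefficientwise: the support of
`pderiv i p` consists of exponents `m` with `m + single i 1` in the support of `p`). Linearity in
`w`: `dE β` is linear. -/
def SycStmt : Prop :=
  ∀ (σ A : Type) [CommRing A] (l : A) (w : MvPolynomial σ A) (p : Sm σ A),
    act l w (Lop none p) = C l * act l w p ∧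
    (∀ i : σ, act l w (Lop (some (Sum.inl i)) p) = X i * act l w p) ∧
    (∀ i : σ, act l w (Lop (some (Sum.inr i)) p) = pderiv i (act l w p)) ∧
    (∀ y : SY σ, (Lop y p - X y * p).totalDegree ≤ p.totalDegree) ∧
    (∀ (c : A) (w' : MvPolynomial σ A), act l (C c * w + w') p = C c * act l w p + act l w' p) ∧
    act l w 1 = w

/-- **Row AMP** (compatibility with homomorphisms of the coefficients; no hypotheses; easy).
PROOF. Both sides are additive in `p`; for monomials `act_monomial`, `map_monomial`, and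
`map φ (dWordR v w) = dWordR v (map φ w)` by induction on the word `v` (`pderiv_map`). -/
def AmpStmt : Prop :=
  ∀ (σ A K : Type) [CommRing A] [CommRing K] (φ : A →+* K) (l : A) (w : MvPolynomial σ A)
    (p : Sm σ A), map φ (act l w p) = act (φ l) (map φ w) (map φ p)

/-- **Row RMU** (composition with the multiplication by `F`; uses SYC; easy). PROOF. For every
exponent `m` there is a linear map `Λ : Sm σ A → Sm σ A`, a composition of maps `Lop y`, with
`act l w (Λ p) = C (l ^ m none) * monomial (xp m) 1 * dE (dp m) (act l w p)` for all `l`, `w`, `p` (SYC;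
induction, e.g. first the letters of the word of `dp m`, then powers of `Lop (some (inl i))` by
`MvPolynomial.induction_on` or `Finsupp.induction` for the monomial in the `x_i`, then the power of
`Lop none`). The symbol `φ F = rename (fun i => some (inl i)) F` satisfies `act l w (φ F) = F * w`
(monomials). `R` is the linear map with `R (monomial m 1) = Λ_m (φ F)`
(`(basisMonomials _ _).constr`): `act l w (R (monomial m 1)) = act l (F * w) (monomial m 1)`. -/
def RmuStmt : Prop :=
  ∀ (σ A : Type) [CommRing A] (F : MvPolynomial σ A), ∃ R : Sm σ A →ₗ[A] Sm σ A,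
    ∀ (l : A) (w : MvPolynomial σ A) (p : Sm σ A), act l w (R p) = act l (F * w) p

/-- **Row SHS** (shift of `s`; uses SYC; easy). PROOF. `τ` is the algebra map with
`X none ↦ X none + C c`, `X (some y) ↦ X (some y)`, bijective with inverse `X none ↦ X none - C c`
(`AlgEquiv.ofAlgHom`, then `toLinearEquiv`). For `p = X none * p'`: `τ p = (X none + C c) * τ p'`, and
`act l w ((X none + C c) * q) = C (l + c) * act l w q` by SYC (`Lop none q = X none * q`); so by
induction on `k` the claim holds for `X none ^ k * monomial m 1`, `m none = 0` (then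
`τ (monomial m 1) = monomial m 1` and `act` does not depend on `l`), and these elements span. -/
def ShsStmt : Prop :=
  ∀ (σ A : Type) [CommRing A] (c : A), ∃ τ : Sm σ A ≃ₗ[A] Sm σ A,
    ∀ (l : A) (w : MvPolynomial σ A) (p : Sm σ A), act l w (τ p) = act (l + c) w p

/-- **Row JCL** (uses SYC; easy). PROOF. Apply `Lop y` to the symbols `r`, `q` of the definitions of
`JA`, `JB`: by SYC both sides are multiplied by `C n`, or by `X i`, or derived by `pderiv i` (a
derivation over `A`, so it commutes with `((n : A) - s₀) •`). -/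
def JclStmt : Prop :=
  ∀ (σ A : Type) [CommRing A] (F : MvPolynomial σ A) (y : SY σ),
    (∀ (c : ℤ), ∀ p ∈ JA F c, Lop y p ∈ JA F c) ∧ ∀ s₀ : A, ∀ p ∈ JB F s₀, Lop y p ∈ JB F s₀

/-- **Row SHJ** (the same `h` for all shifts; uses SHS; easy). PROOF. `τ` from SHS for `(c : A)`.
CLAIM: `p ∈ JA F 0 ↔ τ p ∈ JA F c`. If `act n (F ^ n) p = act n (F ^ (n + 1)) r` for `n ≥ n₀` then for
`n ≥ n₀ + |c|` and `n' = n + c` (a natural number `≥ n₀`, `((n' : ℕ) : A) = n + c`)
`act n (pw F c n) (τ p) = act (n + c) (F ^ n') p = act n' (F ^ (n' + 1)) r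
= act n (pw F (c + 1) n) (τ r)`. The converse in the same way with the inverse of `τ`
(`act l w (τ.symm p) = act (l - c) w p`). For `g : JA F c → W` apply `ExtH (JA F 0) h` to
`j ↦ g (τ j)` and compose the result with `τ.symm`. -/
def ShjStmt : Prop :=
  ∀ (σ A : Type) [CommRing A] (F : MvPolynomial σ A) (h : A) (c : ℤ),
    ExtH (JA F 0) h → ExtH (JA F c) h

/-- **Row POW** (derivatives of powers; no hypotheses; easy). PROOF. First: for every `β` and every
`d` with `β.degree ≤ d` there is a polynomial `Q` in `s` with coefficients in `A[x]` with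
`dE β (F ^ n) = Q(n) F ^ (n - d)` for all `n ≥ d`. Induction on `β` (or on the length of the word):
`pderiv i (Q(n) F ^ (n - d)) = (F * (pderiv i Q)(n) + (n - d) Q(n) * pderiv i F) F ^ (n - d - 1)` for
`n ≥ d + 1`; to enlarge `d` multiply `Q` with `F`. (Compare `exists_pw` in
`Helper42_Simp/ERoot.lean`.) Then multiply with `s ^ (m none)` and `x ^ (xp m)`. As a symbol:
`q = ∑_k X none ^ k * rename (fun i => some (inl i)) (Q.coeff k)`; its exponents have `dp = 0`
and `act n w q = Q(n) * w`. -/
def PowStmt : Prop :=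
  ∀ (σ A : Type) [CommRing A] (F : MvPolynomial σ A) (m : SY σ →₀ ℕ) (d : ℕ), m.degree ≤ d →
    ∃ q : Sm σ A, (∀ m' ∈ q.support, dp m' = 0) ∧
      ∀ n : ℕ, d ≤ n → act (n : A) (F ^ n) (monomial m 1) = act (n : A) (pw F (-d) n) q

/-- **Row VAN** (no hypotheses; easy). PROOF. `act n w q = Q(n) * w` with the polynomial
`Q = ∑_m C(coeff m q * x^(xp m)) s^(m none)` in `s` with coefficients in the domain `K[x]` of
characteristic zero. `pw G c n ≠ 0`, so `Q(n) = 0` for all large `n`, hence `Q = 0`
(`Polynomial.eq_zero_of_infinite_isRoot`). The exponents `m` of `q` are determined by `m none` and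
`xp m` (since `dp m = 0`), so all coefficients of `q` vanish. -/
def VanStmt : Prop :=
  ∀ (σ K : Type) [CommRing K] [IsDomain K] [CharZero K] (G : MvPolynomial σ K), G ≠ 0 →
    ∀ (c : ℤ) (q : Sm σ K), (∀ m ∈ q.support, dp m = 0) → q ∈ UU G c → q = 0

/-- **Row INJ** (purity; no hypotheses; medium). PROOF. `W = Sm σ K ⧸ spn φ (UU F (c + 1))`. For
`j ∈ JA F c` choose `r` as in the definition of `JA`; the class `[map φ r] ∈ W` does not depend on the
choice (two choices differ by an element of `UU F (c + 1)`), so this is a semilinear map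
`g : JA F c → W`. ExtH gives `g' : Sm σ A → W`. (1) `g'` kills `UU F c` (`r = 0`). (2)
`g' (R p) = [map φ p]`: for `n` with `0 ≤ n + c` we have `F * pw F c n = pw F (c + 1) n`, so
`act n (pw F c n) (R p) = act n (pw F (c + 1) n) p` (`r = p`). Let `G : Sm σ K → W` be the `K`-linear
map with `G (monomial m 1) = g' (monomial m 1)`; `G (map φ p) = g' p` for all `p` (write `p` as the sum
of its monomials). By (1) `G` kills `spn φ (UU F c)`. By (2) `G (RK T) = [T]` for
`T = monomial m 1 = map φ (monomial m 1)`, so for all `T` by linearity. Hence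
`RK T ∈ spn φ (UU F c)` gives `[T] = 0`. -/
def InjStmt : Prop :=
  ∀ (σ A K : Type) [CommRing A] [Field K] (φ : A →+* K) (F : MvPolynomial σ A) (h : A) (c : ℤ),
    ExtH (JA F c) h → φ h ≠ 0 →
    ∀ (R : Sm σ A →ₗ[A] Sm σ A),
      (∀ (l : A) (w : MvPolynomial σ A) (p : Sm σ A), act l w (R p) = act l (F * w) p) →
    ∀ (RK : Sm σ K →ₗ[K] Sm σ K), (∀ p : Sm σ A, RK (map φ p) = map φ (R p)) →
    ∀ T : Sm σ K, RK T ∈ spn φ (UU F c) → T ∈ spn φ (UU F (c + 1))

/-- **Row KER** (the kernel of the specialisation; uses RMU, SHJ, POW, VAN, INJ, AMP; medium).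
PROOF. `R` from RMU, `RK` the `K`-linear map with `RK (monomial m 1) = map φ (R (monomial m 1))`, then
`RK (map φ p) = map φ (R p)` for all `p`. `d = T.totalDegree`. By iteration
`act l w (R^d p) = act l (F ^ d * w) p`, `RK^d (map φ p) = map φ (R^d p)`. For `m ∈ T.support`
(`m.degree ≤ d`) let `q_m` be from POW and `u_m = R^d (monomial m 1) - q_m`; `u_m ∈ UU F (-d)` because
for `n ≥ d`
`act n (pw F (-d) n) (R^d (monomial m 1)) = act n (F ^ d * F ^ (n - d)) (monomial m 1)
= act n (F ^ n) (monomial m 1) = act n (pw F (-d) n) q_m`. So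
`RK^d T = ∑_m T_m • map φ u_m + Q`, `Q = ∑_m T_m • map φ q_m`; the exponents of `Q` have `dp = 0`, and
for large `n`, with AMP, `act n (pw (map φ F) (-d) n) Q = ∑ T_m • map φ (act n (pw F (-d) n) q_m)
= ∑ T_m • map φ (act n (F ^ n) (monomial m 1)) = act n ((map φ F) ^ n) T = 0`. VAN: `Q = 0`. So
`RK^d T ∈ spn φ (UU F (-d))`. INJ (with SHJ) for `c = -d, ..., -1`, applied to `RK^(d-1) T, ..., T`:
`RK^(d-i) T ∈ spn φ (UU F (-d+i))` for all `i ≤ d` (induction on `i`), in particular `i = d`. -/
def KerStmt : Prop :=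
  ∀ (σ A K : Type) [CommRing A] [Field K] [CharZero K] (φ : A →+* K) (F : MvPolynomial σ A)
    (h : A), ExtH (JA F 0) h → φ h ≠ 0 → map φ F ≠ 0 →
    ∀ T : Sm σ K, T ∈ UU (map φ F) 0 → T ∈ spn φ (UU F 0)

/-- **Row LSY** (from lists to symbols; uses SYC; easy). PROOF. Sum over the list. For a pair
`(a, v)`: apply `Lop (some (inr i))` for the letters of `v` to the symbol `1` (`act l w 1 = w`): this
gives a symbol with value `dWordR v w`. If `p` is a symbol then for `g ∈ A[x]` there is a symbol with
value `g * act l w p` (`MvPolynomial.induction_on g`), and with value `C l * act l w p`; so for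
`a = ∑ a_k s^k` there is one with value `a(n) * act n w p` (`Polynomial.induction_on`). -/
def LsyStmt : Prop :=
  ∀ (σ A : Type) [CommRing A] (P : List (Polynomial (MvPolynomial σ A) × List σ)),
    ∃ p : Sm σ A, ∀ (n : ℕ) (w : MvPolynomial σ A), act (n : A) w p = opR P n w

/-- **Row SYL** (from symbols to lists; no hypotheses; easy). PROOF. The list of the pairs
`(Polynomial.monomial (m none) (monomial (xp m) (coeff m p)), (toMultiset (dp m)).toList)`,
`m ∈ p.support` (`act_monomial`, `p = ∑ monomial m (coeff m p)`); or by induction on `p`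
(`MvPolynomial.induction_on'`), appending lists. -/
def SylStmt : Prop :=
  ∀ (σ A : Type) [CommRing A] (p : Sm σ A),
    ∃ P : List (Polynomial (MvPolynomial σ A) × List σ),
      ∀ (n : ℕ) (w : MvPolynomial σ A), act (n : A) w p = opR P n w

/-- **Row SEM** (semicontinuity of the roots; uses GLB (landed), EXH, SYC, JCL, AMP, RMU, LSY, KER;
medium).
PROOF. EXH for `L = Lop` (SYC), `J = JA F 0` (JCL) gives `h₁`, for `J = JB F s₀` it gives `h₂` with
`NuH (JB F s₀) h₂`. `H = h₁ * h₂`. Let `φ H ≠ 0`, `G = map φ F ≠ 0`, `b(s₀) ≠ 0`, `LocalBS G b`. GLB: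
`C (b n) * G ^ n = opR P n (G ^ (n + 1))` for all `n` (`dWord = dWordR` over `ℂ`, by `rfl`). LSY: a
symbol `p` with `act n w p = opR P n w`. Let `B = Polynomial.aeval (X none) b : Sm σ ℂ`;
`act n w B = C (b n) * w` (SYC: `act n w (X none * q) = C n * act n w q`). `R` from RMU, `RK` its
`ℂ`-linear extension (see KER), `act n (G ^ n) (RK p) = act n (G ^ (n + 1)) p` (write `p` as a
combination of the `monomial m 1 = map φ (monomial m 1)` and use AMP, RMU). So
`T = B - RK p ∈ UU G 0`, and KER gives `T ∈ spn φ (UU F 0)`. Let `ν : Sm σ A → ℂ` be the semilinear map of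
`NuH`, and `N : Sm σ ℂ → ℂ` the linear map with `N (monomial m 1) = ν (monomial m 1)`, so
`N (map φ p) = ν p`. `N T = 0` because `UU F 0 ⊆ JB F s₀` (`r = q = 0`); `N (RK p) = 0` because
`R (monomial m 1) ∈ JB F s₀` (`r = monomial m 1`, `q = 0`);
`N ((X none - C s₀) * X none ^ k) = 0` because `(X none - C s₀) * X none ^ k ∈ JB F s₀` (`r = 0`,
`q = X none ^ k`). Since `b = C (b s₀) + (X - C s₀) b₁` we get `0 = N B = b(s₀) N 1 = b(s₀)`.
Contradiction. -/
def SemStmt : Prop :=
  ∀ (σ A : Type) [Finite σ] [CommRing A] [IsDomain A] [Algebra ℚ A] (F : MvPolynomial σ A)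
    (s₀ : ℚ), (∀ a : A, C a ∈ JB F (algebraMap ℚ A s₀) → a = 0) →
    ∃ H : A, H ≠ 0 ∧ ∀ φ : A →+* ℂ, φ H ≠ 0 → map φ F ≠ 0 →
      ∀ b : Polynomial ℂ, LocalBS (map φ F) b → b.eval (s₀ : ℂ) = 0

/-- **Row RTO** (uses RVL, SYL, SEM; easy). PROOF. `A = MvPolynomial M ℚ`, `F = fgen M`,
`s₀ = - |κ| / N`. If `C a ∈ JB F s₀` then SYL turns the symbols `r`, `q` into lists, the relation becomes
the one of RVL (`act n w (C a) = C a * w`, `c • g = C c * g`), so `a = 0`. SEM gives `H`. For `F'` with
support `M` let `φ = aeval (coefficients)`; `map φ (fgen M) = F'` (compare the coefficients), not zero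
because `M ⊇ B` is not empty. All `b` with `LocalBS F' b` vanish at `s₀`, hence `bfun F'` too (it
generates the ideal spanned by them; see the end of `Helper30_Simp2/CoreC.lean`). -/
def RtoStmt : Prop :=
  ∀ (σ : Type) [Fintype σ] (M : Finset (σ →₀ ℕ)) (κ : σ → ℕ) (N : ℕ) (B : Finset (σ →₀ ℕ)),
    0 < N → (∀ α ∈ M, N ≤ dot κ α) → B ⊆ M → B.Nonempty →
    (∀ α ∈ B, dot κ α = N) →
    (∀ t : B → ℤ, (∀ j, ∑ α, t α * (((α : σ →₀ ℕ) j : ℕ) : ℤ) = 0) → t = 0) →
    (∀ v : σ → ℚ, (∀ i, κ i = 0 → v i = 0) → (∀ α ∈ B, ∑ i, v i * (α i : ℚ) = 0) →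
      ∑ i, v i = 0) →
    (∀ A ∈ B, ∀ j, κ j ≠ 0 → A j = 1 → (∀ β ∈ B, β ≠ A → β j = 0) →
      ∃ l, l ≠ j ∧ κ l ≠ 0 ∧ A l = 1 ∧ ∀ β ∈ B, β ≠ A → β l = 0) →
    ∃ H : MvPolynomial M ℚ, H ≠ 0 ∧ ∀ F : MvPolynomial σ ℂ, F.support = M →
      aeval (fun α : M => F.coeff (α : σ →₀ ℕ)) H ≠ 0 →
      (bfun F).eval (-(((∑ i, κ i : ℕ) : ℂ) / (N : ℕ))) = 0

/-- **Row SPO** (spreading out of smoothness in the torus; no hypotheses; easy). PROOF.
`(∏ X) ^ n = q * g + ∑_j q_j * pderiv j g` over `K` (`Ideal.mem_radical_iff`,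
`Submodule.mem_span_insert`, `Ideal.mem_span_range_iff_exists_fun`). Let `h ∈ A`, `h ≠ 0`, be a
common denominator of the finitely many coefficients of `q`, `q_j`
(`IsLocalization.exist_integer_multiples`); then `C h * (∏ X) ^ n = q' * g + ∑_j q'_j * pderiv j g`
over `A` (`map (algebraMap A K)` is injective). Apply `φ`; `φ h` is a unit. -/
def SpoStmt : Prop :=
  ∀ (σ A K : Type) [Fintype σ] [CommRing A] [IsDomain A] [Field K] [Algebra A K]
    [IsFractionRing A K] (g : MvPolynomial σ A), TorusSmooth (map (algebraMap A K) g) →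
    ∃ h : A, h ≠ 0 ∧ ∀ (k : Type) [Field k] (φ : A →+* k), φ h ≠ 0 → TorusSmooth (map φ g)

/-- **Row NPO** (uses `SmoStmt` (landed: `H64.smo H51.dex`), SPO; easy). PROOF.
`A = MvPolynomial M ℚ`, `K = FractionRing A` (characteristic zero). `f = map (algebraMap A K) (fgen M)`
has support `M` and the coefficient `X α` at `α`; these are algebraically independent over `ℚ`
(`A → K` is injective). SMO: for `I ⊆ M` nonempty `part f I` is smooth in the torus, and it is the
image of `g_I = ∑_(α ∈ I) monomial α (coeff α (fgen M))`. SPO gives `h_I`, `H = ∏_I h_I` over the nonempty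
subsets `I` of `M`. For `F` with support `M` and `φ = aeval (coefficients)`: `part F I = map φ g_I`
(for `α ∈ M`, `φ (X α) = F.coeff α`). -/
def NpoStmt : Prop :=
  ∀ (σ : Type) [Fintype σ] (M : Finset (σ →₀ ℕ)), ∃ H : MvPolynomial M ℚ, H ≠ 0 ∧
    ∀ F : MvPolynomial σ ℂ, F.support = M →
      aeval (fun α : M => F.coeff (α : σ →₀ ℕ)) H ≠ 0 → NDP F

/-! **Row GNC** (`GncStmt` of `DefsG.lean`; uses RTO, NPO; easy). PROOF. For `B ⊆ M` and
`Z ⊆ σ` (finitely many pairs) let `H_(B,Z)` be the polynomial of RTO for some data `(κ, N, B)` as in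
`Roots` with `Z = {i | κ i = 0}` if there are such data, and `1` otherwise. `H` = product of all
`H_(B,Z)` and of the polynomial of NPO. If `H (coefficients of F) ≠ 0`: NPO gives `NDP F`. Let
`(κ', N', B)` be data as in `Roots`, `Z = {i | κ' i = 0}`, `(κ, N, B)` the chosen data. The vector
`v = κ / N - κ' / N'` vanishes on `Z` and `∑ v i α i = 1 - 1 = 0` for `α ∈ B`, so `∑ v i = 0` by the
flatness: `|κ'| / N' = |κ| / N`, and RTO gives the root. -/

end Pool.Agent.GEN
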