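import Pool.Agent.GEN.DefsZ

/-!
# Squad GEN, block Z: the zeta function side, combinatorics and algebra

PLAN. `M` is a support in which every exponent vector has at most one entry equal to `1`
(`S1 M`), `x ≠ 1` a slope. `RAD`, `KPA`, `KPR`: either the face of some flat point has a base
without any private coordinate (then `x` gives a root of `b_f`, row `ROO` of block R), or all flat
points have weak stable sets (`KAll M x`). In the second case the pole of slope `x` cancels: `KRY`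
chooses points on the rays of every flat cone and weights `θ` separating them, `PRD`, `LCW`, `LCK`,
`CPF`, `ZGY`, `ZAK` show that the operator `PZ M z` kills the flat cones, `ZSK` concludes.
-/

set_option autoImplicit false

namespace Pool.Agent.GEN

open PowerSeries Finset Pool.Agent.Helper6_Mono Pool.Agent.Helper30_Simp
  Pool.Agent.Helper30_Simp2

/-! ## Combinatorics -/

/-- **Row RAD** (Rado's theorem). A finite family of finite sets of vectors has an independent
transversal if for every `s` the union of the sets `E i`, `i ∈ s`, has rank at least `|s|`.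
PROOF. Induction on `∑ |E i|`. Suppose some `E i` has two different elements `x₁, x₂`. We claim
that `E i` can be replaced by `E i \ {x₁}` or by `E i \ {x₂}`. If not, there are sets `s₁, s₂`
of indices, not containing `i`, with `r(E_(s₁) ∪ (E i \ x₁)) ≤ |s₁|` and
`r(E_(s₂) ∪ (E i \ x₂)) ≤ |s₂|` (`r` = dimension of the span). Let `U₁, U₂` be the two spans. `U₁ ⊔ U₂`
contains `E_(s₁ ∪ s₂ ∪ {i})`, so it has dimension `≥ |s₁ ∪ s₂| + 1`; `U₁ ⊓ U₂` contains
`E_(s₁ ∩ s₂)`, so it has dimension `≥ |s₁ ∩ s₂|`. Since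
`dim (U₁ ⊔ U₂) + dim (U₁ ⊓ U₂) = dim U₁ + dim U₂` (`Submodule.finrank_sup_add_finrank_inf_eq`) we get
`|s₁| + |s₂| + 1 ≤ |s₁| + |s₂|`, a contradiction. If all `|E i| ≤ 1`, the condition for `s = {i}`
shows `E i = {v i}`, and the condition for `s = univ` says that the `v i` span a space of dimension
`≥ |ι|`, so they are independent (`linearIndependent_iff_card_le_finrank_span`). -/
def RadStmt : Prop :=
  ∀ (ι V : Type) [Fintype ι] [AddCommGroup V] [Module ℚ V] [FiniteDimensional ℚ V]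
    (E : ι → Finset V),
    (∀ s : Finset ι, s.card ≤
      Module.finrank ℚ (Submodule.span ℚ {v : V | ∃ i ∈ s, v ∈ E i})) →
    ∃ v : ι → V, (∀ i, v i ∈ E i) ∧ LinearIndependent ℚ v

/-- **Row KPA** (uses RAD; STRONG). Bases without private coordinates. `I` = the monomials of a
face, `T` = the coordinates of positive weight.
PROOF. Write `V_j = {α ∈ I : α j ≠ 0}`, `E_j = {α ∈ I : α j = 1}`, and
`D = {j ∈ T : (∀ α ∈ I, α j ≤ 1) ∧ ∃ α ∈ I, α j = 1}`, so `V_j = E_j` for `j ∈ D`.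
(1) Every nonempty `K ⊆ D` is stable on `I` (a monomial has at most one entry `1`). By hypothesis
it is not weak: `finrank (VK I K) ≥ |K|`. For each `k ∈ K` choose `α_k ∈ E_k`. The vectors of
`VK I K` have zero `K`-coordinates, the `α_k` have the unit vectors as `K`-coordinates, and both
lie in the span of `E_K = ⋃ E_k`; hence `rank E_K ≥ |K| + |K| = 2 |K|`.
(2) RAD for the index set `D × Fin 2` and the sets `E_(k,b) = E_k` (as vectors of `ℚ^σ`):
`s ⊆ D × Fin 2` has at most `2 |K|` elements, `K` = its projection. We get an independent family, so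
an independent `B₀ ⊆ I` with `|B₀ ∩ E_k| ≥ 2` for all `k ∈ D`. Extend it to a base of `span I`
inside `I`.
(3) Call a subset `B` of `I` admissible if it is independent, spans `span I` and
`|B ∩ E_k| ≥ 2` for `k ∈ D`. For admissible `B` let `priv B` be the set of the `j ∈ T` for which
there is `X ∈ B` with `X j = 1` and `β j = 0` for all `β ∈ B`, `β ≠ X`. Choose an admissible `B`
with the smallest number of elements of `priv B`; we show `priv B = ∅`. Suppose `j ∈ priv B`, with
`X ∈ B`. Then `j ∉ D` (else two elements of `B` contain `j`), so there is `b ∈ I` with `b j ≥ 2`;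
`b ∉ B`. Write `b = ∑_(Y ∈ B) c_Y Y`; the coordinate `j` gives `c_X = b j ≥ 2`.
(4) A STATE is a pair `(Y, i)`, `Y ∈ B`, `i ∈ T`, with `Y i = 1`, `i ∉ D`, `|c_Y| ≥ 2` and
`i, j ∉ priv (B - Y + b)`. `(X, j)` is a state: in `B - X + b` the coordinate `j` occurs only in
`b`, with exponent `≥ 2`.
(5) Let `(Y, i)` be a state. `B' = B - Y + b` is admissible: it is a base since `c_Y ≠ 0`, and
`Y ∉ E_k` for all `k ∈ D` since `Y i = 1`, `i ≠ k`. So `|priv B'| ≥ |priv B|`, and as
`j ∈ priv B \ priv B'` there is `i' ∈ priv B'` with `i' ∉ priv B`; `i' ≠ i, j`. Let `Z ∈ B'` be the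
only element of `B'` containing `i'`, `Z i' = 1`. If `Z = b` then no element of `B - Y` contains
`i'`, so `1 = b i' = c_Y (Y i')`, impossible because `|c_Y| ≥ 2` and `Y i'` is a natural
number. So `Z ∈ B - Y`, `b i' = 0`; no element of `B` except `Y` and `Z` contains `i'`; as
`i' ∉ priv B`, `Y i' ≠ 0`, and `Y i' ≠ 1` since `Y i = 1`, `i ≠ i'` (S1). So `Y i' ≥ 2`, hence
`i' ∉ D`, and `0 = b i' = c_Y (Y i') + c_Z` gives `|c_Z| ≥ 2 |c_Y|`. `(Z, i')` is again a
state: in `B - Z + b` the coordinate `i'` occurs only in `Y`, with exponent `≥ 2`, so it is not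
private; `j` is not private since `b` contains it with exponent `≥ 2` (if `Z ≠ X` then `X`
contains it, too).
(6) Take a state with the largest `|c_Y|`: (5) gives a contradiction (`|c_Z| ≥ 2 |c_Y| > |c_Y|`). -/
def KpaStmt : Prop :=
  ∀ (σ : Type) [Fintype σ] (I : Finset (σ →₀ ℕ)) (T : Finset σ), S1 I →
    (∀ K : Finset σ, K ⊆ T → ¬ KS I K) →
    ∃ B : Finset (σ →₀ ℕ), B ⊆ I ∧
      (∀ t : B → ℚ, (∀ j, ∑ α, t α * (((α : σ →₀ ℕ) j : ℕ) : ℚ) = 0) → t = 0) ∧
      (∀ v : σ → ℚ, (∀ α ∈ B, ∑ i, v i * (α i : ℚ) = 0) →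
        ∀ α ∈ I, ∑ i, v i * (α i : ℚ) = 0) ∧
      ∀ A ∈ B, ∀ j ∈ T, A j = 1 → ∃ β ∈ B, β ≠ A ∧ β j ≠ 0

/-- the data of `RooStmt` for the slope `x` -/
def RooData {σ : Type} [Fintype σ] (M : Finset (σ →₀ ℕ)) (x : ℚ) : Prop :=
  ∃ (κ : σ → ℕ) (N : ℕ) (B : Finset (σ →₀ ℕ)), 0 < N ∧ (∀ α ∈ M, N ≤ dot κ α) ∧ B ⊆ M ∧
    B.Nonempty ∧ (∀ α ∈ B, dot κ α = N) ∧
    (∀ t : B → ℤ, (∀ j, ∑ α, t α * (((α : σ →₀ ℕ) j : ℕ) : ℤ) = 0) → t = 0) ∧
    (∀ v : σ → ℚ, (∀ i, κ i = 0 → v i = 0) → (∀ α ∈ B, ∑ i, v i * (α i : ℚ) = 0) →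
      ∑ i, v i = 0) ∧
    (∀ A ∈ B, ∀ j, κ j ≠ 0 → A j = 1 → (∀ β ∈ B, β ≠ A → β j = 0) →
      ∃ l, l ≠ j ∧ κ l ≠ 0 ∧ A l = 1 ∧ ∀ β ∈ B, β ≠ A → β l = 0) ∧
    ((∑ i, κ i : ℕ) : ℚ) = x * N

/-- **Row KPR** (uses KPA). Weak stable sets or a root.
PROOF. If `KAll M x` fails there is a flat point `(κ, N)`, `κ ≠ 0`, `(κ, N)` in the closed cone of
`S`, `Flat M x S`, without `K ⊆ {κ j ≠ 0}`, `KS (fce M κ) K`. `|κ| = x N`, so `N ≠ 0`. `M` is not
empty (else `(κ, N + 1)` is in the cone too, `x = 0` and `κ = 0`). `N` is the minimum of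
`dot κ α` on `M` and `fce M κ` is the set of the `α ∈ M` with `dot κ α = N` (lemma
`H73.face_iff` of `Helper73_Simp2/Zalg.lean`). KPA for `I = fce M κ`, `T = {κ j ≠ 0}` gives `B`. Flat:
let `v` be supported on `{κ j ≠ 0}` and orthogonal to `B`, hence to `fce M κ`. Multiply by a
natural number to make `v` integral; for large `n` the vector `n κ + v` is `≥ 0`,
`(n κ + v, n N)` has all slacks `≥ 0` (the tight ones stay `0`, the others are `≥ n - C`) and
the walls of `S`, which are tight at `(κ, N)`, are tight (a coordinate wall in `S` is a `j` with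
`κ j = 0`, so `v j = 0`). So `|n κ + v| = x n N = n |κ|` and `∑ v = 0`. `B` is not empty: else all
`v` are orthogonal to `fce M κ ≠ ∅`, so `0 ∈ fce M κ` and `N = 0`. The condition on private
coordinates in `RooData` is empty by the last property of `B`. Independence over `ℤ` follows from
independence over `ℚ`. -/
def KprStmt : Prop :=
  ∀ (σ : Type) [Fintype σ] (M : Finset (σ →₀ ℕ)), S1 M → ∀ x : ℚ, KAll M x ∨ RooData M x

/-- **Row KRY** (uses `GwaStmt` of block R). Points on the rays and separating weights.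
PROOF. Let `R` be flat. Consider the sets `R' ⊇ R` whose cone contains a nonzero point `(u, N)`
(then `u ≠ 0` because `M` is not empty, and `N ≠ 0` since `|u| = x N`), and choose a nonzero point
for each of those which are MAXIMAL for inclusion. `W` = the set of the chosen points. Each
`w ∈ W` is a flat point (`H73.flat_mono`); `K w` from `KAll`; the description of `fce M w.1` by
slacks is `H73.face_iff`. Every `R' ⊇ R` with a nonzero point is contained in a maximal one, whose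
point lies in the cone of `R'`. Let `Kc = ⋃_(w ∈ W) K w`.
(1) If `w ≠ w' ∈ W` come from the maximal sets `R₁, R₂`, the vector
`v = w'.2 • w.1 - w.2 • w'.1` (integral) is not zero: otherwise the tight walls of `w` and `w'`
are the same (slacks are proportional, `w.2, w'.2 > 0`), so `w` lies in the cone of `R₁ ∪ R₂`, and
by maximality `R₁ = R₂`, `w = w'`.
(2) `v` is not supported in `Kc`. Suppose it is. Let `R^c ⊇ R` be the set of all walls which are
tight on the whole cone of `R`, `(u, N)` a relatively interior point (`H73.exists_rel`,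
`H73.Rel`). Let `j ∈ Kc`, `j ∈ K w₀`. `w₀.1 j ≠ 0`, so `u j ≠ 0`. There is a monomial
`α ∈ R^c` with `α j ≠ 0`: otherwise `(u + e_j, N)` is in the cone of `R`, against
`|u| = x N`. `α` is tight at `w₀`, so it is in `fce M w₀.1` and `α j = 1` by stability. If
`j' ∈ Kc`, `α j' ≠ 0`, then `j' ∈ K w₁`, `α ∈ fce M w₁.1`, so `α j' = 1` and `j' = j` by S1. Hence
`∑ v i α i = v j`. But `α` is tight at `w` and `w'`:
`∑ v i α i = w'.2 w.2 - w.2 w'.2 = 0`. So `v j = 0` for all `j ∈ Kc`, `v = 0`, against (1).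
(3) GWA with `ι = σ`, `B = Kc` and `S` = the finite set of the vectors `v` for the pairs
`w ≠ w'` gives `θ`. -/
def KryStmt : Prop :=
  ∀ (σ : Type) [Fintype σ] (M : Finset (σ →₀ ℕ)), M.Nonempty → S1 M → ∀ x : ℚ, KAll M x →
    KRay M x

/-! ## Algebra -/

open scoped Classical in
/-- **Row PRD** (product formula). The variables `y α`, `α ∈ ι`, are distributed among the
blocks `j ∈ K` by `blk`; modulo the ideal `b` the product of the `y α` of each block is `X`.
PROOF. For `z : Finset ι → A` put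
`F z = ∑_I z I * ∏_(α ∈ I) (1 - y α) * ∏_(α ∉ I) y α`. For `j ∈ K` let
`z_j I = (1 - X) * z I + X * z (I without the block j)` if `I` meets the block `j`, and `z_j I = 0`
otherwise. CLAIM: `(1 - X) * F z - F z_j ∈ b`. The terms of `F z` with `I` not meeting the block
`j` are `z I * (terms outside the block) * ∏_(blk α = j) y α`, the last product is `X` modulo `b`,
and `1 - X = 1 - ∏_(blk α = j) y α = ∑_(∅ ≠ I' ⊆ block) ∏_(I') (1 - y) ∏_(block - I') y` modulo `b`
(`Finset.prod_add`), so `(1 - X)` times the sum of these terms is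
`∑_(I meets the block) X * z (I without the block) * (term of I)`. Iterate over the elements of `K`
(induction on a subset `L` of `K`): `(1 - X) ^ |L| * F z - F z_L ∈ b`, where `z_L I` is
`∑_(K' ⊆ L) (1 - X)^|K'| X^(|L| - |K'|) z (I without the blocks in L \ K')` if `I` meets all blocks
of `L`, `0` otherwise. For `L = K` the hypothesis says `z_K = 0`; `(1 - X)^|K|` is a unit. -/
def PrdStmt : Prop :=
  ∀ (ι κ A : Type) [Fintype ι] [CommRing A] (X : A) (b : Ideal A) (K : Finset κ)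
    (blk : ι → Option κ) (y : ι → A), IsUnit (1 - X) →
    (∀ j ∈ K, (∏ α ∈ univ.filter fun α => blk α = some j, y α) - X ∈ b) →
    ∀ z : Finset ι → A,
    (∀ I : Finset ι, (∀ j ∈ K, ∃ α ∈ I, blk α = some j) →
      ∑ K' ∈ K.powerset, (1 - X) ^ K'.card * X ^ (K.card - K'.card) *
        z (I.filter fun α => ∀ j ∈ K, j ∉ K' → blk α ≠ some j) = 0) →
    ∑ I : Finset ι, z I * ((∏ α ∈ I, (1 - y α)) * ∏ α ∈ univ \ I, y α) ∈ b

open scoped Classical in
/-- **Row LCW** (localisation at one of the points). PROOF. Induction on `n` (downward induction on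
`R'`), as in `red` of `Helper73_Simp2/Zalg.lean`. If the cone of `R'` is trivial, `Xs M A R' ∈ a`. Else
it contains some `w' ∈ W`, `w' ≠ w` since `w` is not in the cone of `R'`. By `H73.Ev_eq`,
`Ev M A w'.1 = ET ^ w'.2 * ∏_ρ X_ρ ^ (slack of ρ at w')`, so
`(ET ^ w'.2 - C (τ w'.1)) * Xs R'` is congruent to
`ET ^ w'.2 * (1 - ∏_ρ X_ρ ^ (slack)) * Xs R'` modulo `a`, and the latter is a combination of the
`(1 - X_ρ) * Xs R'` with slack `≠ 0` (`H73.mem_of_walls`); such `ρ` are not in `R'`, so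
`(1 - X_ρ) * Xs R' = Xs (insert ρ R')` (`H73.Xs_insert`), `w` is not in the cone of
`insert ρ R'`, and the induction hypothesis applies to `q ^ n * Xs (insert ρ R')`. The factor
`ET ^ w'.2 - C (τ w'.1)` is a factor of `q`. For `n = 0`: `R' = univ` has a trivial cone. -/
def LcwStmt : Prop :=
  ∀ (σ : Type) [Fintype σ] (M : Finset (σ →₀ ℕ)), M.Nonempty → ∀ (A : Type) [CommRing A]
    (τ : (σ → ℕ) → A) (a : Ideal (MvPolynomial (Wa M) A)),
    (∀ u : σ → ℕ, Ev M A u - MvPolynomial.C (τ u) ∈ a) →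
    (∀ S : Finset (Wa M), (∀ u N, InK M S u N → u = 0 ∧ N = 0) → Xs M A S ∈ a) →
    ∀ (R : Finset (Wa M)) (W : Finset ((σ → ℕ) × ℕ)),
      (∀ R' : Finset (Wa M), R ⊆ R' → (∃ u N, InK M R' u N ∧ (u ≠ 0 ∨ N ≠ 0)) →
        ∃ w ∈ W, InK M R' w.1 w.2) →
      ∀ w ∈ W, ∀ (n : ℕ) (R' : Finset (Wa M)), R ⊆ R' → (univ \ R').card ≤ n →
        ¬ InK M R' w.1 w.2 →
        (∏ w' ∈ W.erase w, (ET M A ^ w'.2 - MvPolynomial.C (τ w'.1))) ^ (n + 1) * Xs M A R' ∈ a

open scoped Classical in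
/-- **Row LCK** (the operator is killed at a point with a weak stable set; uses PRD).
PROOF. Let `b` be the ideal of all `p` with `q * p * Xs M A R ∈ a`.
(1) If the slack of `ρ` at `w` is not `0` then `1 - X_ρ ∈ b`: `ρ ∉ R`,
`(1 - X_ρ) * Xs R = Xs (insert ρ R)` and `w` is not in the cone of `insert ρ R`.
(2) Let `j ∈ K`. `Ev M A e_j - C X ∈ a`, `Ev M A e_j = ∏_ρ X_ρ ^ wv M e_j ρ`, where
`wv M e_j (inl i)` is `1` for `i = j` and `0` otherwise, and `wv M e_j (inr α) = α j`. The wall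
`inl j` has slack `w.1 j ≠ 0`; the walls `inr α` with `α ∉ fce M w.1` have slack `≠ 0`; for
`α ∈ fce M w.1`, `α j ≤ 1` by stability. With (1):
`∏_(α ∈ fce M w.1, α j = 1) X_(inr α) - C X ∈ b`.
(3) Terms of `PZ M z`: `cellP M A I J ∈ b` if some `α ∈ I` is not in `fce M w.1`, or some `i ∈ J`
has `w.1 i ≠ 0` (a factor `1 - X_ρ` of (1)). Otherwise, modulo `b`, all factors `X_ρ` of walls
with slack `≠ 0` may be replaced by `1`. So modulo `b` the operator `PZ M z` is
`∑_J (factor of J) * ∑_(I ⊆ fce M w.1) C (z I J) * ∏_(α ∈ I) (1 - X_α) ∏_(α ∈ fce - I) X_α`, over the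
`J ⊆ {w.1 i = 0}`, which are disjoint from `K`.
(4) For each such `J` PRD (in the ring `MvPolynomial (Wa M) A`, ideal `b`, `ι` = the subtype
`fce M w.1`, `κ = σ`, `y α = X_(inr α)`, `X := C X`, `blk α = some j` if `j ∈ K` and `α j = 1` (unique
by stability), `none` if there is no such `j`, `z I := C (z I J)`) shows that the inner sum is in
`b`: if `I ⊆ fce M w.1` meets all blocks, then `KS I K` (stability and occurrence are clear,
`VK I K ≤ VK (fce M w.1) K`), and the relation is `KRel` for `(I, J, K)`, with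
`keep I K K'` = the monomials of `I` in no block `j ∈ K \ K'`. -/
def LckStmt : Prop :=
  ∀ (σ : Type) [Fintype σ] (M : Finset (σ →₀ ℕ)) (A : Type) [CommRing A] (X : A)
    (τ : (σ → ℕ) → A) (a : Ideal (MvPolynomial (Wa M) A)), IsUnit (1 - X) →
    (∀ u : σ → ℕ, Ev M A u - MvPolynomial.C (τ u) ∈ a) →
    ∀ (R : Finset (Wa M)) (w : (σ → ℕ) × ℕ) (K : Finset σ) (q : MvPolynomial (Wa M) A),
      InK M R w.1 w.2 → (∀ j ∈ K, w.1 j ≠ 0 ∧ τ (fun i => if i = j then 1 else 0) = X) →
      (∀ α : M, (α : σ →₀ ℕ) ∈ fce M w.1 ↔ slk M w.1 w.2 (Sum.inr α) = 0) →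
      KS (fce M w.1) K →
      (∀ R' : Finset (Wa M), R ⊆ R' → ¬ InK M R' w.1 w.2 → q * Xs M A R' ∈ a) →
      ∀ z : Finset (σ →₀ ℕ) → Finset σ → A, KRel M X z (fun _ => 0) →
        q * PZ M z * Xs M A R ∈ a

open scoped Classical in
/-- **Row CPF** (coprimality). PROOF. `d_(w,w') = c w' ^ N w - c w ^ N w'` lies in the ideal
generated by `q_w = T ^ N w - c w` and `q_(w') = T ^ N w' - c w'`: `q_w` divides
`T ^ (N w * N w') - c w ^ N w'` and `q_(w')` divides `T ^ (N w * N w') - c w' ^ N w`, subtract.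
Hence (binomial theorem) `d_(w,w') ^ (2 m)` lies in the ideal generated by `q_w ^ m`, `q_(w') ^ m`.
Let `D` be the product of all `d_(w,w')`, `w ≠ w'`. CLAIM, by induction on `|U|`, `∅ ≠ U ⊆ s`: for
some `e`, `D ^ e * ∏_(w ∈ s \ U) q_w ^ m ∈ b`. `|U| = 1` is the hypothesis. If `U` contains
`w₁ ≠ w₂`, the claim for `U \ {w₁}` and `U \ {w₂}` says that `D ^ e * ∏_(s \ U) q ^ m` times
`q_(w₁) ^ m` and times `q_(w₂) ^ m` is in `b`, hence also times `d_(w₁,w₂) ^ (2 m)`, which divides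
`D ^ (2 m)`. Take `U = s`. -/
def CpfStmt : Prop :=
  ∀ (A W : Type) [CommRing A] (s : Finset W) (T : A) (N : W → ℕ) (c : W → A) (b : Ideal A)
    (m : ℕ), s.Nonempty → (∀ w ∈ s, (∏ w' ∈ s.erase w, (T ^ N w' - c w')) ^ m ∈ b) →
    ∃ e : ℕ, (∏ w ∈ s, ∏ w' ∈ s.erase w, (c w' ^ N w - c w ^ N w')) ^ e ∈ b

/-- **Row ZGY** (the generating function with a second weight; copy of `Helper40_Simp2/Zg.lean`).
PROOF. Let `GY h : KY` be the power series with coefficient of `X ^ d` equal to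
`∑ Y ^ (∑ θ i u i)` over the finitely many `u` with `h ρ ≤ wv M u ρ` for all `ρ` and `|u| = d`
(`GG M h` with `ncard` replaced by this sum), `valY p h N = ∑_m p.coeff m * GY (h + m + lvl N)`. As in
Zg.lean `valY` is linear in `p`, `valY (monomial a c * p) h N = c * valY p (h + a) N`. `a` = the
set of the `p` such that for all `h` there is `N₀` with `valY p h N = 0` for all `N ≥ N₀`; an ideal.
`Ev`: translation by `u` multiplies the generating function by `X ^ |u| Y ^ (∑ θ i u i)`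
(`gfS_translate`). `Xs`: `valY (Xs S) h N` counts the points with equality on `S`, which do not
exist for large `N` if the cone is trivial (`Xs_mem`, the argument is about points only). Torsion:
`valY (C c * p) = c * valY p` and `KY` is a domain. Specialisation: `ev1 (GY h) = GG M h`
(evaluate `Y ^ k` at `Y = 1`, count), so `ev1 (valY p h N) = val M (map ev1 p) h N` (check on
monomials), which is eventually zero, and `RQ.fin`. -/
def ZgyStmt : Prop :=
  ∀ (σ : Type) [Fintype σ] (M : Finset (σ →₀ ℕ)), M.Nonempty → ∀ θ : σ → ℕ,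
    ∃ a : Ideal (MvPolynomial (Wa M) KY),
      (∀ u : σ → ℕ, Ev M KY u - MvPolynomial.C (XY (∑ i, u i) (∑ i, θ i * u i)) ∈ a) ∧
      (∀ S : Finset (Wa M), (∀ u N, InK M S u N → u = 0 ∧ N = 0) → Xs M KY S ∈ a) ∧
      (∀ c : KY, c ≠ 0 → ∀ p, MvPolynomial.C c * p ∈ a → p ∈ a) ∧
      ∀ p ∈ a, ∀ P : Set (ℕ × ℕ), MvPolynomial.map ev1 p ∈ H40.RI M P

/-- **Row ZAK** (uses LCW, LCK, CPF, ZGY). The operator kills the flat cones.
PROOF. `KRay` for `R` gives `W`, `K`, `θ`; ZGY gives `a`. Put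
`τ u = XY (∑ u) (∑ θ u)`, `z' I J = inY (z I J)`, so `KRel M X z' 0` in `KY` (`inY X = X`), and
`G = PZ M z' * Xs M KY R`. If `W` is empty the cone of `R` is trivial (second property of `KRay`
for `R' = R`) and `Xs R ∈ a`. Let `W` be nonempty, `m = card (Wa M) + 1`. For `w ∈ W` LCW gives
`q * Xs R' ∈ a`, `q = (∏_(w' ≠ w) (ET ^ w'.2 - C (τ w'.1))) ^ m`, for all `R' ⊇ R` without `w`
(raise the power if necessary), LCK gives `q * G ∈ a` (`τ e_j = XY 1 (θ j) = X` since `θ j = 0`;
`1 - X` is a unit of `KY`). CPF in `MvPolynomial (Wa M) KY` with `s = W`, `T = ET`,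
`c w = C (τ w.1)`, `b` = the ideal of all `p` with `p * G ∈ a`: `(C d) ^ e * G ∈ a`, where `d` is the
product of the `τ w'.1 ^ w.2 - τ w.1 ^ w'.2 = XY (..) ((∑ θ w'.1) w.2) - XY (..) ((∑ θ w.1) w'.2)`,
which are not zero by the third property of `KRay` (compare a coefficient). So `G ∈ a`, and
`map ev1 G = PZ M z * Xs M ℤ⟦X⟧ R` (`ev1 ∘ inY = id`). -/
def ZakStmt : Prop :=
  ∀ (σ : Type) [Fintype σ] (M : Finset (σ →₀ ℕ)), M.Nonempty → ∀ x : ℚ, KRay M x →
    ∀ (P : Set (ℕ × ℕ)) (z : Finset (σ →₀ ℕ) → Finset σ → ℤ⟦X⟧), KRel M X z (fun _ => 0) →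
      ∀ R : Finset (Wa M), Flat M x R → PZ M z * Xs M ℤ⟦X⟧ R ∈ H40.RI M P

open scoped Classical in
/-- **Row ZSK** (uses ZAK). The scalar version, copy of `Helper28_Simp2/Zsc.lean`.
PROOF. `P = steps ((slopes M ∪ {1}) \ {x})`, `a = H40.RI M P`. The functions
`z = y1 I J - X * c J` and `y0 I J - X * c J` satisfy `KRel M X z 0` because
`∑_(K' ⊆ K) (1 - X)^|K'| X^(|K| - |K'|) = 1` (binomial theorem). `PZ M z * Xs R ∈ a` for all flat
`R` by ZAK, so `PZ M z = PZ M z * Xs ∅ ∈ a` by `H73.red` of `Helper73_Simp2/Zalg.lean` (with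
`H7.ext2` (theorem `ext2` of `Helper7_Simp2/Ext2.lean`), and the properties of `a` from Zg.lean: `H40.Ev_mem`, and the step
`(ET ^ N - C (X ^ r)) * p ∈ a → p ∈ a` for `(r, N) ∈ P` as in `zg`; `hunit`, `hfac` as in Zsc.lean).
The rest is word for word the proof of `zsc`. -/
def ZskStmt : Prop :=
  ∀ (σ : Type) [Fintype σ] (M : Finset (σ →₀ ℕ)), M.Nonempty → ∀ x : ℚ, x ≠ 1 → KRay M x →
    ∀ (c : Finset σ → ℤ⟦X⟧) (y1 y0 : Finset (σ →₀ ℕ) → Finset σ → ℤ⟦X⟧),
      (∀ J, y1 ∅ J = 0) → (∀ J, y0 ∅ J = c J) →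
      KRel M X y1 (fun J => X * c J) → KRel M X y0 (fun J => X * c J) →
      RQ (X : ℤ⟦X⟧) (steps ((slopes M ∪ {1}) \ {x})) (fun m =>
        ∑ I ∈ M.powerset, ∑ J ∈ (univ : Finset σ).powerset, if I = ∅ then 0 else
          y1 I J * gfc M I J m + y0 I J * ∑ l ∈ range m, X ^ (m - l) * gfc M I J l)

end Pool.Agent.GEN
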