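import Pool.Agent.GEN.StmtsZC

/-!
# Squad GEN, block ZD: confluence of the relations for all sets of monomials

`Conf M J` for all `M` (proof of helper56): by induction on the set of monomials `I` all relations
`rho X z I K = c` of the weak stable sets `K` of `I` are equivalent. `K₁ ∪ K₂` stable: `RHB`.
Otherwise some connected component `(P, Q)`, `P ⊆ K₁`, `Q ⊆ K₂`, of the adjacency graph is a
block (`LMX`) and `K₂` may be replaced by `(K₂ ∖ Q) ∪ P` (`SWI`).
-/

set_option autoImplicit false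
set_option linter.unusedVariables false
set_option linter.unusedSectionVars false

namespace Pool.Agent.GEN

open PowerSeries Finset Pool.Agent.Helper6_Mono Pool.Agent.Helper30_Simp
  Pool.Agent.Helper30_Simp2

section rho

variable {σ : Type}

/-- the left hand side of the relation for `(I, K)` -/
noncomputable def rho {A : Type} [CommRing A] (X : A) (z : Finset (σ →₀ ℕ) → A)
    (I : Finset (σ →₀ ℕ)) (K : Finset σ) : A :=
  ∑ K' ∈ K.powerset, (1 - X) ^ K'.card * X ^ (K.card - K'.card) * z (keep I K K')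

/-- minimal weak stable sets -/
def Circ (I : Finset (σ →₀ ℕ)) (K : Finset σ) : Prop :=
  KS I K ∧ ∀ K' ⊆ K, K'.Nonempty → K' ≠ K → K'.card ≤ Module.finrank ℚ (VK I K')

/-- all relations for the proper subsets of `I` hold -/
def RelBelow {A : Type} [CommRing A] (X : A) (J : Finset σ) (z : Finset (σ →₀ ℕ) → A) (c : A)
    (I : Finset (σ →₀ ℕ)) : Prop :=
  ∀ (I' : Finset (σ →₀ ℕ)) (K : Finset σ), I' ⊆ I → I' ≠ I → Disjoint K J → KS I' K →
    rho X z I' K = c

/-- `(P, Q)` is a connected block of `I`: every monomial of `I` meets both `P` and `Q` exactly once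
(with exponent `1`), or neither of them; all variables of `P` and `Q` occur; `P` and `Q` have the
same number of elements; for every proper nonempty subset `Q'` of `Q` some variable of `P` is
adjacent to `Q'` and to `Q ∖ Q'` -/
structure Blk (I : Finset (σ →₀ ℕ)) (P Q : Finset σ) : Prop where
  disj : ∀ j ∈ P, j ∉ Q
  ne : P.Nonempty
  card : P.card = Q.card
  once : ∀ α ∈ I, (∑ j ∈ P, α j = 1 ∧ ∑ j ∈ Q, α j = 1) ∨ ∀ j, j ∈ P ∨ j ∈ Q → α j = 0
  occP : ∀ j ∈ P, ∃ α ∈ I, α j = 1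
  occQ : ∀ j ∈ Q, ∃ α ∈ I, α j = 1
  conn : ∀ Q' ⊆ Q, Q'.Nonempty → Q' ≠ Q → ∃ p ∈ P, ∃ α ∈ I, ∃ β ∈ I, α p = 1 ∧ β p = 1 ∧
    (∃ q ∈ Q', α q = 1) ∧ ∃ q ∈ Q, q ∉ Q' ∧ β q = 1

end rho

/-- **Row VKR** (representation of `VK`). PROOF. A monomial of `I` with `α j = 1`, `j ∈ K`, has
`α i = 0` for the other `i ∈ K`. The right hand side is a submodule (or: closed under sums and
multiples) containing the generators; conversely split `t` into the parts of the `j ∈ K` and write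
`∑_(α j = 1) t α α = ∑ t α (α - α₀)` for a fixed `α₀` with `α₀ j = 1`. -/
def VkrStmt : Prop :=
  ∀ (σ : Type) (I : Finset (σ →₀ ℕ)) (K : Finset σ), Stab I K → ∀ v : σ → ℚ,
    v ∈ VK I K ↔ ∃ t : (σ →₀ ℕ) → ℚ, (∀ α ∈ I, (∀ j ∈ K, α j = 0) → t α = 0) ∧
      (∀ j ∈ K, ∑ α ∈ I, t α * (α j : ℚ) = 0) ∧ ∀ i, v i = ∑ α ∈ I, t α * (α i : ℚ)

open scoped Classical in
/-- **Row RHA** (splitting; uses DCB). PROOF. (1) `K' ⊆ K ∪ E` is `A ∪ B`, `A ⊆ K`, `B ⊆ E`
(a bijection of `(K ∪ E).powerset` with `K.powerset ×ˢ E.powerset`, or induction on `E` with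
`Finset.sum_powerset_insert`), and `keep I (K ∪ E) (A ∪ B) = keep (keep I E B) K A` (DCB (3) with
`D = K ∪ E`, `D \ K = E`). (2) binomial theorem (`Finset.prod_add` with constant functions, or
`Finset.sum_pow_mul_eq_add_pow`). (3) If no variable of `E` occurs in `I` then `keep I E B = I`, so
(3) follows from (1) and (2). -/
def RhaStmt : Prop :=
  ∀ (σ : Type) [Fintype σ] (A : Type) [CommRing A] (X : A) (z : Finset (σ →₀ ℕ) → A)
    (I : Finset (σ →₀ ℕ)) (K E : Finset σ), Disjoint K E →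
    (rho X z I (K ∪ E) = ∑ B ∈ E.powerset, (1 - X) ^ B.card * X ^ (E.card - B.card) *
      rho X z (keep I E B) K) ∧
    (∑ B ∈ E.powerset, (1 - X) ^ B.card * X ^ (E.card - B.card) = 1) ∧
    ((∀ j ∈ E, ∀ α ∈ I, α j = 0) → rho X z I (K ∪ E) = rho X z I K)

open scoped Classical in
/-- **Row RHB** (stable supersets; uses DCB, RHA). PROOF. RHA (1) with `E = D ∖ K`; for `B ≠ E` the
set `keep I E B` is a proper subset of `I` (DCB (4)) with `KS (keep I E B) K` (DCB (5)), so its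
`rho` is `c`; `keep I E E = I`. Subtract `c` times RHA (2). -/
def RhbStmt : Prop :=
  ∀ (σ : Type) [Fintype σ] (A : Type) [CommRing A] (X : A) (z : Finset (σ →₀ ℕ) → A) (c : A)
    (J : Finset σ) (I : Finset (σ →₀ ℕ)) (D K : Finset σ), RelBelow X J z c I → Stab I D →
    Disjoint D J → K ⊆ D → KS I K →
    rho X z I D - c = (1 - X) ^ (D \ K).card * (rho X z I K - c)

/-- **Row LMX** (adjacent circuits; uses VKR if convenient). PROOF. Let `α₁ ∈ I`,
`α₁ j₁ = 1 = α₁ j₂`, `j₁ ∈ K₁`, `j₂ ∈ K₂`, `j₁ ≠ j₂`. Let `Q ⊆ K₂` be the set of the `q ∈ K₂`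
reachable from `j₂` by steps `q, q'` with `α q = α p = 1`, `β p = β q' = 1` for some `p ∈ K₁`,
`p ≠ q`, `p ≠ q'`, `α, β ∈ I`; let `P` be the set of the `p ∈ K₁` adjacent to some `q ∈ Q` (`p ≠ q`,
`α p = α q = 1`). A monomial with a variable `j ∈ K₁ ∩ K₂` contains no other variable of `K₁` or
`K₂`, so `P ∩ K₂ = ∅` and `Q ∩ K₁ = ∅`. Let `pr` be the projection of `σ → ℚ` to the coordinates of
`Q`. `V(K₁ ∖ P) ⊆ ker pr` (a monomial with a variable of `K₁ ∖ P` has no variable of `Q`), and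
`pr (V(P))` contains all `e_q - e_q'` (reachability), hence has dimension `≥ |Q| - 1`, and
dimension `|Q|` if some monomial of `I` with a variable of `P` has no variable of `K₂`. So
`|K₁| - 1 ≥ dim V(K₁) ≥ |Q| - 1 + dim V(K₁ ∖ P) ≥ |Q| - 1 + |K₁| - |P|`, i.e. `|Q| ≤ |P|`, and
`|Q| ≤ |P| - 1` in the second case (`dim V(K₁ ∖ P) ≥ |K₁ ∖ P|`: `K₁` is a circuit, or
`K₁ ∖ P = ∅`). Symmetrically `|P| ≤ |Q|`, and `|P| ≤ |Q| - 1` if some monomial with a variable of
`Q` has no variable of `K₁` (the set `P` is also connected: it is the set of the elements of `K₁`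
adjacent to the connected set `Q`). So `|P| = |Q|`, every monomial with a variable of `P` has a
variable of `K₂`, which lies in `Q`, and conversely. -/
def LmxStmt : Prop :=
  ∀ (σ : Type) [Fintype σ] (I : Finset (σ →₀ ℕ)) (K₁ K₂ : Finset σ), Circ I K₁ → Circ I K₂ →
    (∃ j₁ ∈ K₁, ∃ j₂ ∈ K₂, j₁ ≠ j₂ ∧ ∃ α ∈ I, α j₁ = 1 ∧ α j₂ = 1) →
    ∃ P Q : Finset σ, P ⊆ K₁ ∧ Q ⊆ K₂ ∧ Disjoint P K₂ ∧ Blk I P Q

open scoped Classical in
/-- **Row SWD** (dimensions for a block; uses VKR). `K = S ∪ Q` is a circuit.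
PROOF. A monomial with a variable of `S` has no variable of `Q` (stability of `K`), hence none of
`P`. For `T ⊆ σ` let `pr_T` be the projection to the coordinates of `T`;
`dim V = dim pr_T(V) + dim (V ∩ ker pr_T)`.
(i) `pr_P(V_K)` is spanned by the `e_p - e_p'` for `p, p'` with a common neighbour in `Q`; by `conn`
the graph is connected, so its dimension is `|P| - 1` (a functional vanishing on it is constant
on `P`). So `F := V_K ∩ ker pr_P` has dimension `≤ |K| - 1 - (|P| - 1) = |S|`.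
(ii) Let `Q' ⊆ Q` be proper, nonempty, `N = N(Q')` = the set of the neighbours of `Q'` in `P`.
`|S| + |Q'| ≤ dim V_(S ∪ Q') ≤ (|N| - 1) + |S|` (`K` is a circuit; `pr_P` of it is supported on `N`
with sum zero; the kernel is contained in `F`), so `|Q'| + 1 ≤ |N|`.
(iii) `I' = keep I Q Q'`: `S ∪ N` is stable on `I'`, and `V := VK I' (S ∪ N)` satisfies
`dim V ≤ (|Q'| - 1) + |S| < |S| + |N|`: `pr_Q(V)` is supported on `Q'` with sum zero, and
`V ∩ ker pr_Q ⊆ F` by VKR: `v = ∑ t α α`, the sums over the monomials with a given variable of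
`S ∪ N` vanish, and the `Q`-coordinates vanish, so all the sums for the variables of `K` vanish,
`v ∈ V_K`, and its `P`-coordinates are the sums for `P`. This is (1).
(iv) the same for `Q' = Q` (`N = P`, `keep I Q Q = I`): `dim ≤ |Q| - 1 + |S| < |S| + |P|`. This
is (2).
(v) Let `P' ⊆ P` be proper, nonempty, `N' ⊆ Q` its set of neighbours; `|P'| + 1 ≤ |N'|`: put
`Q' = Q ∖ N'`; if `Q' = ∅` then `|N'| = |Q| = |P| > |P'|`; otherwise `Q' ≠ Q` and
`N(Q') ⊆ P ∖ P'`, `|P| - |P'| ≥ |Q'| + 1 = |Q| - |N'| + 1` by (ii). As in (iii), with the roles of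
`P` and `Q` exchanged, `dim VK (keep I P P') (S ∪ N') ≤ (|P'| - 1) + |S| < |S| + |N'|`. This is
(3) (the kernel of `pr_P` is contained in `F` by VKR: the vectors lie in `V_K`). -/
def SwdStmt : Prop :=
  ∀ (σ : Type) [Fintype σ] (I : Finset (σ →₀ ℕ)) (S P Q : Finset σ), Circ I (S ∪ Q) →
    Disjoint S Q → Disjoint P (S ∪ Q) → Blk I P Q →
    (∀ Q' ⊆ Q, Q'.Nonempty → Q' ≠ Q →
      KS (keep I Q Q') (S ∪ P.filter fun p => ∃ α ∈ I, α p = 1 ∧ ∃ q ∈ Q', α q = 1)) ∧
    KS I (S ∪ P) ∧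
    ∀ P' ⊆ P, P'.Nonempty → P' ≠ P →
      KS (keep I P P') (S ∪ Q.filter fun q => ∃ α ∈ I, α q = 1 ∧ ∃ p ∈ P', α p = 1)

open scoped Classical in
/-- **Row SWI** (switching; uses DCB, RHA, SWD). PROOF. Compute `rho X z I (S ∪ P ∪ Q)` in two
ways with RHA (1). First `K = S ∪ P`, `E = Q`: the summand of `Q' ⊆ Q` is
`(1 - X)^|Q'| X^(|Q| - |Q'|) rho X z (keep I Q Q') (S ∪ P)`. For `Q' = Q`: `rho X z I (S ∪ P)` with
factor `(1 - X)^|Q|`. For `Q'` proper and nonempty: the variables of `P ∖ N(Q')` do not occur in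
`keep I Q Q'`, so by RHA (3) it is `rho X z (keep I Q Q') (S ∪ N(Q')) = c` (SWD (1), the set is
smaller, DCB (4)). For `Q' = ∅`: `keep I Q ∅ = I₀` = the monomials without variables of `P ∪ Q`,
`rho X z I₀ (S ∪ P) = rho X z I₀ S` (RHA (3)). Second, with `P` and `Q` exchanged (SWD (3)):
the same with `rho X z I (S ∪ Q)`; the other summands are the same since `|P| = |Q|` (for the
middle ones: both are `c * (1 - (1 - X)^n - X^n)`, `n = |P| = |Q|`, by RHA (2)). So
`(1 - X)^n (rho X z I (S ∪ P) - rho X z I (S ∪ Q)) = 0`. -/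
def SwiStmt : Prop :=
  ∀ (σ : Type) [Fintype σ] (A : Type) [CommRing A] (X : A), IsUnit (1 - X) →
    ∀ (z : Finset (σ →₀ ℕ) → A) (c : A) (J : Finset σ) (I : Finset (σ →₀ ℕ))
    (S P Q : Finset σ), RelBelow X J z c I → Circ I (S ∪ Q) → Disjoint S Q →
    Disjoint P (S ∪ Q) → Blk I P Q → Disjoint (S ∪ P ∪ Q) J →
    rho X z I (S ∪ P) = rho X z I (S ∪ Q)

/-- **Row CNG** (confluence; uses DCB, RHB, LMX, SWD, SWI). PROOF. `1 - X` is a unit of `ℤ⟦X⟧`.
Claim: `rho X z I K = c` for all `I ⊆ M`, `KS I K`, `K` disjoint from `J`; induction on `I.card`, so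
`RelBelow X J z c I`. `Red I J` holds, `K₁ := Kc I J` has `rho X z I K₁ = c` by hypothesis
(`Kc_spec`).
(1) If `K' ⊆ K` is a circuit (it exists: a minimal nonempty subset with `KS`, subsets of stable sets
are stable; every nonempty proper subset is then not weak), RHB with `D = K` says that
`rho X z I K = c` iff `rho X z I K' = c`. So we may assume that both are circuits.
(2) Let `K₁`, `K₂` be circuits disjoint from `J` and `rho X z I K₁ = c`; claim `rho X z I K₂ = c`,
by induction on `(K₂ ∖ K₁).card`. If no monomial contains variables `j₁ ∈ K₁`, `j₂ ∈ K₂`,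
`j₁ ≠ j₂`, then `D = K₁ ∪ K₂` is stable on `I`: RHB for `K₁` and for `K₂` gives
`(1 - X)^a (rho X z I K₂ - c) = (1 - X)^b (rho X z I K₁ - c) = 0`. Otherwise take the block `(P, Q)`
of LMX, `S = K₂ ∖ Q`. SWI: `rho X z I K₂ = rho X z I (S ∪ P)`, and `KS I (S ∪ P)` (SWD (2)). Choose a
circuit `K₃ ⊆ S ∪ P`; `(K₃ ∖ K₁) ⊆ (K₂ ∖ K₁) ∖ Q` is smaller (`Q ∩ K₁ = ∅`: a variable in
`Q ∩ K₁` would be in a monomial with a variable of `P ⊆ K₁`, different from it, against the
stability of `K₁`), so `rho X z I K₃ = c` by induction, and by (1) `rho X z I (S ∪ P) = c`. -/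
def CngStmt : Prop :=
  ∀ (σ : Type) [Fintype σ] (M : Finset (σ →₀ ℕ)) (J : Finset σ), Conf M J

end Pool.Agent.GEN
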